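import Mathlib

set_option autoImplicit false

open Finset

namespace Pool.Agent.H46

section defs
variable {V : Type} 

/-- `u - v - w` is the unique path of length at most two between the nonadjacent `u`, `w`. -/
def Crit (H : SimpleGraph V) (u v w : V) : Prop :=
  u ≠ w ∧ ¬ H.Adj u w ∧ ∀ z, (H.Adj u z ∧ H.Adj w z) ↔ z = v

/-- no common neighbour -/
def Free (H : SimpleGraph V) (u v : V) : Prop := ∀ z, ¬ (H.Adj u z ∧ H.Adj v z)

/-- every edge is critical -/
def CritHyp (H : SimpleGraph V) : Prop :=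
  ∀ u v, H.Adj u v → Free H u v ∨ (∃ w, Crit H u v w) ∨ (∃ w, Crit H v u w)

variable {H : SimpleGraph V}

lemma Crit.symm {u v w : V} (h : Crit H u v w) : Crit H w v u :=
  ⟨h.1.symm, fun h' => h.2.1 h'.symm, fun z => by rw [← h.2.2 z]; tauto⟩

lemma Crit.adj₁ {u v w : V} (h : Crit H u v w) : H.Adj u v := ((h.2.2 v).2 rfl).1
lemma Crit.adj₂ {u v w : V} (h : Crit H u v w) : H.Adj w v := ((h.2.2 v).2 rfl).2

lemma Crit.eq_of {u v w z : V} (h : Crit H u v w) (h1 : H.Adj u z) (h2 : H.Adj w z) : z = v :=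
  (h.2.2 z).1 ⟨h1, h2⟩

lemma Crit.unique {u v v' w : V} (h : Crit H u v w) (h' : Crit H u v' w) : v = v' :=
  h'.eq_of h.adj₁ h.adj₂

lemma Free.symm {u v : V} (h : Free H u v) : Free H v u := fun z hz => h z ⟨hz.2, hz.1⟩

end defs

section maxT

variable {V : Type}

/-- good sets of critical triples : for each middle vertex the chosen pairs are disjoint -/
def GoodT (H : SimpleGraph V) (T : Finset (V × V × V)) : Prop :=
  (∀ t ∈ T, Crit H t.1 t.2.1 t.2.2) ∧
  (∀ t ∈ T, ∀ t' ∈ T, t.2.1 = t'.2.1 → t ≠ t' →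
    t.1 ≠ t'.1 ∧ t.1 ≠ t'.2.2 ∧ t.2.2 ≠ t'.1 ∧ t.2.2 ≠ t'.2.2)

lemma exists_maxT [Fintype V] (H : SimpleGraph V) : ∃ T : Finset (V × V × V), GoodT H T ∧
    ∀ u v w, Crit H u v w → ∃ t ∈ T, t.2.1 = v ∧ (t.1 = u ∨ t.2.2 = u ∨ t.1 = w ∨ t.2.2 = w) := by
  classical
  obtain ⟨T, hT, hmax⟩ := (Finset.univ.filter (fun T => GoodT H T)).exists_max_image
    Finset.card ⟨∅, by simp [GoodT]⟩
  rw [mem_filter] at hT
  refine ⟨T, hT.2, ?_⟩
  intro u v w huvw
  by_contra hcon
  push Not at hcon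
  have hnot : (u, v, w) ∉ T := fun h => (hcon _ h rfl).1 rfl
  have hgood : GoodT H (insert (u, v, w) T) := by
    refine ⟨?_, ?_⟩
    · intro t ht
      rw [mem_insert] at ht
      rcases ht with rfl | ht
      · exact huvw
      · exact hT.2.1 t ht
    · intro t ht t' ht' h1 h2
      rw [mem_insert] at ht ht'
      rcases ht with rfl | ht <;> rcases ht' with rfl | ht'
      · exact absurd rfl h2
      · obtain ⟨a, b, c, d⟩ := hcon t' ht' h1.symm
        exact ⟨fun h => a h.symm, fun h => b h.symm, fun h => c h.symm, fun h => d h.symm⟩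
      · obtain ⟨a, b, c, d⟩ := hcon t ht h1
        exact ⟨a, c, b, d⟩
      · exact hT.2.2 t ht t' ht' h1 h2
  have := hmax _ (mem_filter.2 ⟨mem_univ _, hgood⟩)
  rw [card_insert_of_notMem hnot] at this
  omega

lemma GoodT.explicit {H : SimpleGraph V} {T : Finset (V × V × V)} (hT : GoodT H T) :
    SimpleGraph.TripartiteFromTriangles.ExplicitDisjoint T where
  inj₀ := by
    intro a b c a' h h'
    by_contra hne
    exact (hT.2 _ h _ h' rfl (by simpa using hne)).2.2.2 rfl
  inj₁ := by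
    intro a b c b' h h'
    exact (hT.1 _ h).unique (hT.1 _ h')
  inj₂ := by
    intro a b c c' h h'
    by_contra hne
    exact (hT.2 _ h _ h' rfl (by simpa using hne)).1 rfl

lemma GoodT.noacc {H : SimpleGraph V} {T : Finset (V × V × V)} (hT : GoodT H T) :
    SimpleGraph.TripartiteFromTriangles.NoAccidental T where
  eq_or_eq_or_eq := by
    intro a a' b b' c c' h1 h2 h3
    right; left
    exact (hT.1 _ h2).eq_of (hT.1 _ h3).adj₁ (hT.1 _ h1).adj₂

lemma GoodT.card_le [Fintype V] {H : SimpleGraph V} {T : Finset (V × V × V)} (hT : GoodT H T) :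
    T.card ≤ Fintype.card V ^ 2 := by
  classical
  have : T.card ≤ (Finset.univ : Finset (V × V)).card := by
    apply Finset.card_le_card_of_injOn (fun t => (t.1, t.2.1)) (fun _ _ => mem_univ _)
    rintro ⟨a, b, c⟩ h ⟨a', b', c'⟩ h' heq
    simp only [Prod.mk.injEq] at heq
    obtain ⟨rfl, rfl⟩ := heq
    have := hT.explicit.inj₂ h h'
    simp [this]
  simpa [sq] using this

theorem card_T_small (ε : ℝ) (hε : 0 < ε) : ∃ n0 : ℕ, ∀ (V : Type) [Fintype V] (H : SimpleGraph V)
    (T : Finset (V × V × V)), n0 ≤ Fintype.card V → GoodT H T →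
    (T.card : ℝ) ≤ ε * (Fintype.card V : ℝ) ^ 2 := by
  classical
  have hb : 0 < SimpleGraph.triangleRemovalBound (ε / 9) :=
    SimpleGraph.triangleRemovalBound_pos (by positivity)
  set b := SimpleGraph.triangleRemovalBound (ε / 9) with hbdef
  obtain ⟨n0, hn0⟩ := exists_nat_gt (1 / (27 * b))
  refine ⟨n0 + 1, ?_⟩
  intro V _ H T hn hT
  by_contra hcon
  push Not at hcon
  haveI := hT.explicit
  haveI := hT.noacc
  set n := Fintype.card V with hndef
  have hfar : (SimpleGraph.TripartiteFromTriangles.graph T).FarFromTriangleFree (ε / 9) := by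
    apply SimpleGraph.TripartiteFromTriangles.farFromTriangleFree
    push_cast
    rw [← hndef]
    nlinarith
  have h1 := hfar.le_card_cliqueFinset
  rw [SimpleGraph.TripartiteFromTriangles.card_triangles] at h1
  have hcard : Fintype.card (V ⊕ V ⊕ V) = 3 * n := by
    simp [Fintype.card_sum, ← hndef]; ring
  rw [hcard, ← hbdef] at h1
  have h2 : (T.card : ℝ) ≤ (n : ℝ) ^ 2 := by exact_mod_cast hT.card_le
  have hnpos : (0 : ℝ) < n := by
    have : 0 < n := by omega
    exact_mod_cast this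
  have hn' : (n0 : ℝ) < n := by
    have : n0 < n := by omega
    exact_mod_cast this
  have h3 : 1 / (27 * b) < n := lt_trans hn0 hn'
  rw [div_lt_iff₀ (by positivity)] at h3
  push_cast at h1
  have h4 : b * (3 * (n : ℝ)) ^ 3 ≤ (n : ℝ) ^ 2 := le_trans h1 h2
  have h5 : (n : ℝ) * (27 * b) * (n : ℝ) ^ 2 ≤ 1 * (n : ℝ) ^ 2 := by nlinarith
  have h6 : (n : ℝ) * (27 * b) ≤ 1 := le_of_mul_le_mul_right h5 (by positivity)
  linarith

end maxT

end Pool.Agent.H46
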