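import Pool.Agent.H46.Setup2

set_option autoImplicit false
set_option maxHeartbeats 4000000

open Finset

namespace Pool.Agent.H46

variable {V : Type} [Fintype V] {H : SimpleGraph V} {A B Z : Finset V} {n : ℝ}

lemma Setup.npos (h : Setup H A B Z n) : 0 < n := by
  have := h.hbig
  have h2 : (0 : ℝ) < 10 ^ 8 := by positivity
  linarith

lemma Setup.not_crit_AA (h : Setup H A B Z n) {u v w : V} (hu : u ∈ A) (hw : w ∈ A) :
    ¬ Crit H u v w := by
  intro hc
  have h1 := h.comA u hu w hw hc.1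
  have h2 := crit_common_le_one hc B
  have h3 : (dg (fun u z => H.Adj u z ∧ H.Adj w z) u B : ℝ) ≤ 1 := by exact_mod_cast h2
  have := h.hbig
  have h4 : (10 : ℝ) ^ 8 = 100000000 := by norm_num
  linarith

lemma Setup.not_crit_BB (h : Setup H A B Z n) {u v w : V} (hu : u ∈ B) (hw : w ∈ B) :
    ¬ Crit H u v w := h.swap.not_crit_AA hu hw

/-- how a non-free cross edge is critical -/
lemma Setup.serve (h : Setup H A B Z n) {x b : V} (hx : x ∈ A) (hb : b ∈ B)
    (hxb : H.Adj x b) (hnf : ¬ Free H x b) :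
    (∃ w ∈ Z, Crit H x b w) ∨ (∃ w ∈ Z, Crit H b x w) ∨
    ((∃ w ∈ B, Crit H x b w) ∨ (∃ w ∈ A, Crit H b x w)) := by
  rcases h.crit x b hxb with hf | ⟨w, hw⟩ | ⟨w, hw⟩
  · exact absurd hf hnf
  · rcases h.cover w with hwA | hwB | hwZ
    · exact absurd hw (h.not_crit_AA hx hwA)
    · right; right; left; exact ⟨w, hwB, hw⟩
    · left; exact ⟨w, hwZ, hw⟩
  · rcases h.cover w with hwA | hwB | hwZ
    · right; right; right; exact ⟨w, hwA, hw⟩
    · exact absurd hw (h.not_crit_BB hb hwB)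
    · right; left; exact ⟨w, hwZ, hw⟩

lemma Setup.miss_count (h : Setup H A B Z n) {X Y : Finset V} (hX : X ⊆ A) (hY : Y ⊆ B) :
    cnt (fun x b => (∃ w ∈ B, Crit H x b w) ∨ (∃ w ∈ A, Crit H b x w)) X Y ≤
      cnt (fun x y => ¬ H.Adj x y) A B := by
  classical
  apply cnt_le_of_surj (fun p => if mid H p.1 p.2 ∈ B then (p.1, mid H p.1 p.2)
    else (mid H p.1 p.2, p.2))
  intro x hx b hb hxb
  rcases hxb with ⟨w, hw, hc⟩ | ⟨w, hw, hc⟩
  · refine ⟨x, hX hx, w, hw, hc.2.1, ?_⟩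
    simp only [mid_eq hc]
    rw [if_pos (hY hb)]
  · refine ⟨w, hw, b, hY hb, fun h' => hc.2.1 h'.symm, ?_⟩
    simp only [mid_eq hc.symm]
    rw [if_neg (Finset.disjoint_left.1 h.dAB (hX hx))]

lemma cnt_crit_Z_left (X Y : Finset V) :
    cnt (fun x b => ∃ w ∈ Z, Crit H x b w) X Y ≤ X.card * Z.card := by
  refine le_trans (cnt_le_of_surj (s := fun _ _ => True) (X' := X) (Y' := Z)
    (fun p => (p.1, mid H p.1 p.2)) ?_) (cnt_le_mul _ _ _)
  rintro x hx b hb ⟨w, hw, hc⟩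
  exact ⟨x, hx, w, hw, trivial, by simp [mid_eq hc]⟩

lemma cnt_crit_Z_right (X Y : Finset V) :
    cnt (fun x b => ∃ w ∈ Z, Crit H b x w) X Y ≤ Y.card * Z.card := by
  rw [cnt_swap]
  exact cnt_crit_Z_left (H := H) (Z := Z) Y X

lemma Setup.card_add (h : Setup H A B Z n) : A.card + B.card + Z.card = Fintype.card V := by
  classical
  rw [← card_union_of_disjoint h.dAB, ← card_union_of_disjoint
    (disjoint_union_left.2 ⟨h.dAZ, h.dBZ⟩), ← card_univ]
  congr 1
  ext v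
  simp only [mem_union, mem_univ, iff_true]
  rcases h.cover v with h | h | h <;> tauto

lemma Setup.card_add' (h : Setup H A B Z n) : (A.card : ℝ) + B.card + Z.card = n := by
  rw [h.hn]; exact_mod_cast h.card_add

lemma Setup.edge_count (h : Setup H A B Z n) :
    cnt H.Adj univ univ + cnt H.Adj Z Z =
      cnt H.Adj A A + cnt H.Adj B B + 2 * cnt H.Adj A B + 2 * cnt H.Adj Z univ := by
  classical
  have hd1 := h.dAB
  have hd2 : Disjoint (A ∪ B) Z := disjoint_union_left.2 ⟨h.dAZ, h.dBZ⟩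
  have hun : (A ∪ B) ∪ Z = univ := by
    ext v
    simp only [mem_union, mem_univ, iff_true]
    rcases h.cover v with h | h | h <;> tauto
  have h1 : cnt H.Adj univ univ = cnt H.Adj (A ∪ B) univ + cnt H.Adj Z univ := by
    conv_lhs => rw [← hun]
    rw [cnt_union_left _ _ hd2, hun]
  have h2 : cnt H.Adj (A ∪ B) univ = cnt H.Adj (A ∪ B) (A ∪ B) + cnt H.Adj (A ∪ B) Z := by
    rw [← cnt_union_right _ _ hd2, hun]
  have h3 : cnt H.Adj Z univ = cnt H.Adj Z (A ∪ B) + cnt H.Adj Z Z := by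
    rw [← cnt_union_right _ _ hd2, hun]
  have h4 : cnt H.Adj (A ∪ B) Z = cnt H.Adj Z (A ∪ B) := cnt_symm (fun _ _ h => h.symm) _ _
  have h5 : cnt H.Adj (A ∪ B) (A ∪ B) = cnt H.Adj A A + cnt H.Adj A B +
      (cnt H.Adj B A + cnt H.Adj B B) := by
    rw [cnt_union_left _ _ hd1, cnt_union_right _ _ hd1, cnt_union_right _ _ hd1]
  have h6 : cnt H.Adj B A = cnt H.Adj A B := cnt_symm (fun _ _ h => h.symm) _ _
  omega

lemma Setup.inner_le (h : Setup H A B Z n) :
    (cnt H.Adj A A : ℝ) * 0.35 ≤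
      (cnt (fun x y => H.Adj x y ∧ ¬ Free H x y) A B : ℝ) / 10 ^ 5 := by
  classical
  have hnpos := h.npos
  set J := A.filter (fun x => ∃ y ∈ A, H.Adj x y) with hJ
  have h1 : (cnt H.Adj A A : ℝ) ≤ J.card * (n / 10 ^ 5) := by
    have h2 : cnt H.Adj A A ≤ cnt H.Adj J A := by
      apply cnt_mono
      intro x hx y hy hxy
      exact ⟨mem_filter.2 ⟨hx, y, hy, hxy⟩, hy, hxy⟩
    have h3 : (cnt H.Adj J A : ℝ) ≤ J.card * (n / 10 ^ 5) := by
      apply cnt_le_of_left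
      intro x hx
      exact h.ownA x (mem_filter.1 hx).1
    have h4 : (cnt H.Adj A A : ℝ) ≤ cnt H.Adj J A := by exact_mod_cast h2
    linarith
  have h2 : (J.card : ℝ) * (0.35 * n) ≤
      (cnt (fun x y => H.Adj x y ∧ ¬ Free H x y) A B : ℝ) := by
    refine markov (X' := J) (filter_subset _ _) ?_
    intro x hx
    obtain ⟨hxA, y, hyA, hxy⟩ := mem_filter.1 hx
    have h5 := h.comA x hxA y hyA hxy.ne
    have h6 : dg (fun u z => H.Adj u z ∧ H.Adj y z) x B ≤
        dg (fun x y => H.Adj x y ∧ ¬ Free H x y) x B := by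
      apply dg_mono
      intro z hz hzz
      exact ⟨hz, hzz.1, fun hf => hf y ⟨hxy, hzz.2.symm⟩⟩
    have h7 : (dg (fun u z => H.Adj u z ∧ H.Adj y z) x B : ℝ) ≤
        dg (fun x y => H.Adj x y ∧ ¬ Free H x y) x B := by exact_mod_cast h6
    linarith
  have h3 : (cnt H.Adj A A : ℝ) * 0.35 ≤ (J.card * (n / 10 ^ 5)) * 0.35 :=
    mul_le_mul_of_nonneg_right h1 (by norm_num)
  have h4 : (J.card * (n / 10 ^ 5)) * 0.35 = ((J.card : ℝ) * (0.35 * n)) / 10 ^ 5 := by ring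
  rw [h4] at h3
  have h5 : ((J.card : ℝ) * (0.35 * n)) / 10 ^ 5 ≤
      (cnt (fun x y => H.Adj x y ∧ ¬ Free H x y) A B : ℝ) / 10 ^ 5 :=
    div_le_div_of_nonneg_right h2 (by positivity)
  linarith

lemma Setup.nonfree_le (h : Setup H A B Z n) :
    cnt (fun x y => H.Adj x y ∧ ¬ Free H x y) A B ≤
      A.card * Z.card + B.card * Z.card + cnt (fun x y => ¬ H.Adj x y) A B := by
  have h1 : cnt (fun x y => H.Adj x y ∧ ¬ Free H x y) A B ≤
      cnt (fun x b => ∃ w ∈ Z, Crit H x b w) A B +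
      cnt (fun x b => (∃ w ∈ Z, Crit H b x w) ∨
        ((∃ w ∈ B, Crit H x b w) ∨ (∃ w ∈ A, Crit H b x w))) A B := by
    apply cnt_le_add
    intro x hx b hb hxb
    exact h.serve hx hb hxb.1 hxb.2
  have h2 : cnt (fun x b => (∃ w ∈ Z, Crit H b x w) ∨
        ((∃ w ∈ B, Crit H x b w) ∨ (∃ w ∈ A, Crit H b x w))) A B ≤
      cnt (fun x b => ∃ w ∈ Z, Crit H b x w) A B +
      cnt (fun x b => (∃ w ∈ B, Crit H x b w) ∨ (∃ w ∈ A, Crit H b x w)) A B :=
    cnt_le_add (by intro x _ b _ hxb; exact hxb)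
  have h3 := cnt_crit_Z_left (H := H) (Z := Z) A B
  have h4 := cnt_crit_Z_right (H := H) (Z := Z) A B
  have h5 := h.miss_count (subset_refl A) (subset_refl B)
  omega

/-- main numerical information: the number of low degree vertices is at most ten -/
lemma Setup.bounds (h : Setup H A B Z n) :
    Z.card ≤ 10 ∧ (cnt (fun x y => ¬ H.Adj x y) A B : ℝ) ≤ 0.51 * n ∧
    ((Z.card : ℝ) * n / 2 - cnt H.Adj Z univ) + (cnt (fun x y => ¬ H.Adj x y) A B : ℝ) ≤
      0.501 * n := by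
  have hnpos := h.npos
  have hbig := h.hbig
  have e8 : (10 : ℝ) ^ 8 = 100000000 := by norm_num
  set M : ℝ := (cnt (fun x y => ¬ H.Adj x y) A B : ℝ) with hM
  set K : ℝ := (Z.card : ℝ) with hK
  set T : ℝ := (cnt (fun x y => H.Adj x y ∧ ¬ Free H x y) A B : ℝ) with hT
  have hM0 : 0 ≤ M := by rw [hM]; positivity
  have hK0 : 0 ≤ K := by rw [hK]; positivity
  have h1 := h.inner_le
  rw [← hT] at h1
  have h2 : (cnt H.Adj B B : ℝ) * 0.35 ≤ T / 10 ^ 5 := by
    have h3 := h.swap.inner_le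
    have h4 : cnt (fun x y => H.Adj x y ∧ ¬ Free H x y) B A =
        cnt (fun x y => H.Adj x y ∧ ¬ Free H x y) A B :=
      cnt_symm (fun x y hxy => ⟨hxy.1.symm, fun hf => hxy.2 hf.symm⟩) _ _
    rw [h4] at h3
    exact h3
  have hT1 : T ≤ K * n + M := by
    have h3 := h.nonfree_le
    have h4 : T ≤ A.card * K + B.card * K + M := by
      rw [hT, hK, hM]; exact_mod_cast h3
    have h5 := h.card_add'
    rw [← hK] at h5
    have h6 : (A.card : ℝ) * K + B.card * K ≤ K * n := by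
      have h7 : (A.card : ℝ) + B.card ≤ n := by linarith
      nlinarith
    linarith
  set I : ℝ := (cnt H.Adj A A : ℝ) + cnt H.Adj B B with hI
  have hI1 : I ≤ 6 * (K * n + M) / 10 ^ 5 := by
    have h3 : I * 0.35 ≤ 2 * T / 10 ^ 5 := by rw [hI]; linarith
    have h4 : I * 0.35 ≤ 2 * (K * n + M) / 10 ^ 5 := by linarith
    have h5 : 0 ≤ K * n + M := by positivity
    linarith
  have hcount := h.edge_count
  have hcount' : (cnt H.Adj univ univ : ℝ) + cnt H.Adj Z Z =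
      cnt H.Adj A A + cnt H.Adj B B + 2 * cnt H.Adj A B + 2 * cnt H.Adj Z univ := by
    exact_mod_cast hcount
  have hcompl : (cnt H.Adj A B : ℝ) + M = A.card * B.card := by
    rw [hM]; exact_mod_cast cnt_compl H.Adj A B
  have hcards := h.card_add'
  rw [← hK] at hcards
  have hAB : 2 * ((A.card : ℝ) * B.card) ≤ (n - K) ^ 2 / 2 := by
    have h3 : (A.card : ℝ) + B.card = n - K := by linarith
    rw [← h3]
    nlinarith [sq_nonneg ((A.card : ℝ) - B.card)]
  have hedges := h.edges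
  have hZZ : (0 : ℝ) ≤ cnt H.Adj Z Z := by positivity
  set DZ : ℝ := (cnt H.Adj Z univ : ℝ) with hDZ
  have hmain : 2 * (K * n / 2 - DZ) + 2 * M ≤ n + K ^ 2 / 2 + I := by
    have h3 : (n - K) ^ 2 / 2 = n ^ 2 / 2 - n * K + K ^ 2 / 2 := by ring
    linarith
  have hDZ1 : DZ ≤ K * (0.45 * n) := by
    rw [hDZ, hK]
    exact cnt_le_of_left fun w hw => h.degZ w hw
  have hKsmall := h.smallZ
  rw [← hK] at hKsmall
  have hKK : K ^ 2 ≤ K * (n / 10 ^ 4) := by nlinarith
  have hK10 : K ≤ 10.1 := by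
    have h3 : K * n * 0.0998 ≤ n := by nlinarith
    have h4 : n * (K * 0.0998) ≤ n * 1 := by linarith
    have h5 : K * 0.0998 ≤ 1 := le_of_mul_le_mul_left h4 hnpos
    linarith
  have hKnat : Z.card ≤ 10 := by
    by_contra hcon
    push Not at hcon
    have : (11 : ℝ) ≤ K := by rw [hK]; exact_mod_cast hcon
    linarith
  have hK10' : K ≤ 10 := by rw [hK]; exact_mod_cast hKnat
  have hKn : K * n ≤ 10 * n := mul_le_mul_of_nonneg_right hK10' hnpos.le
  have hK2 : K ^ 2 ≤ 100 := by nlinarith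
  have hL0 : 0 ≤ K * n / 2 - DZ := by nlinarith
  have hM1 : M ≤ 0.51 * n := by linarith
  refine ⟨hKnat, hM1, ?_⟩
  linarith

end Pool.Agent.H46
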