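import Mathlib

set_option autoImplicit false

open Finset

namespace Pool.Agent.H46

section cnt

variable {V : Type}

open Classical in
/-- number of pairs in `X × Y` related by `r` -/
noncomputable def cnt (r : V → V → Prop) (X Y : Finset V) : ℕ :=
  ((X ×ˢ Y).filter (fun p : V × V => r p.1 p.2)).card

open Classical in
/-- number of `y ∈ Y` with `r x y` -/
noncomputable def dg (r : V → V → Prop) (x : V) (Y : Finset V) : ℕ :=
  (Y.filter (fun y => r x y)).card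

lemma dg_eq_card_filter (r : V → V → Prop) (x : V) (Y : Finset V) [DecidablePred (r x)] :
    dg r x Y = (Y.filter (fun y => r x y)).card := by
  unfold dg; congr!

lemma dg_mono {r r' : V → V → Prop} {x x' : V} {Y Y' : Finset V}
    (h : ∀ y ∈ Y, r x y → y ∈ Y' ∧ r' x' y) : dg r x Y ≤ dg r' x' Y' := by
  classical
  unfold dg
  apply card_le_card
  intro y hy
  rw [mem_filter] at hy ⊢
  exact h y hy.1 hy.2

lemma dg_congr {r r' : V → V → Prop} {x x' : V} {Y : Finset V}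
    (h : ∀ y ∈ Y, (r x y ↔ r' x' y)) : dg r x Y = dg r' x' Y :=
  le_antisymm (dg_mono fun y hy hr => ⟨hy, (h y hy).1 hr⟩)
    (dg_mono fun y hy hr => ⟨hy, (h y hy).2 hr⟩)

lemma dg_compl (r : V → V → Prop) (x : V) (Y : Finset V) :
    dg r x Y + dg (fun x y => ¬ r x y) x Y = Y.card := by
  classical
  have := card_filter_add_card_filter_not (s := Y) (fun y => r x y)
  unfold dg
  rw [← this]
  congr!

lemma dg_le_card (r : V → V → Prop) (x : V) (Y : Finset V) : dg r x Y ≤ Y.card := by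
  have := dg_compl r x Y
  omega

lemma dg_le_add {r s t : V → V → Prop} {x x1 x2 : V} {Y : Finset V}
    (h : ∀ y ∈ Y, r x y → s x1 y ∨ t x2 y) : dg r x Y ≤ dg s x1 Y + dg t x2 Y := by
  classical
  unfold dg
  refine le_trans (card_le_card ?_) (card_union_le _ _)
  intro y hy
  simp only [mem_filter, mem_union] at hy ⊢
  rcases h y hy.1 hy.2 with h1 | h1
  · left; exact ⟨hy.1, h1⟩
  · right; exact ⟨hy.1, h1⟩

lemma card_le_dg_add {s t : V → V → Prop} {x1 x2 : V} {Y : Finset V}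
    (h : ∀ y ∈ Y, s x1 y ∨ t x2 y) : Y.card ≤ dg s x1 Y + dg t x2 Y := by
  have h1 : dg (fun _ _ => True) x1 Y = Y.card := by
    have := dg_compl (fun _ _ => True) x1 Y
    have h2 : dg (fun (x y : V) => ¬ True) x1 Y = 0 := by
      unfold dg; simp
    omega
  rw [← h1]
  exact dg_le_add fun y hy _ => h y hy

lemma dg_union [DecidableEq V] (r : V → V → Prop) (x : V) {Y Y' : Finset V}
    (h : Disjoint Y Y') : dg r x (Y ∪ Y') = dg r x Y + dg r x Y' := by
  classical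
  unfold dg
  rw [filter_union, card_union_of_disjoint (disjoint_filter_filter h)]

lemma dg_pos {r : V → V → Prop} {x y : V} {Y : Finset V} (hy : y ∈ Y) (h : r x y) :
    0 < dg r x Y := by
  classical
  unfold dg
  rw [card_pos]
  exact ⟨y, mem_filter.2 ⟨hy, h⟩⟩

lemma exists_of_dg_pos {r : V → V → Prop} {x : V} {Y : Finset V} (h : 0 < dg r x Y) :
    ∃ y ∈ Y, r x y := by
  classical
  unfold dg at h
  rw [card_pos] at h
  obtain ⟨y, hy⟩ := h
  exact ⟨y, (mem_filter.1 hy).1, (mem_filter.1 hy).2⟩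

lemma dg_eq_zero {r : V → V → Prop} {x : V} {Y : Finset V} (h : ∀ y ∈ Y, ¬ r x y) :
    dg r x Y = 0 := by
  by_contra hcon
  obtain ⟨y, hy, hr⟩ := exists_of_dg_pos (Nat.pos_of_ne_zero hcon)
  exact h y hy hr

/-- two distinct witnesses -/
lemma two_le_dg {r : V → V → Prop} {x y y' : V} {Y : Finset V} (hy : y ∈ Y) (hy' : y' ∈ Y)
    (hne : y ≠ y') (h : r x y) (h' : r x y') : 2 ≤ dg r x Y := by
  classical
  unfold dg
  apply Nat.succ_le_of_lt
  rw [one_lt_card]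
  exact ⟨y, mem_filter.2 ⟨hy, h⟩, y', mem_filter.2 ⟨hy', h'⟩, hne⟩

lemma exists_two_of_dg {r : V → V → Prop} {x : V} {Y : Finset V} (h : 2 ≤ dg r x Y) :
    ∃ y ∈ Y, ∃ y' ∈ Y, y ≠ y' ∧ r x y ∧ r x y' := by
  classical
  unfold dg at h
  obtain ⟨y, hy, y', hy', hne⟩ := one_lt_card.1 (Nat.lt_of_succ_le h)
  rw [mem_filter] at hy hy'
  exact ⟨y, hy.1, y', hy'.1, hne, hy.2, hy'.2⟩

lemma cnt_eq_sum_left (r : V → V → Prop) (X Y : Finset V) :
    cnt r X Y = ∑ x ∈ X, dg r x Y := by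
  classical
  unfold cnt dg
  simp only [card_filter]
  rw [sum_product]

lemma cnt_eq_sum_right (r : V → V → Prop) (X Y : Finset V) :
    cnt r X Y = ∑ y ∈ Y, dg (fun y x => r x y) y X := by
  classical
  unfold cnt dg
  simp only [card_filter]
  rw [sum_product, sum_comm]

lemma cnt_mono {r r' : V → V → Prop} {X Y X' Y' : Finset V}
    (h : ∀ x ∈ X, ∀ y ∈ Y, r x y → x ∈ X' ∧ y ∈ Y' ∧ r' x y) : cnt r X Y ≤ cnt r' X' Y' := by
  classical
  unfold cnt
  apply card_le_card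
  rintro ⟨x, y⟩ hp
  simp only [mem_filter, mem_product] at hp ⊢
  obtain ⟨h1, h2, h3⟩ := h x hp.1.1 y hp.1.2 hp.2
  exact ⟨⟨h1, h2⟩, h3⟩

lemma cnt_congr {r r' : V → V → Prop} {X Y : Finset V}
    (h : ∀ x ∈ X, ∀ y ∈ Y, (r x y ↔ r' x y)) : cnt r X Y = cnt r' X Y :=
  le_antisymm (cnt_mono fun x hx y hy hr => ⟨hx, hy, (h x hx y hy).1 hr⟩)
    (cnt_mono fun x hx y hy hr => ⟨hx, hy, (h x hx y hy).2 hr⟩)

lemma cnt_compl (r : V → V → Prop) (X Y : Finset V) :
    cnt r X Y + cnt (fun x y => ¬ r x y) X Y = X.card * Y.card := by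
  classical
  have := card_filter_add_card_filter_not (s := X ×ˢ Y) (fun p : V × V => r p.1 p.2)
  unfold cnt
  rw [← card_product, ← this]
  congr!

lemma cnt_split (r s : V → V → Prop) (X Y : Finset V) :
    cnt r X Y = cnt (fun x y => r x y ∧ s x y) X Y + cnt (fun x y => r x y ∧ ¬ s x y) X Y := by
  classical
  have h := card_filter_add_card_filter_not
    (s := (X ×ˢ Y).filter (fun p : V × V => r p.1 p.2)) (fun p : V × V => s p.1 p.2)
  rw [filter_filter, filter_filter] at h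
  unfold cnt
  convert h.symm

lemma cnt_le_mul (r : V → V → Prop) (X Y : Finset V) : cnt r X Y ≤ X.card * Y.card := by
  have := cnt_compl r X Y
  omega

lemma cnt_le_add {r s t : V → V → Prop} {X Y : Finset V}
    (h : ∀ x ∈ X, ∀ y ∈ Y, r x y → s x y ∨ t x y) : cnt r X Y ≤ cnt s X Y + cnt t X Y := by
  classical
  unfold cnt
  refine le_trans (card_le_card ?_) (card_union_le _ _)
  rintro ⟨x, y⟩ hp
  simp only [mem_filter, mem_product, mem_union] at hp ⊢
  rcases h x hp.1.1 y hp.1.2 hp.2 with h1 | h1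
  · left; exact ⟨hp.1, h1⟩
  · right; exact ⟨hp.1, h1⟩

lemma cnt_swap (r : V → V → Prop) (X Y : Finset V) :
    cnt r X Y = cnt (fun x y => r y x) Y X := by
  rw [cnt_eq_sum_left, cnt_eq_sum_right]

lemma cnt_symm {r : V → V → Prop} (hr : ∀ x y, r x y → r y x) (X Y : Finset V) :
    cnt r X Y = cnt r Y X := by
  rw [cnt_swap]
  exact cnt_congr fun x _ y _ => ⟨hr _ _, hr _ _⟩

lemma cnt_union_left [DecidableEq V] (r : V → V → Prop) {X X' : Finset V} (Y : Finset V)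
    (h : Disjoint X X') : cnt r (X ∪ X') Y = cnt r X Y + cnt r X' Y := by
  classical
  rw [cnt_eq_sum_left, cnt_eq_sum_left, cnt_eq_sum_left]
  convert sum_union h

lemma cnt_union_right [DecidableEq V] (r : V → V → Prop) (X : Finset V) {Y Y' : Finset V}
    (h : Disjoint Y Y') : cnt r X (Y ∪ Y') = cnt r X Y + cnt r X Y' := by
  classical
  rw [cnt_eq_sum_right, cnt_eq_sum_right, cnt_eq_sum_right]
  convert sum_union h

lemma cnt_eq_zero {r : V → V → Prop} {X Y : Finset V} (h : ∀ x ∈ X, ∀ y ∈ Y, ¬ r x y) :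
    cnt r X Y = 0 := by
  classical
  unfold cnt
  rw [card_eq_zero, filter_eq_empty_iff]
  rintro ⟨x, y⟩ hp
  rw [mem_product] at hp
  exact h x hp.1 y hp.2

lemma cnt_eq_mul {r : V → V → Prop} {X Y : Finset V} (h : ∀ x ∈ X, ∀ y ∈ Y, r x y) :
    cnt r X Y = X.card * Y.card := by
  have h1 := cnt_compl r X Y
  have h2 : cnt (fun x y => ¬ r x y) X Y = 0 := cnt_eq_zero fun x hx y hy hn => hn (h x hx y hy)
  omega

lemma cnt_pos {r : V → V → Prop} {X Y : Finset V} {x y : V} (hx : x ∈ X) (hy : y ∈ Y)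
    (h : r x y) : 0 < cnt r X Y := by
  classical
  unfold cnt
  rw [card_pos]
  exact ⟨(x, y), mem_filter.2 ⟨mem_product.2 ⟨hx, hy⟩, h⟩⟩

lemma of_cnt_eq_zero {r : V → V → Prop} {X Y : Finset V} (h : cnt r X Y = 0) :
    ∀ x ∈ X, ∀ y ∈ Y, ¬ r x y := by
  intro x hx y hy hr
  have := cnt_pos hx hy hr
  omega

lemma of_cnt_eq_mul {r : V → V → Prop} {X Y : Finset V} (h : cnt r X Y = X.card * Y.card) :
    ∀ x ∈ X, ∀ y ∈ Y, r x y := by
  intro x hx y hy
  by_contra hcon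
  have h1 := cnt_compl r X Y
  have h2 : cnt (fun x y => ¬ r x y) X Y = 0 := by omega
  exact of_cnt_eq_zero h2 x hx y hy hcon

lemma cnt_le_of_left {r : V → V → Prop} {X Y : Finset V} {t : ℝ}
    (h : ∀ x ∈ X, (dg r x Y : ℝ) ≤ t) :
    (cnt r X Y : ℝ) ≤ X.card * t := by
  rw [cnt_eq_sum_left]
  push_cast
  calc _ ≤ ∑ x ∈ X, t := sum_le_sum h
    _ = _ := by simp

lemma le_cnt_of_left {r : V → V → Prop} {X Y : Finset V} {t : ℝ}
    (h : ∀ x ∈ X, t ≤ (dg r x Y : ℝ)) :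
    X.card * t ≤ (cnt r X Y : ℝ) := by
  rw [cnt_eq_sum_left]
  push_cast
  calc _ = ∑ x ∈ X, t := by simp
    _ ≤ _ := sum_le_sum h

lemma cnt_le_of_right {r : V → V → Prop} {X Y : Finset V} {t : ℝ}
    (h : ∀ y ∈ Y, (dg (fun y x => r x y) y X : ℝ) ≤ t) :
    (cnt r X Y : ℝ) ≤ Y.card * t := by
  rw [cnt_swap]; exact cnt_le_of_left h

lemma le_cnt_of_right {r : V → V → Prop} {X Y : Finset V} {t : ℝ}
    (h : ∀ y ∈ Y, t ≤ (dg (fun y x => r x y) y X : ℝ)) :
    Y.card * t ≤ (cnt r X Y : ℝ) := by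
  rw [cnt_swap]; exact le_cnt_of_left h

/-- Markov -/
lemma markov {r : V → V → Prop} {X X' Y : Finset V} {t : ℝ} (hX : X' ⊆ X)
    (h : ∀ x ∈ X', t ≤ (dg r x Y : ℝ)) : (X'.card : ℝ) * t ≤ cnt r X Y := by
  have h1 : (X'.card : ℝ) * t ≤ cnt r X' Y := le_cnt_of_left h
  have h2 : cnt r X' Y ≤ cnt r X Y := cnt_mono fun x hx y hy hr => ⟨hX hx, hy, hr⟩
  have h3 : (cnt r X' Y : ℝ) ≤ cnt r X Y := by exact_mod_cast h2
  linarith

/-- bounding a count by the count of a set mapping onto it -/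
lemma cnt_le_of_surj {r s : V → V → Prop} {X Y X' Y' : Finset V} (f : V × V → V × V)
    (h : ∀ x ∈ X, ∀ y ∈ Y, r x y → ∃ a ∈ X', ∃ b ∈ Y', s a b ∧ f (a, b) = (x, y)) :
    cnt r X Y ≤ cnt s X' Y' := by
  classical
  unfold cnt
  refine le_trans (card_le_card ?_) (card_image_le (f := f))
  rintro ⟨x, y⟩ hp
  simp only [mem_filter, mem_product, mem_image] at hp ⊢
  obtain ⟨a, ha, b, hb, h1, h2⟩ := h x hp.1.1 y hp.1.2 hp.2
  exact ⟨(a, b), ⟨⟨ha, hb⟩, h1⟩, h2⟩

end cnt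

end Pool.Agent.H46
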