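import Pool.Agent.H46.Basic
import Pool.Agent.H46.Cnt

set_option autoImplicit false

open Finset

namespace Pool.Agent.H46

section core

variable {V : Type}

open Classical in
/-- the middle vertex of a critical pair -/
noncomputable def mid (H : SimpleGraph V) (u w : V) : V :=
  if h : ∃ v, Crit H u v w then h.choose else u

lemma mid_eq {H : SimpleGraph V} {u v w : V} (h : Crit H u v w) : mid H u w = v := by
  have h' : ∃ v, Crit H u v w := ⟨v, h⟩
  unfold mid
  rw [dif_pos h']
  exact h'.choose_spec.unique h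

/-- the edge `uv` is covered at `v` -/
def Cov (H : SimpleGraph V) (u v : V) : Prop := ∃ w, Crit H u v w

variable [Fintype V]

open Classical in
/-- a near clique cannot exist if almost all pairs leaving it are critical and few edges inside
are covered at both ends -/
theorem core (H : SimpleGraph V) (hC : CritHyp H) (C B : Finset V) (hCB : C ⊆ B)
    (hne : C.Nonempty)
    (h1 : (cnt (fun u w => ¬ H.Adj u w) C B : ℝ) ≤ (1 / 10000) * (C.card : ℝ) ^ 2)
    (h2 : (cnt (fun u w => ¬ ∃ v, Crit H u v w) C Bᶜ : ℝ) ≤ (1 / 10000) * (C.card : ℝ) ^ 2)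
    (h3 : (cnt (fun u v => Cov H u v ∧ Cov H v u) C C : ℝ) ≤ (1 / 10000) * (C.card : ℝ) ^ 2) :
    False := by
  set c : ℝ := (C.card : ℝ) with hc
  have hcpos : 0 < c := by rw [hc]; exact_mod_cast hne.card_pos
  -- non-adjacent pairs inside C
  have h1' : (cnt (fun u w => ¬ H.Adj u w) C C : ℝ) ≤ (1 / 10000) * c ^ 2 := by
    have : cnt (fun u w => ¬ H.Adj u w) C C ≤ cnt (fun u w => ¬ H.Adj u w) C B :=
      cnt_mono fun x hx y hy hr => ⟨hx, hCB hy, hr⟩
    have : (cnt (fun u w => ¬ H.Adj u w) C C : ℝ) ≤ cnt (fun u w => ¬ H.Adj u w) C B := by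
      exact_mod_cast this
    linarith
  -- atypical
  set atyp := C.filter (fun v => c / 100 < (dg (fun u w => ¬ H.Adj u w) v C : ℝ))
    with hatyp
  have hat : (atyp.card : ℝ) ≤ c / 100 := by
    have := markov (r := fun u w => ¬ H.Adj u w) (X := C) (X' := atyp) (Y := C) (t := c / 100)
      (filter_subset _ _) (fun x hx => (mem_filter.1 hx).2.le)
    have h4 : (atyp.card : ℝ) * (c / 100) ≤ (1 / 10000) * c ^ 2 := le_trans this h1'
    have h5 : (atyp.card : ℝ) * (c / 100) ≤ (c / 100) * (c / 100) := by nlinarith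
    exact le_of_mul_le_mul_right h5 (by positivity)
  -- bad
  set bad := Bᶜ.filter (fun w => c / 100 < (dg (fun w u => ¬ ∃ v, Crit H u v w) w C : ℝ))
    with hbad
  have hb : (bad.card : ℝ) ≤ c / 100 := by
    have := markov (r := fun w u => ¬ ∃ v, Crit H u v w) (X := Bᶜ) (X' := bad) (Y := C)
      (t := c / 100) (filter_subset _ _) (fun x hx => (mem_filter.1 hx).2.le)
    rw [cnt_swap] at this
    have h4 : (bad.card : ℝ) * (c / 100) ≤ (1 / 10000) * c ^ 2 := le_trans this h2
    have h5 : (bad.card : ℝ) * (c / 100) ≤ (c / 100) * (c / 100) := by nlinarith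
    exact le_of_mul_le_mul_right h5 (by positivity)
  set C1 := C.filter (fun v => v ∉ atyp ∧ ∃ w ∈ Bᶜ, w ∉ bad ∧ H.Adj v w) with hC1
  have hC1C : C1 ⊆ C := filter_subset _ _
  set k : ℝ := (C1.card : ℝ) with hk
  have hk0 : 0 ≤ k := by positivity
  -- for v in C1 almost all u are covered at v
  have hC1cov : ∀ v ∈ C1, (dg (fun v u => ¬ Cov H u v) v C : ℝ) ≤ c / 50 := by
    intro v hv
    rw [hC1, mem_filter] at hv
    obtain ⟨hvC, hva, w, hwB, hwb, hvw⟩ := hv
    have ha : (dg (fun u w => ¬ H.Adj u w) v C : ℝ) ≤ c / 100 := by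
      by_contra hcon
      push Not at hcon
      exact hva (mem_filter.2 ⟨hvC, hcon⟩)
    have hb' : (dg (fun w u => ¬ ∃ v, Crit H u v w) w C : ℝ) ≤ c / 100 := by
      by_contra hcon
      rw [not_le] at hcon
      exact hwb (mem_filter.2 ⟨hwB, hcon⟩)
    have hsub : dg (fun v u => ¬ Cov H u v) v C ≤
        dg (fun u w => ¬ H.Adj u w) v C + dg (fun w u => ¬ ∃ v, Crit H u v w) w C := by
      apply dg_le_add
      intro u hu hr
      by_contra hcon
      push Not at hcon
      have a1 := hcon.1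
      obtain ⟨v', hv'⟩ := hcon.2
      have : v = v' := hv'.eq_of a1.symm hvw.symm
      subst this
      exact hr ⟨w, hv'⟩
    have h7 : (dg (fun v u => ¬ Cov H u v) v C : ℝ) ≤
        dg (fun u w => ¬ H.Adj u w) v C + dg (fun w u => ¬ ∃ v, Crit H u v w) w C := by
      exact_mod_cast hsub
    linarith
  have hkk : k * k ≤ (1 / 10000) * c ^ 2 + 2 * (k * (c / 50)) := by
    have e1 : cnt (fun _ _ => True) C1 C1 = C1.card * C1.card := cnt_eq_mul (by simp)
    have e2 : cnt (fun _ _ => True) C1 C1 ≤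
        cnt (fun u v => Cov H u v ∧ Cov H v u) C1 C1 +
        cnt (fun u v => ¬ Cov H u v ∨ ¬ Cov H v u) C1 C1 :=
      cnt_le_add (by intro x _ y _ _; tauto)
    have e3 : cnt (fun u v => ¬ Cov H u v ∨ ¬ Cov H v u) C1 C1 ≤
        cnt (fun u v => ¬ Cov H u v) C1 C1 + cnt (fun u v => ¬ Cov H v u) C1 C1 :=
      cnt_le_add (by intro x _ y _ h; exact h)
    have e4 : cnt (fun u v => ¬ Cov H v u) C1 C1 = cnt (fun u v => ¬ Cov H u v) C1 C1 := by
      rw [cnt_swap]
    have e5 : cnt (fun u v => Cov H u v ∧ Cov H v u) C1 C1 ≤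
        cnt (fun u v => Cov H u v ∧ Cov H v u) C C :=
      cnt_mono fun x hx y hy hr => ⟨hC1C hx, hC1C hy, hr⟩
    have e6 : (cnt (fun u v => ¬ Cov H u v) C1 C1 : ℝ) ≤ k * (c / 50) := by
      have e7 : (cnt (fun u v => ¬ Cov H u v) C C1 : ℝ) ≤ k * (c / 50) :=
        cnt_le_of_right hC1cov
      have e8 : cnt (fun u v => ¬ Cov H u v) C1 C1 ≤ cnt (fun u v => ¬ Cov H u v) C C1 :=
        cnt_mono fun x hx y hy hr => ⟨hC1C hx, hy, hr⟩
      have : (cnt (fun u v => ¬ Cov H u v) C1 C1 : ℝ) ≤ cnt (fun u v => ¬ Cov H u v) C C1 := by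
        exact_mod_cast e8
      linarith
    have e9 : C1.card * C1.card ≤ cnt (fun u v => Cov H u v ∧ Cov H v u) C C +
      2 * cnt (fun u v => ¬ Cov H u v) C1 C1 := by omega
    have e10 : k * k ≤ (cnt (fun u v => Cov H u v ∧ Cov H v u) C C : ℝ) +
      2 * cnt (fun u v => ¬ Cov H u v) C1 C1 := by rw [hk]; exact_mod_cast e9
    linarith
  -- covered pairs in C x C
  have hcov : (cnt (Cov H) C C : ℝ) ≤ c * k + c * (c / 100) + (1 / 10000) * c ^ 2 +
      c * (c / 100) := by
    have e1 : cnt (Cov H) C C ≤ cnt (Cov H) C C1 +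
        (cnt (fun _ _ => True) C atyp + (cnt (fun u w => ¬ H.Adj u w) C B +
          cnt (fun _ _ => True) C bad)) := by
      have f1 : cnt (Cov H) C C ≤ cnt (fun u v => Cov H u v ∧ v ∈ C1) C C +
          cnt (fun u v => Cov H u v ∧ v ∉ C1) C C :=
        cnt_le_add (by intro x _ y _ h; tauto)
      have f2 : cnt (fun u v => Cov H u v ∧ v ∈ C1) C C ≤ cnt (Cov H) C C1 :=
        cnt_mono fun x hx y hy hr => ⟨hx, hr.2, hr.1⟩
      have f3 : cnt (fun u v => Cov H u v ∧ v ∉ C1) C C ≤
          cnt (fun u v => v ∈ atyp) C C +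
          cnt (fun u v => (∃ w ∈ B, Crit H u v w) ∨ (∃ w ∈ bad, Crit H u v w)) C C := by
        apply cnt_le_add
        intro x hx y hy h
        by_cases hya : y ∈ atyp
        · left; exact hya
        right
        obtain ⟨⟨w, hw⟩, hy1⟩ := h
        by_cases hwB : w ∈ B
        · left; exact ⟨w, hwB, hw⟩
        · right
          refine ⟨w, ?_, hw⟩
          by_contra hwb
          exact hy1 (mem_filter.2 ⟨hy, hya, w, by simpa using hwB, hwb, hw.adj₂.symm⟩)
      have f4 : cnt (fun u v => v ∈ atyp) C C ≤ cnt (fun _ _ => True) C atyp :=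
        cnt_mono fun x hx y hy hr => ⟨hx, hr, trivial⟩
      have f5 : cnt (fun u v => (∃ w ∈ B, Crit H u v w) ∨ (∃ w ∈ bad, Crit H u v w)) C C ≤
          cnt (fun u v => ∃ w ∈ B, Crit H u v w) C C +
          cnt (fun u v => ∃ w ∈ bad, Crit H u v w) C C :=
        cnt_le_add (by intro x _ y _ h; exact h)
      have f6 : cnt (fun u v => ∃ w ∈ B, Crit H u v w) C C ≤
          cnt (fun u w => ¬ H.Adj u w) C B := by
        apply cnt_le_of_surj (fun p => (p.1, mid H p.1 p.2))
        rintro x hx y hy ⟨w, hw, hcr⟩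
        exact ⟨x, hx, w, hw, hcr.2.1, by simp [mid_eq hcr]⟩
      have f7 : cnt (fun u v => ∃ w ∈ bad, Crit H u v w) C C ≤
          cnt (fun _ _ => True) C bad := by
        apply cnt_le_of_surj (fun p => (p.1, mid H p.1 p.2))
        rintro x hx y hy ⟨w, hw, hcr⟩
        exact ⟨x, hx, w, hw, trivial, by simp [mid_eq hcr]⟩
      omega
    have e2 : cnt (Cov H) C C1 ≤ C.card * C1.card := cnt_le_mul _ _ _
    have e3 : cnt (fun _ _ => True) C atyp ≤ C.card * atyp.card := cnt_le_mul _ _ _
    have e4 : cnt (fun _ _ => True) C bad ≤ C.card * bad.card := cnt_le_mul _ _ _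
    have e5 : cnt (Cov H) C C ≤ C.card * C1.card + C.card * atyp.card +
      cnt (fun u w => ¬ H.Adj u w) C B + C.card * bad.card := by omega
    have e6 : (cnt (Cov H) C C : ℝ) ≤ c * k + c * atyp.card +
      cnt (fun u w => ¬ H.Adj u w) C B + c * bad.card := by
      rw [hc, hk]; exact_mod_cast e5
    have e7 : c * (atyp.card : ℝ) ≤ c * (c / 100) := mul_le_mul_of_nonneg_left hat hcpos.le
    have e8 : c * (bad.card : ℝ) ≤ c * (c / 100) := mul_le_mul_of_nonneg_left hb hcpos.le
    linarith
  -- non-free adjacent pairs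
  have hlow : c ^ 2 ≤ 2 * (cnt (Cov H) C C : ℝ) + (1 / 10000) * c ^ 2 + 2 * (c * (c / 100)) := by
    have e1 : cnt (fun _ _ => True) C C = C.card * C.card := cnt_eq_mul (by simp)
    have e2 : cnt (fun _ _ => True) C C ≤
        cnt (fun u v => Cov H u v ∨ Cov H v u) C C +
        cnt (fun u v => ¬ H.Adj u v ∨ (u ∈ atyp ∨ v ∈ atyp)) C C := by
      apply cnt_le_add
      intro x hx y hy _
      by_cases hxy : H.Adj x y
      · by_cases hxa : x ∈ atyp
        · right; right; left; exact hxa
        by_cases hya : y ∈ atyp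
        · right; right; right; exact hya
        left
        rcases hC x y hxy with hf | hf | hf
        · exfalso
          have ax : (dg (fun u w => ¬ H.Adj u w) x C : ℝ) ≤ c / 100 := by
            by_contra hcon
            push Not at hcon
            exact hxa (mem_filter.2 ⟨hx, hcon⟩)
          have ay : (dg (fun u w => ¬ H.Adj u w) y C : ℝ) ≤ c / 100 := by
            by_contra hcon
            push Not at hcon
            exact hya (mem_filter.2 ⟨hy, hcon⟩)
          have a1 : C.card ≤ dg (fun u w => ¬ H.Adj u w) x C +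
              dg (fun u w => ¬ H.Adj u w) y C := by
            apply card_le_dg_add
            intro z hz
            by_contra hcon
            push Not at hcon
            exact hf z ⟨hcon.1, hcon.2⟩
          have a3 : c ≤ dg (fun u w => ¬ H.Adj u w) x C +
              dg (fun u w => ¬ H.Adj u w) y C := by
            rw [hc]; exact_mod_cast a1
          linarith
        · left; exact hf
        · right; exact hf
      · right; left; exact hxy
    have e3 : cnt (fun u v => Cov H u v ∨ Cov H v u) C C ≤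
        cnt (fun u v => Cov H u v) C C + cnt (fun u v => Cov H v u) C C :=
      cnt_le_add (by intro x _ y _ h; exact h)
    have e4 : cnt (fun u v => Cov H v u) C C = cnt (fun u v => Cov H u v) C C := by
      rw [cnt_swap]
    have e5 : cnt (fun u v => ¬ H.Adj u v ∨ (u ∈ atyp ∨ v ∈ atyp)) C C ≤
        cnt (fun u v => ¬ H.Adj u v) C C + cnt (fun u v => u ∈ atyp ∨ v ∈ atyp) C C :=
      cnt_le_add (by intro x _ y _ h; exact h)
    have e6 : cnt (fun u v => u ∈ atyp ∨ v ∈ atyp) C C ≤
        cnt (fun u _ => u ∈ atyp) C C + cnt (fun _ v => v ∈ atyp) C C :=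
      cnt_le_add (by intro x _ y _ h; exact h)
    have e7 : cnt (fun u _ => u ∈ atyp) C C = cnt (fun _ v => v ∈ atyp) C C := by
      rw [cnt_swap]
    have e8 : cnt (fun _ v => v ∈ atyp) C C ≤ C.card * atyp.card := by
      refine le_trans (cnt_mono (r' := fun _ _ => True) (X' := C) (Y' := atyp) ?_)
        (cnt_le_mul _ _ _)
      intro x hx y hy hr; exact ⟨hx, hr, trivial⟩
    have e9 : C.card * C.card ≤ 2 * cnt (Cov H) C C + cnt (fun u v => ¬ H.Adj u v) C C +
      2 * (C.card * atyp.card) := by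
      have : cnt (fun u v => Cov H u v) C C = cnt (Cov H) C C := rfl
      omega
    have e10 : c * c ≤ 2 * (cnt (Cov H) C C : ℝ) + cnt (fun u v => ¬ H.Adj u v) C C +
      2 * (c * atyp.card) := by
      rw [hc]; exact_mod_cast e9
    have e11 : c * (atyp.card : ℝ) ≤ c * (c / 100) := mul_le_mul_of_nonneg_left hat hcpos.le
    nlinarith
  have hkc : 0.46 * c ≤ k := by
    have : c * (0.46 * c) ≤ c * k := by nlinarith
    exact le_of_mul_le_mul_left this hcpos
  have e1 : 0.46 * c * k ≤ k * k := mul_le_mul_of_nonneg_right hkc hk0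
  have e2 : c * (0.42 * k) ≤ c * ((1 / 10000) * c) := by nlinarith
  have e3 : 0.42 * k ≤ (1 / 10000) * c := le_of_mul_le_mul_left e2 hcpos
  linarith

end core

end Pool.Agent.H46
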