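import Pool.Agent.H46.NoInner

set_option autoImplicit false
set_option maxHeartbeats 4000000

open Finset

namespace Pool.Agent.H46

/-- diameter at most two -/
def DiamHyp {V : Type} (H : SimpleGraph V) : Prop :=
  ∀ x y, x ≠ y → ¬ H.Adj x y → ∃ z, H.Adj x z ∧ H.Adj y z

/-- no dominating edge -/
def NoDom {V : Type} (H : SimpleGraph V) : Prop :=
  ∀ x y, H.Adj x y → ∃ z, z ≠ x ∧ z ≠ y ∧ ¬ H.Adj x z ∧ ¬ H.Adj y z

/-- the extremal shape : blow-up of a five-cycle `0 2 4 1 3` -/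
def Shape {V : Type} [Fintype V] (H : SimpleGraph V) : Prop :=
  ∃ f : V → Fin 5, (∀ x y, H.Adj x y ↔ (f y = f x + 2 ∨ f x = f y + 2)) ∧
    (univ.filter (fun x => f x = 0)).card = 1 ∧
    (univ.filter (fun x => f x = 2)).card = 1 ∧
    ((univ.filter (fun x => f x = 1)).card = (Fintype.card V - 3) / 2 ∨
      (univ.filter (fun x => f x = 1)).card = (Fintype.card V - 2) / 2) ∧
    1 ≤ (univ.filter (fun x => f x = 3)).card ∧
    1 ≤ (univ.filter (fun x => f x = 4)).card

lemma not_bip {V : Type} {H : SimpleGraph V} (hD : DiamHyp H) (hN : NoDom H) (f : V → Prop)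
    (hf : ∀ x y, H.Adj x y → (f x ↔ ¬ f y)) {u v : V} (huv : H.Adj u v) : False := by
  obtain ⟨z, hzu, hzv, hz1, hz2⟩ := hN u v huv
  have h1 := hf u v huv
  by_cases hzf : f z ↔ f u
  · -- z is opposite to v
    obtain ⟨y, hy1, hy2⟩ := hD v z hzv.symm hz2
    have h2 := hf v y hy1
    have h3 := hf z y hy2
    tauto
  · obtain ⟨y, hy1, hy2⟩ := hD u z hzu.symm hz1
    have h2 := hf u y hy1
    have h3 := hf z y hy2
    tauto

section shape

variable {V : Type} [Fintype V] {H : SimpleGraph V}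

open Classical in
lemma shape_of {p q : V} {X1 X3 X4 : Finset V} (hpq : H.Adj p q)
    (cover : ∀ v, v = p ∨ v = q ∨ v ∈ X1 ∨ v ∈ X3 ∨ v ∈ X4)
    (p1 : p ∉ X1) (p3 : p ∉ X3) (p4 : p ∉ X4) (q1 : q ∉ X1) (q3 : q ∉ X3) (q4 : q ∉ X4)
    (d13 : Disjoint X1 X3) (d14 : Disjoint X1 X4) (d34 : Disjoint X3 X4)
    (a24 : ∀ x ∈ X4, H.Adj q x) (a41 : ∀ x ∈ X4, ∀ y ∈ X1, H.Adj x y)
    (a13 : ∀ x ∈ X1, ∀ y ∈ X3, H.Adj x y) (a30 : ∀ x ∈ X3, H.Adj p x)
    (n04 : ∀ x ∈ X4, ¬ H.Adj p x) (n01 : ∀ x ∈ X1, ¬ H.Adj p x)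
    (n21 : ∀ x ∈ X1, ¬ H.Adj q x) (n23 : ∀ x ∈ X3, ¬ H.Adj q x)
    (n34 : ∀ x ∈ X3, ∀ y ∈ X4, ¬ H.Adj x y) (n11 : ∀ x ∈ X1, ∀ y ∈ X1, ¬ H.Adj x y)
    (n33 : ∀ x ∈ X3, ∀ y ∈ X3, ¬ H.Adj x y) (n44 : ∀ x ∈ X4, ∀ y ∈ X4, ¬ H.Adj x y)
    (c1 : X1.card = (Fintype.card V - 3) / 2 ∨ X1.card = (Fintype.card V - 2) / 2)
    (c3 : 1 ≤ X3.card) (c4 : 1 ≤ X4.card) : Shape H := by
  have hpq' : p ≠ q := hpq.ne
  set f : V → Fin 5 := fun v => if v = p then 0 else if v = q then 2 else
    if v ∈ X4 then 4 else if v ∈ X1 then 1 else 3 with hf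
  have fp : f p = 0 := by simp [hf]
  have fq : f q = 2 := by simp [hf, hpq'.symm]
  have f4 : ∀ v ∈ X4, f v = 4 := by
    intro v hv
    have h1 : v ≠ p := fun h => p4 (h ▸ hv)
    have h2 : v ≠ q := fun h => q4 (h ▸ hv)
    simp [hf, h1, h2, hv]
  have f1 : ∀ v ∈ X1, f v = 1 := by
    intro v hv
    have h1 : v ≠ p := fun h => p1 (h ▸ hv)
    have h2 : v ≠ q := fun h => q1 (h ▸ hv)
    have h3 : v ∉ X4 := Finset.disjoint_left.1 d14 hv
    simp [hf, h1, h2, hv, h3]
  have f3 : ∀ v ∈ X3, f v = 3 := by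
    intro v hv
    have h1 : v ≠ p := fun h => p3 (h ▸ hv)
    have h2 : v ≠ q := fun h => q3 (h ▸ hv)
    have h3 : v ∉ X4 := Finset.disjoint_left.1 d34 hv
    have h4 : v ∉ X1 := Finset.disjoint_right.1 d13 hv
    simp [hf, h1, h2, h3, h4]
  refine ⟨f, ?_, ?_, ?_, ?_, ?_, ?_⟩
  · intro x y
    have s : ∀ {a b : V}, H.Adj a b → H.Adj b a := fun h => h.symm
    rcases cover x with rfl | rfl | hx | hx | hx <;> rcases cover y with rfl | rfl | hy | hy | hy
    · rw [fp]; simp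
    · rw [fp, fq]; simp [hpq]
    · rw [fp, f1 y hy]; simp [n01 y hy]
    · rw [fp, f3 y hy]; simp [a30 y hy]
    · rw [fp, f4 y hy]; simp [n04 y hy]
    · rw [fp, fq]; simp [s hpq]
    · rw [fq]; simp
    · rw [fq, f1 y hy]; simp [n21 y hy]
    · rw [fq, f3 y hy]; simp [n23 y hy]
    · rw [fq, f4 y hy]; simp [a24 y hy]
    · rw [fp, f1 x hx]; simp [show ¬ H.Adj x y from fun h => n01 x hx (s h)]
    · rw [fq, f1 x hx]; simp [show ¬ H.Adj x y from fun h => n21 x hx (s h)]
    · rw [f1 x hx, f1 y hy]; simp [n11 x hx y hy]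
    · rw [f1 x hx, f3 y hy]; simp [a13 x hx y hy]
    · rw [f1 x hx, f4 y hy]; simp [s (a41 y hy x hx)]
    · rw [fp, f3 x hx]; simp [s (a30 x hx)]
    · rw [fq, f3 x hx]; simp [show ¬ H.Adj x y from fun h => n23 x hx (s h)]
    · rw [f3 x hx, f1 y hy]; simp [s (a13 y hy x hx)]
    · rw [f3 x hx, f3 y hy]; simp [n33 x hx y hy]
    · rw [f3 x hx, f4 y hy]; simp [n34 x hx y hy]
    · rw [fp, f4 x hx]; simp [show ¬ H.Adj x y from fun h => n04 x hx (s h)]
    · rw [fq, f4 x hx]; simp [s (a24 x hx)]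
    · rw [f4 x hx, f1 y hy]; simp [a41 x hx y hy]
    · rw [f4 x hx, f3 y hy]; simp [show ¬ H.Adj x y from fun h => n34 y hy x hx (s h)]
    · rw [f4 x hx, f4 y hy]; simp [n44 x hx y hy]
  · have : univ.filter (fun x => f x = 0) = {p} := by
      ext v
      simp only [mem_filter, mem_univ, true_and, mem_singleton]
      constructor
      · intro hv
        rcases cover v with h | h | h | h | h
        · exact h
        · rw [h, fq] at hv; exact absurd hv (by decide)
        · rw [f1 v h] at hv; exact absurd hv (by decide)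
        · rw [f3 v h] at hv; exact absurd hv (by decide)
        · rw [f4 v h] at hv; exact absurd hv (by decide)
      · rintro rfl; exact fp
    rw [this]; simp
  · have : univ.filter (fun x => f x = 2) = {q} := by
      ext v
      simp only [mem_filter, mem_univ, true_and, mem_singleton]
      constructor
      · intro hv
        rcases cover v with h | h | h | h | h
        · rw [h, fp] at hv; exact absurd hv (by decide)
        · exact h
        · rw [f1 v h] at hv; exact absurd hv (by decide)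
        · rw [f3 v h] at hv; exact absurd hv (by decide)
        · rw [f4 v h] at hv; exact absurd hv (by decide)
      · rintro rfl; exact fq
    rw [this]; simp
  · have : univ.filter (fun x => f x = 1) = X1 := by
      ext v
      simp only [mem_filter, mem_univ, true_and]
      constructor
      · intro hv
        rcases cover v with h | h | h | h | h
        · rw [h, fp] at hv; exact absurd hv (by decide)
        · rw [h, fq] at hv; exact absurd hv (by decide)
        · exact h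
        · rw [f3 v h] at hv; exact absurd hv (by decide)
        · rw [f4 v h] at hv; exact absurd hv (by decide)
      · exact f1 v
    rw [this]; exact c1
  · refine le_trans c3 (card_le_card ?_)
    intro v hv
    simp [f3 v hv]
  · refine le_trans c4 (card_le_card ?_)
    intro v hv
    simp [f4 v hv]

end shape

lemma mul_le_quarter (a b : ℕ) : a * b ≤ (a + b) ^ 2 / 4 := by
  rw [Nat.le_div_iff_mul_le (by norm_num)]
  have h9 : ((a * b * 4 : ℕ) : ℤ) ≤ ((a + b) ^ 2 : ℕ) := by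
    push_cast
    nlinarith [sq_nonneg ((a : ℤ) - b)]
  exact_mod_cast h9

lemma near_balanced {a b : ℕ} (h : (a + b) ^ 2 / 4 ≤ a * b) : a = (a + b) / 2 ∨ a = (a + b + 1) / 2 := by
  have h1 : (a + b) ^ 2 < 4 * (a * b) + 4 := by
    have := Nat.lt_mul_div_succ ((a + b) ^ 2) (show 0 < 4 by norm_num)
    omega
  have h2 : ((a : ℤ) - b) ^ 2 < 4 := by
    have : (((a + b) ^ 2 : ℕ) : ℤ) < ((4 * (a * b) + 4 : ℕ) : ℤ) := by exact_mod_cast h1
    push_cast at this
    nlinarith
  have h3 : (a : ℤ) - b < 2 := by nlinarith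
  have h4 : -2 < (a : ℤ) - b := by nlinarith
  omega

end Pool.Agent.H46
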