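import Pool.Agent.H46.Final1

set_option autoImplicit false
set_option maxHeartbeats 4000000

open Finset

namespace Pool.Agent.H46

variable {V : Type} [Fintype V] {H : SimpleGraph V} {A B Z : Finset V} {n : ℝ}

/-- the target statement -/
def Goal {V : Type} [Fintype V] (H : SimpleGraph V) : Prop :=
  cnt H.Adj univ univ ≤ 2 * ((Fintype.card V - 1) ^ 2 / 4 + 1) ∧
    (cnt H.Adj univ univ = 2 * ((Fintype.card V - 1) ^ 2 / 4 + 1) → Shape H)

lemma Setup.deg_eq (h : Setup H A B Z n) (w : V) :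
    dg H.Adj w univ = dg H.Adj w A + dg H.Adj w B + dg H.Adj w Z := by
  classical
  have hd1 := h.dAB
  have hd2 : Disjoint (A ∪ B) Z := disjoint_union_left.2 ⟨h.dAZ, h.dBZ⟩
  have hun : (A ∪ B) ∪ Z = univ := by
    ext v
    simp only [mem_union, mem_univ, iff_true]
    rcases h.cover v with h | h | h <;> tauto
  rw [← hun, dg_union _ _ hd2, dg_union _ _ hd1]

lemma Setup.count' (h : Setup H A B Z n) :
    cnt H.Adj univ univ + cnt H.Adj Z Z + 2 * cnt (fun x y => ¬ H.Adj x y) A B =
      2 * (A.card * B.card) + 2 * cnt H.Adj Z univ := by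
  have h1 := h.edge_count
  have h2 : cnt H.Adj A A = 0 := cnt_eq_zero h.noInner
  have h3 : cnt H.Adj B B = 0 := cnt_eq_zero h.noInnerB
  have h4 := cnt_compl H.Adj A B
  omega

lemma Setup.loss (h : Setup H A B Z n) :
    ((Z.card : ℝ) * n / 2 - cnt H.Adj Z univ) + (cnt (fun x y => ¬ H.Adj x y) A B : ℝ) ≤
      n / 2 + 25 := by
  obtain ⟨hK, -, -⟩ := h.bounds
  have hnpos := h.npos
  have hKr : (Z.card : ℝ) ≤ 10 := by exact_mod_cast hK
  have hK0 : (0 : ℝ) ≤ Z.card := by positivity
  have h1 : (cnt H.Adj univ univ : ℝ) + cnt H.Adj Z Z +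
      2 * cnt (fun x y => ¬ H.Adj x y) A B = 2 * (A.card * B.card) + 2 * cnt H.Adj Z univ := by
    exact_mod_cast h.count'
  have h2 := h.edges
  have h3 := h.card_add'
  have h4 : 2 * ((A.card : ℝ) * B.card) ≤ (n - Z.card) ^ 2 / 2 := by
    have h5 : (A.card : ℝ) + B.card = n - Z.card := by linarith
    rw [← h5]
    nlinarith [sq_nonneg ((A.card : ℝ) - B.card)]
  have h6 : (n - (Z.card : ℝ)) ^ 2 / 2 = n ^ 2 / 2 - n * Z.card + (Z.card : ℝ) ^ 2 / 2 := by ring
  have h7 : (Z.card : ℝ) ^ 2 ≤ 100 := by nlinarith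
  have h8 : (0 : ℝ) ≤ cnt H.Adj Z Z := by positivity
  linarith

lemma Setup.exists_edge (h : Setup H A B Z n) : ∃ u v, H.Adj u v := by
  have h1 := h.edges
  have h2 := h.hbig
  have h3 := h.npos
  have e8 : (10 : ℝ) ^ 8 = 100000000 := by norm_num
  have h4 : (0 : ℝ) < cnt H.Adj univ univ := by nlinarith
  have h5 : 0 < cnt H.Adj univ univ := by exact_mod_cast h4
  by_contra hcon
  push Not at hcon
  have : cnt H.Adj univ univ = 0 := cnt_eq_zero fun x _ y _ => hcon x y
  omega

lemma Setup.case0 (h : Setup H A B Z n) (hD : DiamHyp H) (hN : NoDom H) (hZ : Z = ∅) : False := by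
  obtain ⟨u, v, huv⟩ := h.exists_edge
  refine not_bip hD hN (fun x => x ∈ A) ?_ huv
  intro x y hxy
  have hA := h.noInner
  have hB := h.noInnerB
  have hcov : ∀ v, v ∈ A ∨ v ∈ B := by
    intro v
    rcases h.cover v with h | h | h
    · left; exact h
    · right; exact h
    · rw [hZ] at h; simp at h
  constructor
  · intro hx hy; exact hA x hx y hy hxy
  · intro hy
    rcases hcov x with hx | hx
    · exact hx
    · exfalso
      rcases hcov y with hy' | hy'
      · exact hy hy'
      · exact hB x hx y hy' hxy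

section case1

variable {w : V}

lemma Setup.k1_nonempty (h : Setup H A B Z n) (hD : DiamHyp H) (hN : NoDom H) (hZ : Z = {w}) :
    ∃ a ∈ A, H.Adj w a := by
  by_contra hcon
  push Not at hcon
  obtain ⟨u, v, huv⟩ := h.exists_edge
  refine not_bip hD hN (fun x => x ∉ B) ?_ huv
  have hA := h.noInner
  have hB := h.noInnerB
  have hcov : ∀ v, v ∉ B → v ∈ A ∨ v = w := by
    intro v hv
    rcases h.cover v with h | h | h
    · left; exact h
    · exact absurd h hv
    · right; rw [hZ] at h; simpa using h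
  intro x y hxy
  constructor
  · intro hx hy
    rcases hcov x hx with hx' | rfl <;> rcases hcov y hy with hy' | rfl
    · exact hA x hx' y hy' hxy
    · exact hcon x hx' hxy.symm
    · exact hcon y hy' hxy
    · exact H.loopless.irrefl _ hxy
  · intro hy hx
    simp only [not_not] at hy
    exact hB x hx y hy hxy

lemma Setup.k1_miss (h : Setup H A B Z n) (hZ : Z = {w}) {a b : V} (ha : a ∈ A) (hb : b ∈ B)
    (hwa : H.Adj w a) (hwb : H.Adj w b) : ¬ H.Adj a b := by
  intro hab
  rcases h.serve' ha hb hab (fun hf => hf w ⟨hwa.symm, hwb.symm⟩) with ⟨c, hc, hcr⟩ | ⟨c, hc, hcr⟩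
  · rw [hZ, mem_singleton] at hc
    subst hc
    exact hcr.2.1 hwa.symm
  · rw [hZ, mem_singleton] at hc
    subst hc
    exact hcr.2.1 hwb.symm

lemma Setup.k1_shape (h : Setup H A B Z n) (hZ : Z = {w}) {r : V} (hrA : r ∈ A)
    (hwr : H.Adj w r) (hR : ∀ a ∈ A, H.Adj w a → a = r) (hS : ∃ b ∈ B, H.Adj w b)
    (hmiss : ∀ a ∈ A, ∀ b ∈ B, ¬ H.Adj a b → (H.Adj w a ∧ H.Adj w b))
    (hcard : (A.card + B.card) ^ 2 / 4 ≤ A.card * B.card) : Shape H := by
  classical
  have hA := h.noInner
  have hB := h.noInnerB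
  have hwZ : w ∈ Z := by rw [hZ]; simp
  have hwA : w ∉ A := Finset.disjoint_right.1 h.dAZ hwZ
  have hwB : w ∉ B := Finset.disjoint_right.1 h.dBZ hwZ
  have hrB : r ∉ B := Finset.disjoint_left.1 h.dAB hrA
  have hcardV : Fintype.card V = A.card + B.card + 1 := by
    have := h.card_add
    rw [hZ, card_singleton] at this
    omega
  have hbig := h.hbig
  have e8 : (10 : ℝ) ^ 8 = 100000000 := by norm_num
  have hrdeg : 3 ≤ dg H.Adj r univ := by
    have h1 := h.degAB r (Finset.disjoint_left.1 h.dAZ hrA)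
    have : (3 : ℝ) ≤ dg H.Adj r univ := by linarith
    exact_mod_cast this
  have hX4 : ∃ b ∈ B, H.Adj r b := by
    have h1 := h.deg_eq r
    have h2 : dg H.Adj r A = 0 := dg_eq_zero fun y hy => hA r hrA y hy
    have h3 : dg H.Adj r Z ≤ 1 := by
      have := dg_le_card H.Adj r Z
      rw [hZ, card_singleton] at this
      rw [hZ]; exact this
    have h4 : 0 < dg H.Adj r B := by omega
    exact exists_of_dg_pos h4
  refine shape_of (p := w) (q := r) (X1 := A.erase r) (X3 := B.filter (fun b => H.Adj w b))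
    (X4 := B.filter (fun b => ¬ H.Adj w b)) hwr ?_ ?_ ?_ ?_ ?_ ?_ ?_ ?_ ?_ ?_ ?_ ?_ ?_ ?_ ?_ ?_ ?_
    ?_ ?_ ?_ ?_ ?_ ?_ ?_ ?_
  · intro v
    rcases h.cover v with hv | hv | hv
    · by_cases hvr : v = r
      · right; left; exact hvr
      · right; right; left; exact mem_erase.2 ⟨hvr, hv⟩
    · by_cases hwv : H.Adj w v
      · right; right; right; left; exact mem_filter.2 ⟨hv, hwv⟩
      · right; right; right; right; exact mem_filter.2 ⟨hv, hwv⟩
    · left; rw [hZ] at hv; simpa using hv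
  · intro hm; exact hwA (mem_erase.1 hm).2
  · intro hm; exact hwB (mem_filter.1 hm).1
  · intro hm; exact hwB (mem_filter.1 hm).1
  · intro hm; exact (mem_erase.1 hm).1 rfl
  · intro hm; exact hrB (mem_filter.1 hm).1
  · intro hm; exact hrB (mem_filter.1 hm).1
  · exact disjoint_of_subset_left (erase_subset _ _)
      (disjoint_of_subset_right (filter_subset _ _) h.dAB)
  · exact disjoint_of_subset_left (erase_subset _ _)
      (disjoint_of_subset_right (filter_subset _ _) h.dAB)
  · rw [Finset.disjoint_left]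
    intro v h1 h2
    exact (mem_filter.1 h2).2 (mem_filter.1 h1).2
  · intro x hx
    rw [mem_filter] at hx
    by_contra hcon
    exact hx.2 (hmiss r hrA x hx.1 hcon).2
  · intro x hx y hy
    rw [mem_filter] at hx
    rw [mem_erase] at hy
    by_contra hcon
    exact hx.2 (hmiss y hy.2 x hx.1 (fun h' => hcon h'.symm)).2
  · intro x hx y hy
    rw [mem_filter] at hy
    rw [mem_erase] at hx
    by_contra hcon
    exact hx.1 (hR x hx.2 (hmiss x hx.2 y hy.1 hcon).1)
  · intro x hx; exact (mem_filter.1 hx).2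
  · intro x hx; exact (mem_filter.1 hx).2
  · intro x hx hwx
    rw [mem_erase] at hx
    exact hx.1 (hR x hx.2 hwx)
  · intro x hx
    rw [mem_erase] at hx
    exact hA r hrA x hx.2
  · intro x hx
    rw [mem_filter] at hx
    exact h.k1_miss hZ hrA hx.1 hwr hx.2
  · intro x hx y hy
    exact hB x (mem_filter.1 hx).1 y (mem_filter.1 hy).1
  · intro x hx y hy
    exact hA x (mem_erase.1 hx).2 y (mem_erase.1 hy).2
  · intro x hx y hy
    exact hB x (mem_filter.1 hx).1 y (mem_filter.1 hy).1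
  · intro x hx y hy
    exact hB x (mem_filter.1 hx).1 y (mem_filter.1 hy).1
  · rw [card_erase_of_mem hrA, hcardV]
    have hApos : 0 < A.card := card_pos.2 ⟨r, hrA⟩
    obtain ⟨b, hb, -⟩ := hX4
    have hBpos : 0 < B.card := card_pos.2 ⟨b, hb⟩
    rcases near_balanced hcard with h1 | h1
    · left; omega
    · right; omega
  · obtain ⟨b, hb, hwb⟩ := hS
    exact card_pos.2 ⟨b, mem_filter.2 ⟨hb, hwb⟩⟩
  · obtain ⟨b, hb, hrb⟩ := hX4
    refine card_pos.2 ⟨b, mem_filter.2 ⟨hb, fun hwb => ?_⟩⟩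
    exact h.k1_miss hZ hrA hb hwr hwb hrb

lemma Setup.case1 (h : Setup H A B Z n) (hD : DiamHyp H) (hN : NoDom H) (hZ : Z = {w}) :
    Goal H := by
  classical
  have hA := h.noInner
  have hB := h.noInnerB
  obtain ⟨a0, ha0, hwa0⟩ := h.k1_nonempty hD hN hZ
  obtain ⟨b0, hb0, hwb0⟩ := h.swap.k1_nonempty hD hN hZ
  set R := A.filter (fun a => H.Adj w a) with hR
  set S := B.filter (fun b => H.Adj w b) with hS
  have hRcard : R.card = dg H.Adj w A := by rw [dg_eq_card_filter]
  have hScard : S.card = dg H.Adj w B := by rw [dg_eq_card_filter]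
  have hRpos : 0 < R.card := card_pos.2 ⟨a0, mem_filter.2 ⟨ha0, hwa0⟩⟩
  have hSpos : 0 < S.card := card_pos.2 ⟨b0, mem_filter.2 ⟨hb0, hwb0⟩⟩
  have hcardV : Fintype.card V = A.card + B.card + 1 := by
    have := h.card_add
    rw [hZ, card_singleton] at this
    omega
  have hcount := h.count'
  have hZZ : cnt H.Adj Z Z = 0 := by
    apply cnt_eq_zero
    intro x hx y hy
    rw [hZ, mem_singleton] at hx hy
    subst hx; subst hy
    exact H.loopless.irrefl _
  have hZu : cnt H.Adj Z univ = R.card + S.card := by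
    have h1 : cnt H.Adj Z univ = dg H.Adj w univ := by rw [hZ]; exact cnt_singleton_left _ _ _
    have h2 := h.deg_eq w
    have h3 : dg H.Adj w Z = 0 := by
      apply dg_eq_zero
      intro y hy
      rw [hZ, mem_singleton] at hy
      subst hy
      exact H.loopless.irrefl _
    omega
  rw [hZZ, hZu] at hcount
  have hRS : cnt (fun x y => ¬ H.Adj x y) R S = R.card * S.card := by
    apply cnt_eq_mul
    intro a ha b hb
    rw [mem_filter] at ha hb
    exact h.k1_miss hZ ha.1 hb.1 ha.2 hb.2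
  have hMge : R.card * S.card ≤ cnt (fun x y => ¬ H.Adj x y) A B := by
    rw [← hRS]
    exact cnt_mono fun x hx y hy hxy => ⟨(mem_filter.1 hx).1, (mem_filter.1 hy).1, hxy⟩
  have hquart := mul_le_quarter A.card B.card
  have hN1 : Fintype.card V - 1 = A.card + B.card := by omega
  have hrs : R.card + S.card ≤ R.card * S.card + 1 := by
    obtain ⟨r, hr⟩ : ∃ r, R.card = r + 1 := ⟨R.card - 1, by omega⟩
    obtain ⟨s, hs⟩ : ∃ s, S.card = s + 1 := ⟨S.card - 1, by omega⟩
    rw [hr, hs]; nlinarith [Nat.zero_le (r * s)]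
  refine ⟨?_, ?_⟩
  · rw [hN1]; omega
  · intro heq
    rw [hN1] at heq
    have hM : cnt (fun x y => ¬ H.Adj x y) A B = R.card * S.card := by omega
    have hrs' : R.card + S.card = R.card * S.card + 1 := by omega
    have hcard : (A.card + B.card) ^ 2 / 4 ≤ A.card * B.card := by omega
    -- missing pairs are exactly R x S
    have hmiss : ∀ a ∈ A, ∀ b ∈ B, ¬ H.Adj a b → (H.Adj w a ∧ H.Adj w b) := by
      intro a ha b hb hab
      have h1 := cnt_split (fun x y => ¬ H.Adj x y) (fun x y => H.Adj w x ∧ H.Adj w y) A B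
      have h2 : cnt (fun x y => ¬ H.Adj x y) R S ≤
          cnt (fun x y => ¬ H.Adj x y ∧ (H.Adj w x ∧ H.Adj w y)) A B :=
        cnt_mono fun x hx y hy hxy => ⟨(mem_filter.1 hx).1, (mem_filter.1 hy).1, hxy,
          (mem_filter.1 hx).2, (mem_filter.1 hy).2⟩
      have h3 : cnt (fun x y => ¬ H.Adj x y ∧ ¬ (H.Adj w x ∧ H.Adj w y)) A B = 0 := by omega
      by_contra hcon
      exact of_cnt_eq_zero h3 a ha b hb ⟨hab, hcon⟩
    have hone : R.card = 1 ∨ S.card = 1 := by
      by_contra hcon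
      push Not at hcon
      obtain ⟨r, hr⟩ : ∃ r, R.card = r + 2 := ⟨R.card - 2, by omega⟩
      obtain ⟨s, hs⟩ : ∃ s, S.card = s + 2 := ⟨S.card - 2, by omega⟩
      rw [hr, hs] at hrs'
      nlinarith [Nat.zero_le (r * s)]
    rcases hone with h1 | h1
    · obtain ⟨r, hr⟩ := card_eq_one.1 h1
      have hrm : r ∈ R := by rw [hr]; simp
      refine h.k1_shape hZ (mem_filter.1 hrm).1 (mem_filter.1 hrm).2 ?_ ⟨b0, hb0, hwb0⟩ hmiss hcard
      intro a ha hwa
      have : a ∈ R := mem_filter.2 ⟨ha, hwa⟩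
      rw [hr] at this; simpa using this
    · obtain ⟨s, hs⟩ := card_eq_one.1 h1
      have hsm : s ∈ S := by rw [hs]; simp
      refine h.swap.k1_shape hZ (mem_filter.1 hsm).1 (mem_filter.1 hsm).2 ?_ ⟨a0, ha0, hwa0⟩ ?_ ?_
      · intro b hb hwb
        have : b ∈ S := mem_filter.2 ⟨hb, hwb⟩
        rw [hs] at this; simpa using this
      · intro b hb a ha hba
        exact (hmiss a ha b hb (fun h' => hba h'.symm)).symm
      · rw [add_comm, mul_comm]; exact hcard

end case1

end Pool.Agent.H46
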