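import Pool.Agent.H46.Final2

set_option autoImplicit false
set_option maxHeartbeats 4000000

open Finset

namespace Pool.Agent.H46

/-- the situation with at least two low degree vertices -/
structure Setup2 {V : Type} [Fintype V] (H : SimpleGraph V) (A B Z ZA ZB : Finset V) (n : ℝ) :
    Prop extends Setup H A B Z n where
  two : 2 ≤ Z.card
  ten : Z.card ≤ 10
  zun : ∀ w ∈ Z, w ∈ ZA ∨ w ∈ ZB
  zaZ : ZA ⊆ Z
  zbZ : ZB ⊆ Z
  zdis : Disjoint ZA ZB
  tot : (cnt (fun x y => ¬ H.Adj x y) A B : ℝ) + cnt (fun x y => ¬ H.Adj x y) ZA B +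
    cnt (fun x y => ¬ H.Adj x y) ZB A ≤ 0.501 * n
  lossA : ∀ w ∈ ZA, 0.049 * n ≤ (dg (fun x y => ¬ H.Adj x y) w B : ℝ)
  lossB : ∀ w ∈ ZB, 0.049 * n ≤ (dg (fun x y => ¬ H.Adj x y) w A : ℝ)
  bigA : 0.499 * n ≤ (A.card : ℝ)
  bigB : 0.499 * n ≤ (B.card : ℝ)

variable {V : Type} [Fintype V] {H : SimpleGraph V} {A B Z ZA ZB : Finset V} {n : ℝ}

lemma Setup2.swap2 (h : Setup2 H A B Z ZA ZB n) : Setup2 H B A Z ZB ZA n :=
  { h.toSetup.swap with
    two := h.two
    ten := h.ten
    zun := fun w hw => (h.zun w hw).symm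
    zaZ := h.zbZ
    zbZ := h.zaZ
    zdis := h.zdis.symm
    tot := by
      have h1 : cnt (fun x y => ¬ H.Adj x y) B A = cnt (fun x y => ¬ H.Adj x y) A B :=
        cnt_symm (fun _ _ h h' => h h'.symm) _ _
      rw [h1]
      have := h.tot
      linarith
    lossA := h.lossB
    lossB := h.lossA
    bigA := h.bigB
    bigB := h.bigA }

open Classical in
lemma Setup.exists_setup2 (h : Setup H A B Z n) (hZ : 2 ≤ Z.card) :
    ∃ ZA ZB, Setup2 H A B Z ZA ZB n := by
  obtain ⟨hK, hM, -⟩ := h.bounds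
  have hL := h.loss
  have hnpos := h.npos
  have hbig := h.hbig
  have e8 : (10 : ℝ) ^ 8 = 100000000 := by norm_num
  have hKr : (Z.card : ℝ) ≤ 10 := by exact_mod_cast hK
  have hK2 : (2 : ℝ) ≤ Z.card := by exact_mod_cast hZ
  set M : ℝ := (cnt (fun x y => ¬ H.Adj x y) A B : ℝ) with hMdef
  have hM0 : 0 ≤ M := by rw [hMdef]; positivity
  have hcards := h.card_add'
  have hcA := h.cardA
  have hcB := h.cardB
  have bigA : 0.499 * n ≤ (A.card : ℝ) := by linarith
  have bigB : 0.499 * n ≤ (B.card : ℝ) := by linarith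
  -- lower bound for the degrees
  have hdeg : ∀ w ∈ Z, 0.05 * n - 25 ≤ (dg H.Adj w univ : ℝ) := by
    intro w hw
    have h1 : (cnt H.Adj Z univ : ℝ) ≤ dg H.Adj w univ + (Z.card - 1) * (0.45 * n) := by
      rw [cnt_eq_sum_left]
      push_cast
      rw [← add_sum_erase Z (fun x => (dg H.Adj x univ : ℝ)) hw]
      have h2 : ∑ x ∈ Z.erase w, (dg H.Adj x univ : ℝ) ≤ ∑ x ∈ Z.erase w, (0.45 * n) :=
        sum_le_sum fun x hx => h.degZ x (mem_erase.1 hx).2
      rw [sum_const, card_erase_of_mem hw, nsmul_eq_mul, Nat.cast_sub (by omega)] at h2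
      push_cast at h2
      linarith
    have h3 : ((Z.card : ℝ) - 1) * (0.05 * n) ≥ 1 * (0.05 * n) :=
      mul_le_mul_of_nonneg_right (by linarith) (by positivity)
    linarith
  -- product bound
  have hprod : ∀ w ∈ Z, (dg H.Adj w A : ℝ) * dg H.Adj w B ≤ 10.51 * n := by
    intro w hw
    set R := A.filter (fun a => H.Adj w a) with hR
    set S := B.filter (fun b => H.Adj w b) with hS
    have hRcard : R.card = dg H.Adj w A := by rw [dg_eq_card_filter]
    have hScard : S.card = dg H.Adj w B := by rw [dg_eq_card_filter]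
    have h1 := cnt_compl H.Adj R S
    have h2 : cnt (fun x y => ¬ H.Adj x y) R S ≤ cnt (fun x y => ¬ H.Adj x y) A B :=
      cnt_mono fun x hx y hy hxy => ⟨(mem_filter.1 hx).1, (mem_filter.1 hy).1, hxy⟩
    have h3 : cnt H.Adj R S ≤ cnt (fun x b => ∃ w ∈ Z, Crit H x b w) R S +
        cnt (fun x b => ∃ w ∈ Z, Crit H b x w) R S := by
      apply cnt_le_add
      intro x hx b hb hxb
      rw [mem_filter] at hx hb
      exact h.serve' hx.1 hb.1 hxb (fun hf => hf w ⟨hx.2.symm, hb.2.symm⟩)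
    have h4 := cnt_crit_Z_left (H := H) (Z := Z) R S
    have h5 := cnt_crit_Z_right (H := H) (Z := Z) R S
    have h6 : R.card * S.card ≤ cnt (fun x y => ¬ H.Adj x y) A B + (R.card * Z.card +
      S.card * Z.card) := by omega
    have h7 : (R.card : ℝ) * S.card ≤ M + (R.card * Z.card + S.card * Z.card) := by
      rw [hMdef]; exact_mod_cast h6
    have h8 : (R.card : ℝ) ≤ A.card := by exact_mod_cast card_le_card (filter_subset _ _)
    have h9 : (S.card : ℝ) ≤ B.card := by exact_mod_cast card_le_card (filter_subset _ _)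
    have h10 : (R.card : ℝ) * Z.card + S.card * Z.card ≤ 10 * n := by
      have e1 : (R.card : ℝ) * Z.card ≤ A.card * 10 :=
        mul_le_mul h8 hKr (by positivity) (by positivity)
      have e2 : (S.card : ℝ) * Z.card ≤ B.card * 10 :=
        mul_le_mul h9 hKr (by positivity) (by positivity)
      linarith
    rw [← hRcard, ← hScard]
    linarith
  have hdich : ∀ w ∈ Z, ¬ dg H.Adj w A ≤ 526 → dg H.Adj w B ≤ 526 := by
    intro w hw h1
    by_contra h2
    push Not at h1 h2
    have h3 := hprod w hw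
    have h4 := hdeg w hw
    have h5 : (dg H.Adj w univ : ℝ) = dg H.Adj w A + dg H.Adj w B + dg H.Adj w Z := by
      exact_mod_cast h.deg_eq w
    have h6 : (dg H.Adj w Z : ℝ) ≤ 10 := by
      have : dg H.Adj w Z ≤ 10 := le_trans (dg_le_card _ _ _) hK
      exact_mod_cast this
    have h7 : (527 : ℝ) ≤ dg H.Adj w A := by exact_mod_cast h1
    have h8 : (527 : ℝ) ≤ dg H.Adj w B := by exact_mod_cast h2
    by_cases h9 : 0.02 * n ≤ (dg H.Adj w A : ℝ)
    · have : (0.02 * n) * 527 ≤ (dg H.Adj w A : ℝ) * dg H.Adj w B :=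
        mul_le_mul h9 h8 (by norm_num) (by positivity)
      linarith
    · have h10 : 0.02 * n ≤ (dg H.Adj w B : ℝ) := by linarith
      have : 527 * (0.02 * n) ≤ (dg H.Adj w A : ℝ) * dg H.Adj w B :=
        mul_le_mul h7 h10 (by positivity) (by positivity)
      linarith
  set ZA := Z.filter (fun w => dg H.Adj w A ≤ 526) with hZA
  set ZB := Z.filter (fun w => ¬ dg H.Adj w A ≤ 526) with hZB
  have hdegZr : ∀ w, (dg H.Adj w Z : ℝ) ≤ 10 := by
    intro w
    have : dg H.Adj w Z ≤ 10 := le_trans (dg_le_card _ _ _) hK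
    exact_mod_cast this
  have hmA : ∀ w ∈ ZA, (dg (fun x y => ¬ H.Adj x y) w B : ℝ) ≤
      n / 2 - dg H.Adj w univ + (n / 10 ^ 5 + 536) := by
    intro w hw
    rw [hZA, mem_filter] at hw
    have h5 : (dg H.Adj w univ : ℝ) = dg H.Adj w A + dg H.Adj w B + dg H.Adj w Z := by
      exact_mod_cast h.deg_eq w
    have h6 := hdegZr w
    have h7 : (dg H.Adj w A : ℝ) ≤ 526 := by exact_mod_cast hw.2
    have h8 : (dg H.Adj w B : ℝ) + dg (fun x y => ¬ H.Adj x y) w B = B.card := by
      exact_mod_cast dg_compl H.Adj w B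
    linarith
  have hmB : ∀ w ∈ ZB, (dg (fun x y => ¬ H.Adj x y) w A : ℝ) ≤
      n / 2 - dg H.Adj w univ + (n / 10 ^ 5 + 536) := by
    intro w hw
    rw [hZB, mem_filter] at hw
    have h5 : (dg H.Adj w univ : ℝ) = dg H.Adj w A + dg H.Adj w B + dg H.Adj w Z := by
      exact_mod_cast h.deg_eq w
    have h6 := hdegZr w
    have h7 : (dg H.Adj w B : ℝ) ≤ 526 := by exact_mod_cast hdich w hw.1 hw.2
    have h8 : (dg H.Adj w A : ℝ) + dg (fun x y => ¬ H.Adj x y) w A = A.card := by
      exact_mod_cast dg_compl H.Adj w A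
    linarith
  refine ⟨ZA, ZB, ?_⟩
  exact
    { h with
      two := hZ
      ten := hK
      zun := by
        intro w hw
        by_cases h1 : dg H.Adj w A ≤ 526
        · left; exact mem_filter.2 ⟨hw, h1⟩
        · right; exact mem_filter.2 ⟨hw, h1⟩
      zaZ := filter_subset _ _
      zbZ := filter_subset _ _
      zdis := by
        rw [Finset.disjoint_left]
        intro w h1 h2
        exact (mem_filter.1 h2).2 (mem_filter.1 h1).2
      tot := by
        have s1 : (cnt (fun x y => ¬ H.Adj x y) ZA B : ℝ) ≤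
            ∑ w ∈ ZA, (n / 2 - dg H.Adj w univ + (n / 10 ^ 5 + 536)) := by
          rw [cnt_eq_sum_left]; push_cast
          exact sum_le_sum hmA
        have s2 : (cnt (fun x y => ¬ H.Adj x y) ZB A : ℝ) ≤
            ∑ w ∈ ZB, (n / 2 - dg H.Adj w univ + (n / 10 ^ 5 + 536)) := by
          rw [cnt_eq_sum_left]; push_cast
          exact sum_le_sum hmB
        have s3 : ∑ w ∈ ZA, (n / 2 - (dg H.Adj w univ : ℝ) + (n / 10 ^ 5 + 536)) +
            ∑ w ∈ ZB, (n / 2 - (dg H.Adj w univ : ℝ) + (n / 10 ^ 5 + 536)) =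
            ∑ w ∈ Z, (n / 2 - (dg H.Adj w univ : ℝ) + (n / 10 ^ 5 + 536)) :=
          sum_filter_add_sum_filter_not Z _ _
        have s4 : ∑ w ∈ Z, (n / 2 - (dg H.Adj w univ : ℝ) + (n / 10 ^ 5 + 536)) =
            ((Z.card : ℝ) * n / 2 - cnt H.Adj Z univ) + Z.card * (n / 10 ^ 5 + 536) := by
          rw [sum_add_distrib, sum_sub_distrib, sum_const, sum_const, nsmul_eq_mul, nsmul_eq_mul,
            cnt_eq_sum_left]
          push_cast
          ring
        have s5 : (Z.card : ℝ) * (n / 10 ^ 5 + 536) ≤ 10 * (n / 10 ^ 5 + 536) :=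
          mul_le_mul_of_nonneg_right hKr (by positivity)
        linarith
      lossA := by
        intro w hw
        have h1 := h.degZ w (mem_filter.1 hw).1
        have h8 : (dg H.Adj w B : ℝ) + dg (fun x y => ¬ H.Adj x y) w B = B.card := by
          exact_mod_cast dg_compl H.Adj w B
        have h9 : dg H.Adj w B ≤ dg H.Adj w univ := dg_mono fun y _ h => ⟨mem_univ _, h⟩
        have h10 : (dg H.Adj w B : ℝ) ≤ dg H.Adj w univ := by exact_mod_cast h9
        linarith
      lossB := by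
        intro w hw
        have h1 := h.degZ w (mem_filter.1 hw).1
        have h8 : (dg H.Adj w A : ℝ) + dg (fun x y => ¬ H.Adj x y) w A = A.card := by
          exact_mod_cast dg_compl H.Adj w A
        have h9 : dg H.Adj w A ≤ dg H.Adj w univ := dg_mono fun y _ h => ⟨mem_univ _, h⟩
        have h10 : (dg H.Adj w A : ℝ) ≤ dg H.Adj w univ := by exact_mod_cast h9
        linarith
      bigA := bigA
      bigB := bigB }

end Pool.Agent.H46
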