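import Pool.Agent.H46.Final3

set_option autoImplicit false
set_option maxHeartbeats 4000000

open Finset

namespace Pool.Agent.H46

variable {V : Type} [Fintype V] {H : SimpleGraph V} {A B Z ZA ZB : Finset V} {n : ℝ}

lemma dg_le_cnt {r : V → V → Prop} {X Y : Finset V} {x : V} (hx : x ∈ X) :
    dg r x Y ≤ cnt r X Y := by
  rw [cnt_eq_sum_left]
  exact single_le_sum (f := fun x => dg r x Y) (fun _ _ => Nat.zero_le _) hx

lemma dg_add_le_cnt {r : V → V → Prop} {X Y : Finset V} {x y : V} (hx : x ∈ X) (hy : y ∈ X)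
    (hne : x ≠ y) : dg r x Y + dg r y Y ≤ cnt r X Y := by
  classical
  rw [cnt_eq_sum_left, ← add_sum_erase X _ hx]
  have := single_le_sum (f := fun x => dg r x Y) (s := X.erase x) (fun _ _ => Nat.zero_le _)
    (mem_erase.2 ⟨hne.symm, hy⟩)
  omega

lemma dg_add3_le_cnt {r : V → V → Prop} {X Y : Finset V} {x y z : V} (hx : x ∈ X) (hy : y ∈ X)
    (hz : z ∈ X) (hxy : x ≠ y) (hxz : x ≠ z) (hyz : y ≠ z) :
    dg r x Y + dg r y Y + dg r z Y ≤ cnt r X Y := by
  classical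
  have h1 : cnt r X Y = dg r x Y + cnt r (X.erase x) Y := by
    rw [cnt_eq_sum_left, cnt_eq_sum_left, ← add_sum_erase X _ hx]
  have h2 := dg_add_le_cnt (r := r) (Y := Y) (mem_erase.2 ⟨hxy.symm, hy⟩)
    (mem_erase.2 ⟨hxz.symm, hz⟩) hyz
  omega

/-- another low degree vertex gives an extra loss -/
lemma Setup2.extra (h : Setup2 H A B Z ZA ZB n) {w : V} (hw : w ∈ ZA) :
    (cnt (fun x y => ¬ H.Adj x y) A B : ℝ) + dg (fun x y => ¬ H.Adj x y) w B + 0.049 * n ≤
      0.501 * n := by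
  classical
  have hwZ := h.zaZ hw
  obtain ⟨w', hw'Z, hne⟩ : ∃ w' ∈ Z, w' ≠ w := by
    have := h.two
    obtain ⟨a, ha, b, hb, hab⟩ := one_lt_card.1 (Nat.lt_of_succ_le this)
    by_cases haw : a = w
    · exact ⟨b, hb, fun hb' => hab (haw.trans hb'.symm)⟩
    · exact ⟨a, ha, haw⟩
  have htot := h.tot
  rcases h.zun w' hw'Z with hA | hB
  · have h1 := dg_add_le_cnt (r := fun x y => ¬ H.Adj x y) (Y := B) hw hA hne.symm
    have h2 : (dg (fun x y => ¬ H.Adj x y) w B : ℝ) + dg (fun x y => ¬ H.Adj x y) w' B ≤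
      cnt (fun x y => ¬ H.Adj x y) ZA B := by exact_mod_cast h1
    have h3 := h.lossA w' hA
    have h4 : (0 : ℝ) ≤ cnt (fun x y => ¬ H.Adj x y) ZB A := by positivity
    linarith
  · have h1 := dg_le_cnt (r := fun x y => ¬ H.Adj x y) (Y := B) hw
    have h2 := dg_le_cnt (r := fun x y => ¬ H.Adj x y) (Y := A) hB
    have h1' : (dg (fun x y => ¬ H.Adj x y) w B : ℝ) ≤ cnt (fun x y => ¬ H.Adj x y) ZA B := by
      exact_mod_cast h1
    have h2' : (dg (fun x y => ¬ H.Adj x y) w' A : ℝ) ≤ cnt (fun x y => ¬ H.Adj x y) ZB A := by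
      exact_mod_cast h2
    have h3 := h.lossB w' hB
    linarith

/-- Claim 1 -/
lemma Setup2.claim1 (h : Setup2 H A B Z ZA ZB n) {w a : V} (hw : w ∈ ZA) (ha : a ∈ A) :
    2 ≤ dg (fun w z => H.Adj w z ∧ H.Adj a z) w B := by
  classical
  by_contra hcon
  push Not at hcon
  have hbig := h.hbig
  have e8 : (10 : ℝ) ^ 8 = 100000000 := by norm_num
  have h1 := h.extra hw
  have h2 : dg (fun x y => ¬ H.Adj x y) a B ≤ cnt (fun x y => ¬ H.Adj x y) A B := dg_le_cnt ha
  have h3 := dg_inter H.Adj H.Adj w a B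
  have h4 := dg_compl H.Adj w B
  have h5 := dg_compl H.Adj a B
  have h6 : dg (fun _ z => H.Adj w z ∧ H.Adj a z) w B =
    dg (fun w z => H.Adj w z ∧ H.Adj a z) w B := rfl
  have h7 : B.card ≤ dg (fun x y => ¬ H.Adj x y) w B + dg (fun x y => ¬ H.Adj x y) a B + 1 := by
    omega
  have h8 : (B.card : ℝ) ≤ dg (fun x y => ¬ H.Adj x y) w B +
    dg (fun x y => ¬ H.Adj x y) a B + 1 := by exact_mod_cast h7
  have h9 : (dg (fun x y => ¬ H.Adj x y) a B : ℝ) ≤ cnt (fun x y => ¬ H.Adj x y) A B := by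
    exact_mod_cast h2
  have h10 := h.bigB
  linarith

lemma Setup2.no_crit_ZA_A (h : Setup2 H A B Z ZA ZB n) {w a v : V} (hw : w ∈ ZA) (ha : a ∈ A) :
    ¬ Crit H w v a := by
  intro hc
  have h1 := h.claim1 hw ha
  have h2 := crit_common_le_one hc B
  omega

lemma Setup2.no_crit_ZB_B (h : Setup2 H A B Z ZA ZB n) {w b v : V} (hw : w ∈ ZB) (hb : b ∈ B) :
    ¬ Crit H w v b := h.swap2.no_crit_ZA_A hw hb

/-- the counting of missing partners -/
lemma count_partners {r : V → V → Prop} {B X E W : Finset V} (hX : X ⊆ B)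
    (h2 : ∀ b ∈ X, b ∉ E → 2 ≤ dg r b W) (h1 : ∀ b ∈ B, b ∉ X → 1 ≤ dg r b W) :
    B.card + X.card ≤ cnt r B W + 2 * E.card := by
  classical
  rw [cnt_eq_sum_left]
  have e1 : B.card = ∑ b ∈ B, 1 := by simp
  have e2 : X.card = ∑ b ∈ B, (if b ∈ X then 1 else 0) := by
    rw [← sum_filter, filter_mem_eq_inter, inter_eq_right.2 hX]; simp
  have e3 : ∑ b ∈ B, (if b ∈ E then 2 else 0) ≤ 2 * E.card := by
    rw [← sum_filter, filter_mem_eq_inter, sum_const, smul_eq_mul, mul_comm]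
    exact Nat.mul_le_mul_left _ (card_le_card inter_subset_right)
  have e4 : ∑ b ∈ B, 1 + ∑ b ∈ B, (if b ∈ X then 1 else 0) ≤
      ∑ b ∈ B, dg r b W + ∑ b ∈ B, (if b ∈ E then 2 else 0) := by
    rw [← sum_add_distrib, ← sum_add_distrib]
    apply sum_le_sum
    intro b hb
    by_cases hbX : b ∈ X <;> by_cases hbE : b ∈ E
    · simp [hbX, hbE]
    · have := h2 b hbX hbE
      simp [hbX, hbE]; omega
    · simp [hbX, hbE]
    · have := h1 b hb hbX
      simp [hbX, hbE]; omega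
  rw [← e1, ← e2] at e4
  omega

lemma Setup2.crit_ba (h : Setup2 H A B Z ZA ZB n) {a b : V} (ha : a ∈ A) (hb : b ∈ B)
    (hab : H.Adj a b) (hnf : ¬ Free H a b) (hE : ¬ ∃ c ∈ Z, Crit H a b c) :
    ∃ c ∈ ZA, Crit H b a c := by
  rcases h.serve' ha hb hab hnf with h1 | ⟨c, hc, hcr⟩
  · exact absurd h1 hE
  · rcases h.zun c hc with h2 | h2
    · exact ⟨c, h2, hcr⟩
    · exact absurd hcr.symm (h.no_crit_ZB_B h2 hb)

lemma Setup2.crit_bw (h : Setup2 H A B Z ZA ZB n) {w b : V} (hw : w ∈ ZA) (hb : b ∈ B)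
    (hwb : H.Adj w b) (hnf : ¬ Free H w b) (hE : ¬ ∃ c ∈ Z, Crit H w b c) :
    ∃ c, (c ∈ A ∨ c ∈ ZA) ∧ Crit H b w c := by
  rcases h.crit w b hwb with h1 | ⟨c, hc⟩ | ⟨c, hc⟩
  · exact absurd h1 hnf
  · exfalso
    rcases h.cover c with h2 | h2 | h2
    · exact h.no_crit_ZA_A hw h2 hc
    · exact h.noInnerB c h2 b hb hc.adj₂
    · exact hE ⟨c, h2, hc⟩
  · rcases h.cover c with h2 | h2 | h2
    · exact ⟨c, Or.inl h2, hc⟩
    · exact absurd hc (h.not_crit_BB hb h2)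
    · rcases h.zun c h2 with h3 | h3
      · exact ⟨c, Or.inr h3, hc⟩
      · exact absurd hc.symm (h.no_crit_ZB_B h3 hb)

lemma Setup2.card_exc (x : V) (B Z : Finset V)
    [DecidablePred (fun b => ∃ c ∈ Z, Crit H x b c)] :
    (B.filter (fun b => ∃ c ∈ Z, Crit H x b c)).card ≤ Z.card := by
  classical
  refine le_trans (card_le_card (t := Z.image (fun c => mid H x c)) ?_) card_image_le
  intro b hb
  obtain ⟨-, c, hc, hcr⟩ := mem_filter.1 hb
  exact mem_image.2 ⟨c, hc, mid_eq hcr⟩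

open Classical in
/-- the number of missing pairs between `B` and `A ∪ ZA` -/
lemma Setup2.cnt_W (h : Setup2 H A B Z ZA ZB n) :
    (cnt (fun x y => ¬ H.Adj x y) B (A ∪ ZA) : ℝ) ≤ 0.501 * n := by
  have hd : Disjoint A ZA := disjoint_of_subset_right h.zaZ h.dAZ
  rw [cnt_union_right _ _ hd]
  have h1 : cnt (fun x y => ¬ H.Adj x y) B A = cnt (fun x y => ¬ H.Adj x y) A B :=
    cnt_symm (fun _ _ h h' => h h'.symm) _ _
  have h2 : cnt (fun x y => ¬ H.Adj x y) B ZA = cnt (fun x y => ¬ H.Adj x y) ZA B :=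
    cnt_symm (fun _ _ h h' => h h'.symm) _ _
  rw [h1, h2]
  push_cast
  have h3 := h.tot
  have h4 : (0 : ℝ) ≤ cnt (fun x y => ¬ H.Adj x y) ZB A := by positivity
  linarith

/-- Claim 2 -/
lemma Setup2.claim2 (h : Setup2 H A B Z ZA ZB n) {w : V} (hw : w ∈ ZA) :
    ∀ a ∈ A, ¬ H.Adj w a := by
  classical
  intro a ha hwa
  have hnpos := h.npos
  have hbig := h.hbig
  have e8 : (10 : ℝ) ^ 8 = 100000000 := by norm_num
  have hwZ := h.zaZ hw
  have hwA : w ∉ A := Finset.disjoint_right.1 h.dAZ hwZ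
  set X := B.filter (fun b => H.Adj w b ∧ H.Adj a b) with hX
  set E := B.filter (fun b => ∃ c ∈ Z, Crit H a b c) ∪ B.filter (fun b => ∃ c ∈ Z, Crit H w b c)
    with hE
  have hEcard : E.card ≤ 20 := by
    have h4 := h.ten
    have h1 := Setup2.card_exc (H := H) a B Z
    have h2 := Setup2.card_exc (H := H) w B Z
    rw [hE]
    refine le_trans (card_union_le _ _) ?_
    omega
  have hcount := count_partners (r := fun x y => ¬ H.Adj x y) (B := B) (X := X) (E := E)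
    (W := A ∪ ZA) (filter_subset _ _) (by
      intro b hbX hbE
      rw [hX, mem_filter] at hbX
      obtain ⟨hb, hwb, hab⟩ := hbX
      rw [hE, mem_union, mem_filter, mem_filter] at hbE
      push Not at hbE
      have hE1 : ¬ ∃ c ∈ Z, Crit H a b c := fun ⟨c, hc, hcr⟩ => hbE.1 hb c hc hcr
      have hE2 : ¬ ∃ c ∈ Z, Crit H w b c := fun ⟨c, hc, hcr⟩ => hbE.2 hb c hc hcr
      obtain ⟨c1, hc1, hcr1⟩ := h.crit_ba ha hb hab (fun hf => hf w ⟨hwa.symm, hwb.symm⟩) hE1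
      obtain ⟨c2, hc2, hcr2⟩ := h.crit_bw hw hb hwb (fun hf => hf a ⟨hwa, hab.symm⟩) hE2
      refine two_le_dg (y := c1) (y' := c2) ?_ ?_ ?_ hcr1.2.1 hcr2.2.1
      · exact mem_union.2 (Or.inr hc1)
      · exact mem_union.2 hc2
      · rintro rfl
        have := hcr1.unique hcr2
        subst this
        exact hwA ha) (by
      intro b hb hbX
      rw [hX, mem_filter] at hbX
      by_cases hwb : H.Adj w b
      · have hab : ¬ H.Adj b a := fun h' => hbX ⟨hb, hwb, h'.symm⟩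
        exact dg_pos (mem_union.2 (Or.inl ha)) hab
      · exact dg_pos (mem_union.2 (Or.inr hw)) (fun h' => hwb h'.symm))
  have h1 : (B.card : ℝ) + X.card ≤ cnt (fun x y => ¬ H.Adj x y) B (A ∪ ZA) + 2 * E.card := by
    exact_mod_cast hcount
  have h2 := h.cnt_W
  have h3 : (E.card : ℝ) ≤ 20 := by exact_mod_cast hEcard
  have h4 := h.bigB
  have hXsmall : (X.card : ℝ) ≤ 0.003 * n := by linarith
  have h5 := h.extra hw
  have h6 : dg (fun x y => ¬ H.Adj x y) a B ≤ cnt (fun x y => ¬ H.Adj x y) A B := dg_le_cnt ha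
  have h6' : (dg (fun x y => ¬ H.Adj x y) a B : ℝ) ≤ cnt (fun x y => ¬ H.Adj x y) A B := by
    exact_mod_cast h6
  have h7 := dg_inter H.Adj H.Adj w a B
  have h8 := dg_compl H.Adj w B
  have h9 := dg_compl H.Adj a B
  have h10 : dg (fun _ z => H.Adj w z ∧ H.Adj a z) w B = X.card := by
    rw [dg_eq_card_filter]
  have h11 : B.card ≤ dg (fun x y => ¬ H.Adj x y) w B + dg (fun x y => ¬ H.Adj x y) a B +
    X.card := by omega
  have h12 : (B.card : ℝ) ≤ dg (fun x y => ¬ H.Adj x y) w B + dg (fun x y => ¬ H.Adj x y) a B +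
    X.card := by exact_mod_cast h11
  linarith

/-- Claim 3 : two adjacent vertices of `ZA` -/
lemma Setup2.claim3 (h : Setup2 H A B Z ZA ZB n) {w1 w2 : V} (hw1 : w1 ∈ ZA) (hw2 : w2 ∈ ZA)
    (hadj : H.Adj w1 w2) : Z.card = 2 ∧ ∀ b ∈ B, H.Adj w1 b → ¬ H.Adj w2 b := by
  classical
  have hnpos := h.npos
  have hbig := h.hbig
  have e8 : (10 : ℝ) ^ 8 = 100000000 := by norm_num
  have hne : w1 ≠ w2 := hadj.ne
  set X := B.filter (fun b => H.Adj w1 b ∧ H.Adj w2 b) with hX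
  set E := B.filter (fun b => ∃ c ∈ Z, Crit H w1 b c) ∪ B.filter (fun b => ∃ c ∈ Z, Crit H w2 b c)
    with hE
  have hEcard : E.card ≤ 20 := by
    have h4 := h.ten
    have h1 := Setup2.card_exc (H := H) w1 B Z
    have h2 := Setup2.card_exc (H := H) w2 B Z
    rw [hE]
    refine le_trans (card_union_le _ _) ?_
    omega
  have hcount := count_partners (r := fun x y => ¬ H.Adj x y) (B := B) (X := X) (E := E)
    (W := A ∪ ZA) (filter_subset _ _) (by
      intro b hbX hbE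
      rw [hX, mem_filter] at hbX
      obtain ⟨hb, hwb1, hwb2⟩ := hbX
      rw [hE, mem_union, mem_filter, mem_filter] at hbE
      push Not at hbE
      have hE1 : ¬ ∃ c ∈ Z, Crit H w1 b c := fun ⟨c, hc, hcr⟩ => hbE.1 hb c hc hcr
      have hE2 : ¬ ∃ c ∈ Z, Crit H w2 b c := fun ⟨c, hc, hcr⟩ => hbE.2 hb c hc hcr
      obtain ⟨c1, hc1, hcr1⟩ := h.crit_bw hw1 hb hwb1 (fun hf => hf w2 ⟨hadj, hwb2.symm⟩) hE1
      obtain ⟨c2, hc2, hcr2⟩ := h.crit_bw hw2 hb hwb2 (fun hf => hf w1 ⟨hadj.symm, hwb1.symm⟩) hE2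
      refine two_le_dg (y := c1) (y' := c2) (mem_union.2 hc1) (mem_union.2 hc2) ?_
        hcr1.2.1 hcr2.2.1
      rintro rfl
      exact hne (hcr1.unique hcr2)) (by
      intro b hb hbX
      rw [hX, mem_filter] at hbX
      by_cases hwb : H.Adj w1 b
      · have hab : ¬ H.Adj b w2 := fun h' => hbX ⟨hb, hwb, h'.symm⟩
        exact dg_pos (mem_union.2 (Or.inr hw2)) hab
      · exact dg_pos (mem_union.2 (Or.inr hw1)) (fun h' => hwb h'.symm))
  have h1 : (B.card : ℝ) + X.card ≤ cnt (fun x y => ¬ H.Adj x y) B (A ∪ ZA) + 2 * E.card := by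
    exact_mod_cast hcount
  have h2 := h.cnt_W
  have h3 : (E.card : ℝ) ≤ 20 := by exact_mod_cast hEcard
  have h4 := h.bigB
  have hXsmall : (X.card : ℝ) ≤ 0.003 * n := by linarith
  have h7 := dg_inter H.Adj H.Adj w1 w2 B
  have h8 := dg_compl H.Adj w1 B
  have h9 := dg_compl H.Adj w2 B
  have h10 : dg (fun _ z => H.Adj w1 z ∧ H.Adj w2 z) w1 B = X.card := by
    rw [dg_eq_card_filter]
  have h11 : B.card ≤ dg (fun x y => ¬ H.Adj x y) w1 B + dg (fun x y => ¬ H.Adj x y) w2 B +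
    X.card := by omega
  have h12 : (B.card : ℝ) ≤ dg (fun x y => ¬ H.Adj x y) w1 B + dg (fun x y => ¬ H.Adj x y) w2 B +
    X.card := by exact_mod_cast h11
  have hZ2 : Z.card = 2 := by
    by_contra hcon
    have htwo := h.two
    have h3lt : 2 < Z.card := by omega
    obtain ⟨w3, hw3Z, hw31, hw32⟩ : ∃ w3 ∈ Z, w3 ≠ w1 ∧ w3 ≠ w2 := by
      by_contra hc
      push Not at hc
      have : Z ⊆ {w1, w2} := by
        intro z hz
        rw [mem_insert, mem_singleton]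
        by_cases hz1 : z = w1
        · left; exact hz1
        · right; exact hc z hz hz1
      have := card_le_card this
      rw [card_pair hne] at this
      omega
    have htot := h.tot
    have hM0 : (0 : ℝ) ≤ cnt (fun x y => ¬ H.Adj x y) A B := by positivity
    rcases h.zun w3 hw3Z with hA | hB
    · have g1 := dg_add3_le_cnt (r := fun x y => ¬ H.Adj x y) (Y := B) hw1 hw2 hA hne
        (fun h' => hw31 h'.symm) (fun h' => hw32 h'.symm)
      have g2 : (dg (fun x y => ¬ H.Adj x y) w1 B : ℝ) + dg (fun x y => ¬ H.Adj x y) w2 B +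
        dg (fun x y => ¬ H.Adj x y) w3 B ≤ cnt (fun x y => ¬ H.Adj x y) ZA B := by
        exact_mod_cast g1
      have g3 := h.lossA w3 hA
      have g4 : (0 : ℝ) ≤ cnt (fun x y => ¬ H.Adj x y) ZB A := by positivity
      linarith
    · have g1 := dg_add_le_cnt (r := fun x y => ¬ H.Adj x y) (Y := B) hw1 hw2 hne
      have g2 := dg_le_cnt (r := fun x y => ¬ H.Adj x y) (Y := A) hB
      have g1' : (dg (fun x y => ¬ H.Adj x y) w1 B : ℝ) + dg (fun x y => ¬ H.Adj x y) w2 B ≤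
        cnt (fun x y => ¬ H.Adj x y) ZA B := by exact_mod_cast g1
      have g2' : (dg (fun x y => ¬ H.Adj x y) w3 A : ℝ) ≤ cnt (fun x y => ¬ H.Adj x y) ZB A := by
        exact_mod_cast g2
      have g3 := h.lossB w3 hB
      linarith
  refine ⟨hZ2, ?_⟩
  -- Z = {w1, w2}
  have hZeq : ∀ z ∈ Z, z = w1 ∨ z = w2 := by
    have hsub : ({w1, w2} : Finset V) ⊆ Z := by
      intro z hz
      rw [mem_insert, mem_singleton] at hz
      rcases hz with rfl | rfl
      · exact h.zaZ hw1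
      · exact h.zaZ hw2
    have : ({w1, w2} : Finset V) = Z := eq_of_subset_of_card_le hsub (by
      rw [card_pair hne, hZ2])
    intro z hz
    rw [← this, mem_insert, mem_singleton] at hz
    exact hz
  intro b hb hwb1 hwb2
  have hnf : ¬ Free H w1 b := fun hf => hf w2 ⟨hadj, hwb2.symm⟩
  have hE1 : ¬ ∃ c ∈ Z, Crit H w1 b c := by
    rintro ⟨c, hc, hcr⟩
    rcases hZeq c hc with rfl | rfl
    · exact hcr.1 rfl
    · exact hcr.2.1 hadj
  obtain ⟨c, hc, hcr⟩ := h.crit_bw hw1 hb hwb1 hnf hE1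
  rcases hc with hc | hc
  · exact h.claim2 hw1 c hc hcr.adj₂.symm
  · rcases hZeq c (h.zaZ hc) with rfl | rfl
    · exact H.loopless.irrefl _ hcr.adj₂
    · exact hcr.2.1 hwb2.symm

end Pool.Agent.H46
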