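import Pool.Agent.H46.Final4

set_option autoImplicit false
set_option maxHeartbeats 4000000

open Finset

namespace Pool.Agent.H46

variable {V : Type} [Fintype V] {H : SimpleGraph V} {A B Z ZA ZB : Finset V} {n : ℝ}

lemma Setup2.case2A (h : Setup2 H A B Z ZA ZB n) {w1 w2 : V} (hw1 : w1 ∈ ZA) (hw2 : w2 ∈ ZA)
    (hadj : H.Adj w1 w2) : Goal H := by
  classical
  obtain ⟨hZ2, hdis⟩ := h.claim3 hw1 hw2 hadj
  have hA := h.noInner
  have hB := h.noInnerB
  have hnpos := h.npos
  have hne : w1 ≠ w2 := hadj.ne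
  have hw1Z := h.zaZ hw1
  have hw2Z := h.zaZ hw2
  have hZeq : ({w1, w2} : Finset V) = Z := by
    have hsub : ({w1, w2} : Finset V) ⊆ Z := by
      intro z hz
      rw [mem_insert, mem_singleton] at hz
      rcases hz with rfl | rfl
      · exact hw1Z
      · exact hw2Z
    exact eq_of_subset_of_card_le hsub (by rw [card_pair hne, hZ2])
  have hc1 := h.claim2 hw1
  have hc2 := h.claim2 hw2
  have d12 : dg H.Adj w1 {w2} = 1 := by
    rw [dg_eq_card_filter, filter_singleton, if_pos hadj, card_singleton]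
  have d21 : dg H.Adj w2 {w1} = 1 := by
    rw [dg_eq_card_filter, filter_singleton, if_pos hadj.symm, card_singleton]
  have hloop : ∀ v, ¬ H.Adj v v := fun v => H.loopless.irrefl v
  have dself1 : dg H.Adj w1 {w1} = 0 := dg_eq_zero (by simp)
  have dself2 : dg H.Adj w2 {w2} = 0 := dg_eq_zero (by simp)
  have hdis12 : Disjoint ({w1} : Finset V) {w2} := by simpa using hne
  have d1Z : dg H.Adj w1 Z = 1 := by
    rw [← hZeq, insert_eq, dg_union _ _ hdis12, dself1, d12]
  have d2Z : dg H.Adj w2 Z = 1 := by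
    rw [← hZeq, insert_eq, dg_union _ _ hdis12, dself2, d21]
  have hZZ : cnt H.Adj Z Z = 2 := by
    rw [cnt_eq_sum_left, ← hZeq, sum_pair hne, hZeq, d1Z, d2Z]
  have hZu : cnt H.Adj Z univ = dg H.Adj w1 B + dg H.Adj w2 B + 2 := by
    have e1 := h.deg_eq w1
    have e2 := h.deg_eq w2
    have e3 : dg H.Adj w1 A = 0 := dg_eq_zero hc1
    have e4 : dg H.Adj w2 A = 0 := dg_eq_zero hc2
    have e5 : cnt H.Adj Z univ = dg H.Adj w1 univ + dg H.Adj w2 univ := by
      rw [cnt_eq_sum_left, ← hZeq, sum_pair hne]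
    omega
  have hcount := h.count'
  rw [hZZ, hZu] at hcount
  have hS : dg H.Adj w1 B + dg H.Adj w2 B ≤ B.card := by
    have e1 := dg_inter H.Adj H.Adj w1 w2 B
    have e2 : dg (fun _ z => H.Adj w1 z ∧ H.Adj w2 z) w1 B = 0 :=
      dg_eq_zero fun b hb hh => hdis b hb hh.1 hh.2
    omega
  have hcardV : Fintype.card V = A.card + B.card + 2 := by
    have := h.card_add
    omega
  have hN1 : Fintype.card V - 1 = (A.card + 1) + B.card := by omega
  have hquart := mul_le_quarter (A.card + 1) B.card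
  have hmul : (A.card + 1) * B.card = A.card * B.card + B.card := by ring
  refine ⟨?_, ?_⟩
  · rw [hN1]; omega
  · intro heq
    rw [hN1] at heq
    have hM : cnt (fun x y => ¬ H.Adj x y) A B = 0 := by omega
    have hSeq : dg H.Adj w1 B + dg H.Adj w2 B = B.card := by omega
    have hcard : ((A.card + 1) + B.card) ^ 2 / 4 ≤ (A.card + 1) * B.card := by omega
    have hfull : ∀ a ∈ A, ∀ b ∈ B, H.Adj a b := by
      intro a ha b hb
      by_contra hcon
      exact of_cnt_eq_zero hM a ha b hb hcon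
    set S1 := B.filter (fun b => H.Adj w1 b) with hS1
    set S2 := B.filter (fun b => H.Adj w2 b) with hS2
    have hS1c : S1.card = dg H.Adj w1 B := by rw [dg_eq_card_filter]
    have hS2c : S2.card = dg H.Adj w2 B := by rw [dg_eq_card_filter]
    have hSd : Disjoint S1 S2 := by
      rw [Finset.disjoint_left]
      intro b h1 h2
      rw [hS1, mem_filter] at h1
      rw [hS2, mem_filter] at h2
      exact hdis b h1.1 h1.2 h2.2
    have hSun : S1 ∪ S2 = B := by
      apply eq_of_subset_of_card_le (union_subset (filter_subset _ _) (filter_subset _ _))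
      rw [card_union_of_disjoint hSd]; omega
    have hw1A : w1 ∉ A := Finset.disjoint_right.1 h.dAZ hw1Z
    have hw2A : w2 ∉ A := Finset.disjoint_right.1 h.dAZ hw2Z
    have hw1B : w1 ∉ B := Finset.disjoint_right.1 h.dBZ hw1Z
    have hw2B : w2 ∉ B := Finset.disjoint_right.1 h.dBZ hw2Z
    have hpos : ∀ w ∈ ZA, 0 < dg H.Adj w B := by
      intro w hw
      by_contra hcon
      have e0 : dg H.Adj w B = 0 := by omega
      have e1 := h.extra hw
      have e2 := dg_compl H.Adj w B
      have e3 : dg (fun x y => ¬ H.Adj x y) w B = B.card := by omega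
      have e4 := h.bigB
      have e5 : (0 : ℝ) ≤ cnt (fun x y => ¬ H.Adj x y) A B := by positivity
      rw [e3] at e1
      linarith
    refine shape_of (p := w1) (q := w2) (X1 := A) (X3 := S1) (X4 := S2) hadj
      ?_ hw1A ?_ ?_ hw2A ?_ ?_ ?_ ?_ hSd ?_ ?_ ?_ ?_ ?_ hc1 hc2 ?_ ?_ hA ?_ ?_ ?_ ?_ ?_
    · intro v
      rcases h.cover v with hv | hv | hv
      · right; right; left; exact hv
      · rw [← hSun, mem_union] at hv
        rcases hv with hv | hv
        · right; right; right; left; exact hv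
        · right; right; right; right; exact hv
      · rw [← hZeq, mem_insert, mem_singleton] at hv
        rcases hv with hv | hv
        · left; exact hv
        · right; left; exact hv
    · intro hm; exact hw1B (mem_filter.1 hm).1
    · intro hm; exact hw1B (mem_filter.1 hm).1
    · intro hm; exact hw2B (mem_filter.1 hm).1
    · intro hm; exact hw2B (mem_filter.1 hm).1
    · exact disjoint_of_subset_right (filter_subset _ _) h.dAB
    · exact disjoint_of_subset_right (filter_subset _ _) h.dAB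
    · intro x hx; exact (mem_filter.1 hx).2
    · intro x hx y hy; exact (hfull y hy x (mem_filter.1 hx).1).symm
    · intro x hx y hy; exact hfull x hx y (mem_filter.1 hy).1
    · intro x hx; exact (mem_filter.1 hx).2
    · intro x hx hwx
      rw [hS2, mem_filter] at hx
      exact hdis x hx.1 hwx hx.2
    · intro x hx
      rw [hS1, mem_filter] at hx
      exact hdis x hx.1 hx.2
    · intro x hx y hy; exact hB x (mem_filter.1 hx).1 y (mem_filter.1 hy).1
    · intro x hx y hy; exact hB x (mem_filter.1 hx).1 y (mem_filter.1 hy).1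
    · intro x hx y hy; exact hB x (mem_filter.1 hx).1 y (mem_filter.1 hy).1
    · rw [hcardV]
      have hBpos : 0 < B.card := by
        have := hpos w1 hw1
        have h2 := dg_le_card H.Adj w1 B
        omega
      rcases near_balanced hcard with h1 | h1
      · left; omega
      · right; omega
    · rw [hS1c]; exact hpos w1 hw1
    · rw [hS2c]; exact hpos w2 hw2

lemma Setup2.case2 (h : Setup2 H A B Z ZA ZB n) (hD : DiamHyp H) (hN : NoDom H) : Goal H := by
  by_cases h1 : ∃ w1 ∈ ZA, ∃ w2 ∈ ZA, H.Adj w1 w2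
  · obtain ⟨w1, hw1, w2, hw2, hadj⟩ := h1
    exact h.case2A hw1 hw2 hadj
  by_cases h2 : ∃ w1 ∈ ZB, ∃ w2 ∈ ZB, H.Adj w1 w2
  · obtain ⟨w1, hw1, w2, hw2, hadj⟩ := h2
    exact h.swap2.case2A hw1 hw2 hadj
  exfalso
  push Not at h1 h2
  obtain ⟨u, v, huv⟩ := h.exists_edge
  have hA := h.noInner
  have hB := h.noInnerB
  have key1 : ∀ x y, (x ∈ A ∨ x ∈ ZA) → (y ∈ A ∨ y ∈ ZA) → ¬ H.Adj x y := by
    rintro x y (hx | hx) (hy | hy) hxy
    · exact hA x hx y hy hxy
    · exact h.claim2 hy x hx hxy.symm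
    · exact h.claim2 hx y hy hxy
    · exact h1 x hx y hy hxy
  have key2 : ∀ x y, (x ∈ B ∨ x ∈ ZB) → (y ∈ B ∨ y ∈ ZB) → ¬ H.Adj x y := by
    rintro x y (hx | hx) (hy | hy) hxy
    · exact hB x hx y hy hxy
    · exact h.swap2.claim2 hy x hx hxy.symm
    · exact h.swap2.claim2 hx y hy hxy
    · exact h2 x hx y hy hxy
  have key3 : ∀ x, ¬ (x ∈ A ∨ x ∈ ZA) → (x ∈ B ∨ x ∈ ZB) := by
    intro x hx
    rcases h.cover x with h3 | h3 | h3
    · exact absurd (Or.inl h3) hx
    · left; exact h3
    · rcases h.zun x h3 with h4 | h4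
      · exact absurd (Or.inr h4) hx
      · right; exact h4
  refine not_bip hD hN (fun x => x ∈ A ∨ x ∈ ZA) ?_ huv
  intro x y hxy
  constructor
  · intro hx hy; exact key1 x y hx hy hxy
  · intro hy
    by_contra hx
    exact key2 x y (key3 x hx) (key3 y hy) hxy

theorem main_H : ∃ n0 : ℕ, ∀ (V : Type) [Fintype V] (H : SimpleGraph V),
    n0 ≤ Fintype.card V → CritHyp H → DiamHyp H → NoDom H →
    ((Fintype.card V : ℝ) ^ 2 / 2 - (Fintype.card V : ℝ) ≤ (cnt H.Adj univ univ : ℝ)) →
    Goal H := by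
  obtain ⟨n0, hn0⟩ := exists_setup
  refine ⟨n0, ?_⟩
  intro V _ H hn hC hD hN hedges
  obtain ⟨A, B, Z, h⟩ := hn0 V H hn hC hedges
  rcases Nat.lt_or_ge Z.card 1 with h0 | h0
  · exfalso
    exact h.case0 hD hN (card_eq_zero.1 (by omega))
  rcases Nat.lt_or_ge Z.card 2 with h1 | h1
  · obtain ⟨w, hw⟩ := card_eq_one.1 (show Z.card = 1 by omega)
    exact h.case1 hD hN hw
  · obtain ⟨ZA, ZB, h2⟩ := h.exists_setup2 h1
    exact h2.case2 hD hN

end Pool.Agent.H46
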