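import Pool.Agent.H46.Final5

set_option autoImplicit false
set_option maxHeartbeats 4000000

open Finset

namespace Pool.Agent.H46

lemma fin5_iff (a b : Fin 5) :
    (b = a + 2 ∨ a = b + 2) ↔ ¬ (a = b ∨ b = a + 1 ∨ a = b + 1) := by
  revert a b; decide

lemma sum_fin5 (g : Fin 5 → ℕ) : ∑ i, g i = g 0 + g 1 + g 2 + g 3 + g 4 := by
  rw [Fin.sum_univ_five]

section shapecount

variable {V : Type} [Fintype V] {H : SimpleGraph V}

lemma parity_arith {N c1 c3 c4 : ℕ} (hN : c1 + c3 + c4 + 2 = N) (h3 : 1 ≤ c3)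
    (h : c1 = (N - 3) / 2 ∨ c1 = (N - 2) / 2) :
    (c3 + c4) * (c1 + 1) = (N - 1) ^ 2 / 4 := by
  subst hN
  have e1 : c1 + c3 + c4 + 2 - 1 = c1 + c3 + c4 + 1 := by omega
  rw [e1]
  symm
  apply Nat.div_eq_of_lt_le
  · rcases h with h | h
    · have : c3 + c4 = c1 + 1 ∨ c3 + c4 = c1 + 2 := by omega
      rcases this with h' | h'
      · have e : c1 + c3 + c4 + 1 = 2 * (c1 + 1) := by omega
        rw [e, h']; nlinarith
      · have e : c1 + c3 + c4 + 1 = 2 * c1 + 3 := by omega
        rw [e, h']; nlinarith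
    · have : c3 + c4 = c1 ∨ c3 + c4 = c1 + 1 := by omega
      rcases this with h' | h'
      · have e : c1 + c3 + c4 + 1 = 2 * c1 + 1 := by omega
        rw [e, h']; nlinarith
      · have e : c1 + c3 + c4 + 1 = 2 * (c1 + 1) := by omega
        rw [e, h']; nlinarith
  · rcases h with h | h
    · have : c3 + c4 = c1 + 1 ∨ c3 + c4 = c1 + 2 := by omega
      rcases this with h' | h'
      · have e : c1 + c3 + c4 + 1 = 2 * (c1 + 1) := by omega
        rw [e, h']; nlinarith
      · have e : c1 + c3 + c4 + 1 = 2 * c1 + 3 := by omega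
        rw [e, h']; nlinarith
    · have : c3 + c4 = c1 ∨ c3 + c4 = c1 + 1 := by omega
      rcases this with h' | h'
      · have e : c1 + c3 + c4 + 1 = 2 * c1 + 1 := by omega
        rw [e, h']; nlinarith
      · have e : c1 + c3 + c4 + 1 = 2 * (c1 + 1) := by omega
        rw [e, h']; nlinarith

lemma shape_count (hS : Shape H) :
    cnt H.Adj univ univ = 2 * ((Fintype.card V - 1) ^ 2 / 4 + 1) := by
  classical
  obtain ⟨f, hf, h0, h2, h1, h3, h4⟩ := hS
  set c : Fin 5 → ℕ := fun i => (univ.filter (fun x => f x = i)).card with hc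
  have hdeg : ∀ x, dg H.Adj x univ = c (f x + 2) + c (f x + 3) := by
    intro x
    rw [dg_eq_card_filter]
    have e1 : univ.filter (fun y => H.Adj x y) =
        univ.filter (fun y => f y = f x + 2) ∪ univ.filter (fun y => f y = f x + 3) := by
      ext y
      simp only [mem_filter, mem_univ, true_and, mem_union, hf x y]
      generalize f x = a
      generalize f y = b
      revert a b; decide
    rw [e1, card_union_of_disjoint]
    rw [Finset.disjoint_left]
    intro y hy1 hy2
    rw [mem_filter] at hy1 hy2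
    have := hy1.2.symm.trans hy2.2
    revert this
    generalize f x = a
    revert a; decide
  have hsum : cnt H.Adj univ univ = ∑ i : Fin 5, c i * (c (i + 2) + c (i + 3)) := by
    rw [cnt_eq_sum_left, ← sum_fiberwise univ f]
    apply sum_congr rfl
    intro i _
    rw [hc]
    simp only
    rw [← smul_eq_mul, ← sum_const]
    apply sum_congr rfl
    intro x hx
    rw [mem_filter] at hx
    rw [hdeg, hx.2]
  have htot : ∑ i : Fin 5, c i = Fintype.card V := by
    rw [hc]
    simp only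
    rw [← card_univ, card_eq_sum_card_fiberwise (f := f) (t := univ)]
    intro x _; simp
  rw [sum_fin5] at hsum htot
  have k0 : c 0 = 1 := h0
  have k2 : c 2 = 1 := h2
  have k3 : 1 ≤ c 3 := h3
  have k4 : 1 ≤ c 4 := h4
  have k1 : c 1 = (Fintype.card V - 3) / 2 ∨ c 1 = (Fintype.card V - 2) / 2 := h1
  have e1 : (0 : Fin 5) + 2 = 2 := by decide
  have e2 : (0 : Fin 5) + 3 = 3 := by decide
  have e3 : (1 : Fin 5) + 2 = 3 := by decide
  have e4 : (1 : Fin 5) + 3 = 4 := by decide
  have e5 : (2 : Fin 5) + 2 = 4 := by decide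
  have e6 : (2 : Fin 5) + 3 = 0 := by decide
  have e7 : (3 : Fin 5) + 2 = 0 := by decide
  have e8 : (3 : Fin 5) + 3 = 1 := by decide
  have e9 : (4 : Fin 5) + 2 = 1 := by decide
  have e10 : (4 : Fin 5) + 3 = 2 := by decide
  rw [e1, e2, e3, e4, e5, e6, e7, e8, e9, e10, k0, k2] at hsum
  rw [k0, k2] at htot
  have har := parity_arith (N := Fintype.card V) (c1 := c 1) (c3 := c 3) (c4 := c 4)
    (by omega) k3 k1
  rw [← har, hsum]
  ring

end shapecount

section translate

variable {n : ℕ} (G : SimpleGraph (Fin n))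

lemma compl_critHyp
    (h2 : ∀ S : Finset (Fin n), S.card ≤ 2 → ¬ ∀ x, ∃ w ∈ S, G.Adj x w)
    (h3 : ∀ u v : Fin n, u ≠ v → ¬ G.Adj u v →
            ∃ S : Finset (Fin n), S.card ≤ 2 ∧
              ∀ x, ∃ w ∈ S, (G.Adj x w ∨ (x = u ∧ w = v) ∨ (x = v ∧ w = u))) :
    CritHyp Gᶜ := by
  intro u v huv
  rw [SimpleGraph.compl_adj] at huv
  obtain ⟨hne, hnadj⟩ := huv
  obtain ⟨S, hS, hdom⟩ := h3 u v hne hnadj
  -- the asymmetric case
  have key : ∀ u v : Fin n, u ≠ v → ¬ G.Adj u v → u ∈ S → v ∉ S →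
      (∀ x, ∃ w ∈ S, (G.Adj x w ∨ (x = u ∧ w = v) ∨ (x = v ∧ w = u))) →
      ∃ w, Crit Gᶜ u v w := by
    intro u v hne hnadj huS hvS hdom
    obtain ⟨y, hyS, hy⟩ := hdom u
    have hGy : G.Adj u y := by
      rcases hy with hy | hy | hy
      · exact hy
      · exact absurd (hy.2 ▸ hyS) hvS
      · exact absurd hy.1 hne
    have huy : u ≠ y := hGy.ne
    have hSeq : S = {u, y} := by
      symm
      apply eq_of_subset_of_card_le
      · intro z hz
        rw [mem_insert, mem_singleton] at hz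
        rcases hz with rfl | rfl <;> assumption
      · rw [card_pair huy]; exact hS
    have hvu : v ≠ y := fun h => hvS (h ▸ hyS)
    have hvy : ¬ G.Adj v y := by
      intro hvy
      apply h2 S hS
      intro x
      obtain ⟨w, hwS, hw⟩ := hdom x
      rcases hw with hw | hw | hw
      · exact ⟨w, hwS, hw⟩
      · exact absurd (hw.2 ▸ hwS) hvS
      · rw [hw.1]; exact ⟨y, hyS, hvy⟩
    refine ⟨y, huy, ?_, ?_⟩
    · rw [SimpleGraph.compl_adj]; intro h; exact h.2 hGy
    · intro z
      rw [SimpleGraph.compl_adj, SimpleGraph.compl_adj]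
      constructor
      · rintro ⟨⟨hz1, hz2⟩, hz3, hz4⟩
        obtain ⟨w, hwS, hw⟩ := hdom z
        rw [hSeq, mem_insert, mem_singleton] at hwS
        rcases hw with hw | hw | hw
        · exfalso
          rcases hwS with rfl | rfl
          · exact hz2 hw.symm
          · exact hz4 hw.symm
        · exact absurd hw.1.symm hz1
        · exact hw.1
      · rintro rfl
        exact ⟨⟨hne, hnadj⟩, hvu.symm, fun h => hvy h.symm⟩
  by_cases huS : u ∈ S <;> by_cases hvS : v ∈ S
  · left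
    have hSeq : S = {u, v} := by
      symm
      apply eq_of_subset_of_card_le
      · intro z hz
        rw [mem_insert, mem_singleton] at hz
        rcases hz with rfl | rfl <;> assumption
      · rw [card_pair hne]; exact hS
    rintro z ⟨hz1, hz2⟩
    rw [SimpleGraph.compl_adj] at hz1 hz2
    obtain ⟨w, hwS, hw⟩ := hdom z
    rw [hSeq, mem_insert, mem_singleton] at hwS
    rcases hw with hw | hw | hw
    · rcases hwS with rfl | rfl
      · exact hz1.2 hw.symm
      · exact hz2.2 hw.symm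
    · exact hz1.1 hw.1.symm
    · exact hz2.1 hw.1.symm
  · right; left
    exact key u v hne hnadj huS hvS hdom
  · right; right
    refine key v u hne.symm (fun h => hnadj h.symm) hvS huS ?_
    intro x
    obtain ⟨w, hwS, hw⟩ := hdom x
    exact ⟨w, hwS, by tauto⟩
  · exfalso
    apply h2 S hS
    intro x
    obtain ⟨w, hwS, hw⟩ := hdom x
    rcases hw with hw | hw | hw
    · exact ⟨w, hwS, hw⟩
    · exact absurd (hw.2 ▸ hwS) hvS
    · exact absurd (hw.2 ▸ hwS) huS

lemma compl_diamHyp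
    (h2 : ∀ S : Finset (Fin n), S.card ≤ 2 → ¬ ∀ x, ∃ w ∈ S, G.Adj x w) : DiamHyp Gᶜ := by
  intro x y hxy hnadj
  rw [SimpleGraph.compl_adj] at hnadj
  have hG : G.Adj x y := by
    by_contra h
    exact hnadj ⟨hxy, h⟩
  have := h2 {x, y} (by rw [card_pair hxy])
  push Not at this
  obtain ⟨z, hz⟩ := this
  have hzx := hz x (by simp)
  have hzy := hz y (by simp)
  refine ⟨z, ?_, ?_⟩
  · rw [SimpleGraph.compl_adj]
    refine ⟨?_, fun h => hzx h.symm⟩
    rintro rfl
    exact hzy hG
  · rw [SimpleGraph.compl_adj]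
    refine ⟨?_, fun h => hzy h.symm⟩
    rintro rfl
    exact hzx hG.symm

lemma compl_noDom (hd : G.diam = 2) : NoDom Gᶜ := by
  intro x y hxy
  rw [SimpleGraph.compl_adj] at hxy
  obtain ⟨hne, hnadj⟩ := hxy
  have htop : G.ediam ≠ ⊤ := SimpleGraph.ediam_ne_top_of_diam_ne_zero (by omega)
  have hle : G.dist x y ≤ 2 := by
    have := SimpleGraph.dist_le_diam (G := G) htop (u := x) (v := y)
    omega
  have hreach : G.Reachable x y := SimpleGraph.preconnected_of_ediam_ne_top htop x y
  obtain ⟨p, hp⟩ := hreach.exists_walk_length_eq_dist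
  have hcommon : ∃ z, G.Adj x z ∧ G.Adj z y := by
    match p, hp with
    | .nil, _ => exact absurd rfl hne
    | .cons h1 .nil, _ => exact absurd h1 hnadj
    | .cons h1 (.cons h2 .nil), _ => exact ⟨_, h1, h2⟩
    | .cons h1 (.cons h2 (.cons h3 q)), hp =>
      simp only [SimpleGraph.Walk.length_cons] at hp
      omega
  obtain ⟨z, hz1, hz2⟩ := hcommon
  refine ⟨z, hz1.ne.symm, hz2.ne, ?_, ?_⟩
  · rw [SimpleGraph.compl_adj]; intro h; exact h.2 hz1
  · rw [SimpleGraph.compl_adj]; intro h; exact h.2 hz2.symm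

lemma compl_count [DecidableRel G.Adj] :
    2 * G.edgeFinset.card + cnt (Gᶜ).Adj univ univ + n = n ^ 2 := by
  classical
  have h1 := cnt_eq_twice G
  have h2 := cnt_compl G.Adj (univ : Finset (Fin n)) univ
  have h3 : cnt (fun x y => ¬ G.Adj x y) (univ : Finset (Fin n)) univ =
      cnt (Gᶜ).Adj univ univ + cnt (fun x y => x = y) (univ : Finset (Fin n)) univ := by
    rw [cnt_split (fun x y => ¬ G.Adj x y) (fun x y => x ≠ y)]
    congr 1
    · apply cnt_congr
      intro x _ y _
      rw [SimpleGraph.compl_adj]; tauto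
    · apply cnt_congr
      intro x _ y _
      constructor
      · intro h; exact not_not.1 h.2
      · rintro rfl; exact ⟨G.loopless.irrefl _, not_not.2 rfl⟩
  have h4 : cnt (fun x y => x = y) (univ : Finset (Fin n)) univ = n := by
    rw [cnt_eq_sum_left]
    have : ∀ x ∈ (univ : Finset (Fin n)), dg (fun x y => x = y) x univ = 1 := by
      intro x _
      rw [dg_eq_card_filter]
      have : univ.filter (fun y => x = y) = {x} := by ext y; simp [eq_comm]
      rw [this]; simp
    rw [sum_congr rfl this]; simp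
  rw [card_univ, Fintype.card_fin] at h2
  rw [sq]
  omega

end translate

lemma arith_main {N : ℕ} (hN : 2 ≤ N) :
    2 * ((N ^ 2 - 4) / 4) + 2 * ((N - 1) ^ 2 / 4 + 1) + N = N ^ 2 := by
  rcases Nat.even_or_odd' N with ⟨k, rfl | rfl⟩
  · obtain ⟨m, rfl⟩ : ∃ m, k = m + 1 := ⟨k - 1, by omega⟩
    have e1 : (2 * (m + 1)) ^ 2 - 4 = 4 * (m ^ 2 + 2 * m) := by
      have : (2 * (m + 1)) ^ 2 = 4 * (m ^ 2 + 2 * m) + 4 := by ring
      omega
    have e2 : 2 * (m + 1) - 1 = 2 * m + 1 := by omega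
    have e3 : (2 * m + 1) ^ 2 = 4 * (m ^ 2 + m) + 1 := by ring
    rw [e1, e2, e3]
    have e4 : 4 * (m ^ 2 + 2 * m) / 4 = m ^ 2 + 2 * m := by omega
    have e5 : (4 * (m ^ 2 + m) + 1) / 4 = m ^ 2 + m := by omega
    rw [e4, e5]; ring
  · obtain ⟨m, rfl⟩ : ∃ m, k = m + 1 := ⟨k - 1, by omega⟩
    have e1 : (2 * (m + 1) + 1) ^ 2 - 4 = 4 * (m ^ 2 + 3 * m + 1) + 1 := by
      have : (2 * (m + 1) + 1) ^ 2 = 4 * (m ^ 2 + 3 * m + 1) + 5 := by ring
      omega
    have e2 : 2 * (m + 1) + 1 - 1 = 2 * (m + 1) := by omega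
    have e3 : (2 * (m + 1)) ^ 2 = 4 * (m + 1) ^ 2 := by ring
    rw [e1, e2, e3]
    have e4 : (4 * (m ^ 2 + 3 * m + 1) + 1) / 4 = m ^ 2 + 3 * m + 1 := by omega
    have e5 : 4 * (m + 1) ^ 2 / 4 = (m + 1) ^ 2 := by omega
    rw [e4, e5]; ring

end Pool.Agent.H46
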