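import Pool.Agent.H46.Clean

set_option autoImplicit false
set_option maxHeartbeats 4000000

open Finset

namespace Pool.Agent.H46

variable {V : Type} [Fintype V] {H : SimpleGraph V} {A B Z : Finset V} {n : ℝ}

lemma Setup.deg_le (h : Setup H A B Z n) (w : V) :
    dg H.Adj w univ ≤ dg H.Adj w A + dg H.Adj w B + dg H.Adj w Z := by
  classical
  rw [dg_eq_card_filter, dg_eq_card_filter, dg_eq_card_filter, dg_eq_card_filter]
  refine le_trans (card_le_card (t := (A.filter (fun y => H.Adj w y) ∪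
    B.filter (fun y => H.Adj w y)) ∪ Z.filter (fun y => H.Adj w y)) ?_) ?_
  · intro z hz
    rw [mem_filter] at hz
    simp only [mem_union, mem_filter]
    rcases h.cover z with h | h | h
    · left; left; exact ⟨h, hz.2⟩
    · left; right; exact ⟨h, hz.2⟩
    · right; exact ⟨h, hz.2⟩
  · refine le_trans (card_union_le _ _) ?_
    have := card_union_le (A.filter (fun y => H.Adj w y)) (B.filter (fun y => H.Adj w y))
    omega

lemma Setup.noInner (h : Setup H A B Z n) : ∀ x ∈ A, ∀ y ∈ A, ¬ H.Adj x y := by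
  classical
  intro x hx y hy hxy
  have hnpos := h.npos
  have hbig := h.hbig
  have e8 : (10 : ℝ) ^ 8 = 100000000 := by norm_num
  obtain ⟨hK, hM, hL⟩ := h.bounds
  set M : ℝ := (cnt (fun x y => ¬ H.Adj x y) A B : ℝ) with hMdef
  set Q := B.filter (fun b => H.Adj x b ∧ H.Adj y b) with hQ
  have hQcard : 0.35 * n ≤ (Q.card : ℝ) := by
    have h1 := h.comA x hx y hy hxy.ne
    rw [dg_eq_card_filter] at h1
    exact h1
  have hxyA : ({x, y} : Finset V) ⊆ A := by
    intro v hv
    rw [mem_insert, mem_singleton] at hv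
    rcases hv with rfl | rfl <;> assumption
  have hQB : Q ⊆ B := filter_subset _ _
  have hadj : ∀ v ∈ ({x, y} : Finset V), ∀ b ∈ Q, H.Adj v b ∧ ¬ Free H v b := by
    intro v hv b hb
    rw [hQ, mem_filter] at hb
    rw [mem_insert, mem_singleton] at hv
    rcases hv with rfl | rfl
    · exact ⟨hb.2.1, fun hf => hf y ⟨hxy, hb.2.2.symm⟩⟩
    · exact ⟨hb.2.2, fun hf => hf x ⟨hxy.symm, hb.2.1.symm⟩⟩
  set s : V → V → Prop := fun w b => Crit H b x w ∨ Crit H b y w with hs
  have c1 : cnt (fun _ _ => True) ({x, y} : Finset V) Q = 2 * Q.card := by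
    rw [cnt_eq_mul (by simp), card_pair hxy.ne]
  have c2 : cnt (fun _ _ => True) ({x, y} : Finset V) Q ≤
      cnt (fun v b => ∃ w ∈ Z, Crit H v b w) ({x, y} : Finset V) Q +
      cnt (fun v b => (∃ w ∈ Z, Crit H b v w) ∨
        ((∃ w ∈ B, Crit H v b w) ∨ (∃ w ∈ A, Crit H b v w))) ({x, y} : Finset V) Q := by
    apply cnt_le_add
    intro v hv b hb _
    obtain ⟨h1, h2⟩ := hadj v hv b hb
    exact h.serve (hxyA hv) (hQB hb) h1 h2
  have c3 : cnt (fun v b => (∃ w ∈ Z, Crit H b v w) ∨
        ((∃ w ∈ B, Crit H v b w) ∨ (∃ w ∈ A, Crit H b v w))) ({x, y} : Finset V) Q ≤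
      cnt (fun v b => ∃ w ∈ Z, Crit H b v w) ({x, y} : Finset V) Q +
      cnt (fun v b => (∃ w ∈ B, Crit H v b w) ∨ (∃ w ∈ A, Crit H b v w))
        ({x, y} : Finset V) Q := cnt_le_add (by intro v _ b _ hh; exact hh)
  have c4 := cnt_crit_Z_left (H := H) (Z := Z) ({x, y} : Finset V) Q
  rw [card_pair hxy.ne] at c4
  have c5 := h.miss_count hxyA hQB
  have c6 : cnt (fun v b => ∃ w ∈ Z, Crit H b v w) ({x, y} : Finset V) Q ≤ cnt s Z Q := by
    apply cnt_le_of_surj (fun p => (mid H p.2 p.1, p.2))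
    rintro v hv b hb ⟨w, hw, hc⟩
    refine ⟨w, hw, b, hb, ?_, by simp [mid_eq hc]⟩
    rw [mem_insert, mem_singleton] at hv
    rcases hv with rfl | rfl
    · left; exact hc
    · right; exact hc
  have c7 : 2 * Q.card ≤ 2 * Z.card + cnt s Z Q + cnt (fun x y => ¬ H.Adj x y) A B := by omega
  have c7' : 2 * (Q.card : ℝ) ≤ 2 * Z.card + cnt s Z Q + M := by
    rw [hMdef]; exact_mod_cast c7
  have hKr : (Z.card : ℝ) ≤ 10 := by exact_mod_cast hK
  have hw : ∀ w ∈ Z, (dg s w Q : ℝ) ≤ n / 2 - dg H.Adj w univ + 0.001 * n := by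
    intro w hwZ
    have hdeg := h.degZ w hwZ
    by_cases hsmall : (dg s w Q : ℝ) ≤ 0.05 * n
    · linarith
    push Not at hsmall
    set D := Q.filter (fun b => s w b) with hD
    have hDcard : (D.card : ℝ) = dg s w Q := by rw [dg_eq_card_filter]
    set N := A.filter (fun a => H.Adj w a ∧ a ≠ x ∧ a ≠ y) with hN
    have d1 : cnt (fun x y => ¬ H.Adj x y) N D = N.card * D.card := by
      apply cnt_eq_mul
      intro a ha b hb hab
      rw [hN, mem_filter] at ha
      rw [hD, mem_filter] at hb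
      rcases hb.2 with hc | hc
      · exact ha.2.2.1 (hc.eq_of hab.symm ha.2.1)
      · exact ha.2.2.2 (hc.eq_of hab.symm ha.2.1)
    have d2 : cnt (fun x y => ¬ H.Adj x y) N D ≤ cnt (fun x y => ¬ H.Adj x y) A B :=
      cnt_mono fun a ha b hb hab => ⟨(mem_filter.1 ha).1, hQB (mem_filter.1 hb).1, hab⟩
    have d3 : (N.card : ℝ) * D.card ≤ M := by
      rw [hMdef]; rw [d1] at d2; exact_mod_cast d2
    have d4 : (N.card : ℝ) ≤ 10.2 := by
      have e1 : (N.card : ℝ) * (0.05 * n) ≤ N.card * D.card :=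
        mul_le_mul_of_nonneg_left (by rw [hDcard]; exact hsmall.le) (by positivity)
      have e2 : (0.05 * n) * (N.card : ℝ) ≤ (0.05 * n) * 10.2 := by linarith
      exact le_of_mul_le_mul_left e2 (by positivity)
    have d5 : dg H.Adj w A ≤ N.card + 2 := by
      rw [dg_eq_card_filter]
      have : A.filter (fun y => H.Adj w y) ⊆ N ∪ {x, y} := by
        intro a ha
        rw [mem_filter] at ha
        rw [mem_union, mem_insert, mem_singleton, hN, mem_filter]
        by_cases h1 : a = x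
        · right; left; exact h1
        by_cases h2 : a = y
        · right; right; exact h2
        left; exact ⟨ha.1, ha.2, h1, h2⟩
      refine le_trans (card_le_card this) (le_trans (card_union_le _ _) ?_)
      rw [card_pair hxy.ne]
    have d6 : dg H.Adj w B + D.card ≤ B.card := by
      have e1 := dg_compl H.Adj w B
      have e2 : D.card ≤ dg (fun x y => ¬ H.Adj x y) w B := by
        rw [dg_eq_card_filter]
        apply card_le_card
        intro b hb
        rw [hD, mem_filter] at hb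
        rw [mem_filter]
        refine ⟨hQB hb.1, fun hwb => ?_⟩
        rcases hb.2 with hc | hc
        · exact hc.2.1 hwb.symm
        · exact hc.2.1 hwb.symm
      omega
    have d7 : dg H.Adj w Z ≤ Z.card := dg_le_card _ _ _
    have d8 := h.deg_le w
    have d9 : (dg H.Adj w univ : ℝ) + D.card ≤ N.card + 2 + B.card + Z.card := by
      have : dg H.Adj w univ + D.card ≤ N.card + 2 + B.card + Z.card := by omega
      exact_mod_cast this
    have d10 := h.cardB
    rw [← hDcard]
    linarith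
  have hsum : (cnt s Z Q : ℝ) ≤ ((Z.card : ℝ) * n / 2 - cnt H.Adj Z univ) + 0.01 * n := by
    rw [cnt_eq_sum_left, cnt_eq_sum_left]
    push_cast
    have e1 : ∑ w ∈ Z, (dg s w Q : ℝ) ≤
        ∑ w ∈ Z, (n / 2 - dg H.Adj w univ + 0.001 * n) := sum_le_sum hw
    have e2 : ∑ w ∈ Z, (n / 2 - (dg H.Adj w univ : ℝ) + 0.001 * n) =
        (Z.card : ℝ) * n / 2 - ∑ w ∈ Z, (dg H.Adj w univ : ℝ) + Z.card * (0.001 * n) := by
      rw [sum_add_distrib, sum_sub_distrib, sum_const, sum_const, nsmul_eq_mul, nsmul_eq_mul]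
      ring
    have e3 : (Z.card : ℝ) * (0.001 * n) ≤ 10 * (0.001 * n) :=
      mul_le_mul_of_nonneg_right hKr (by positivity)
    linarith
  linarith

lemma Setup.noInnerB (h : Setup H A B Z n) : ∀ x ∈ B, ∀ y ∈ B, ¬ H.Adj x y := h.swap.noInner

/-- how a non-free cross edge is critical, once there are no inner edges -/
lemma Setup.serve' (h : Setup H A B Z n) {x b : V} (hx : x ∈ A) (hb : b ∈ B)
    (hxb : H.Adj x b) (hnf : ¬ Free H x b) :
    (∃ w ∈ Z, Crit H x b w) ∨ (∃ w ∈ Z, Crit H b x w) := by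
  rcases h.serve hx hb hxb hnf with h1 | h1 | ⟨w, hw, hc⟩ | ⟨w, hw, hc⟩
  · left; exact h1
  · right; exact h1
  · exact absurd hc.adj₂ (h.noInnerB w hw b hb)
  · exact absurd hc.adj₂ (h.noInner w hw x hx)

end Pool.Agent.H46
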