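import Pool.Agent.H46.Basic

set_option autoImplicit false

open Finset

namespace Pool.Agent.H46

section
variable {V : Type}

/-- `u` lies in a chosen pair at `v` -/
def Rm (T : Finset (V × V × V)) (v u : V) : Prop := ∃ t ∈ T, t.2.1 = v ∧ (t.1 = u ∨ t.2.2 = u)

/-- the cleaned graph -/
def cleaned (H : SimpleGraph V) (T : Finset (V × V × V)) : SimpleGraph V where
  Adj x y := H.Adj x y ∧ ¬ Rm T x y ∧ ¬ Rm T y x
  symm := ⟨fun _ _ h => ⟨h.1.symm, h.2.2, h.2.1⟩⟩
  loopless := ⟨fun x h => H.loopless.irrefl x h.1⟩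

variable [Fintype V]

open Classical in
lemma card_Rm_le (T : Finset (V × V × V)) :
    (univ.filter (fun p : V × V => Rm T p.1 p.2)).card ≤ 2 * T.card := by
  have hsub : (univ.filter (fun p : V × V => Rm T p.1 p.2)) ⊆
      T.image (fun t => (t.2.1, t.1)) ∪ T.image (fun t => (t.2.1, t.2.2)) := by
    rintro ⟨v, u⟩ hp
    simp only [mem_filter, mem_univ, true_and] at hp
    obtain ⟨t, ht, h1, h2⟩ := hp
    simp only [mem_union, mem_image]
    rcases h2 with h2 | h2
    · left; exact ⟨t, ht, by simp [h1, h2]⟩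
    · right; exact ⟨t, ht, by simp [h1, h2]⟩
  calc _ ≤ _ := card_le_card hsub
    _ ≤ _ := card_union_le _ _
    _ ≤ T.card + T.card := Nat.add_le_add card_image_le card_image_le
    _ = 2 * T.card := by ring

open Classical in
lemma card_swap (r : V → V → Prop) :
    (univ.filter (fun p : V × V => r p.2 p.1)).card =
      (univ.filter (fun p : V × V => r p.1 p.2)).card := by
  apply Finset.card_bij (fun p _ => (p.2, p.1))
  · rintro ⟨a, b⟩ h; simpa using h
  · rintro ⟨a, b⟩ _ ⟨c, d⟩ _ h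
    simp only [Prod.mk.injEq] at h ⊢
    exact ⟨h.2, h.1⟩
  · rintro ⟨a, b⟩ h; exact ⟨(b, a), by simpa using h, rfl⟩

open Classical in
lemma card_S_aux (H : SimpleGraph V) (T : Finset (V × V × V))
    (hmax : ∀ u v w, Crit H u v w → ∃ t ∈ T, t.2.1 = v ∧
      (t.1 = u ∨ t.2.2 = u ∨ t.1 = w ∨ t.2.2 = w)) :
    2 * (univ.filter (fun p : V × V => (∃ w, Crit H p.1 p.2 w) ∧ ¬ Rm T p.2 p.1)).card ≤
      (univ.filter (fun p : V × V => ∃ v, Crit H p.1 v p.2)).card := by
  set CG := (univ.filter (fun p : V × V => (∃ w, Crit H p.1 p.2 w) ∧ ¬ Rm T p.2 p.1)) with hCG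
  have hmem : ∀ p : V × V, ∃ w, p ∈ CG → Crit H p.1 p.2 w := by
    intro p
    by_cases hp : p ∈ CG
    · obtain ⟨w, hw⟩ := (mem_filter.1 hp).2.1
      exact ⟨w, fun _ => hw⟩
    · exact ⟨p.1, fun h => absurd h hp⟩
  choose f hf using hmem
  set I1 := CG.image (fun p => (p.1, f p)) with hI1
  set I2 := CG.image (fun p => (f p, p.1)) with hI2
  have hc1 : I1.card = CG.card := by
    apply card_image_of_injOn
    rintro ⟨u, v⟩ h ⟨u', v'⟩ h' heq
    simp only [Prod.mk.injEq] at heq
    obtain ⟨rfl, h2⟩ := heq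
    have a1 := hf _ h
    have a2 := hf _ h'
    simp only at a1 a2
    rw [h2] at a1
    rw [a1.unique a2]
  have hc2 : I2.card = CG.card := by
    apply card_image_of_injOn
    rintro ⟨u, v⟩ h ⟨u', v'⟩ h' heq
    simp only [Prod.mk.injEq] at heq
    obtain ⟨h2, rfl⟩ := heq
    have a1 := hf _ h
    have a2 := hf _ h'
    simp only at a1 a2
    rw [h2] at a1
    rw [a1.unique a2]
  have hdisj : Disjoint I1 I2 := by
    rw [Finset.disjoint_left]
    rintro ⟨u, w⟩ h1 h2
    simp only [hI1, hI2, mem_image, Prod.mk.injEq] at h1 h2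
    obtain ⟨⟨u1, v1⟩, hm1, rfl, rfl⟩ := h1
    obtain ⟨⟨u2, v2⟩, hm2, h3, h4⟩ := h2
    simp only at h3 h4
    have c1 := hf _ hm1
    have c2 := hf _ hm2
    simp only at c1 c2
    rw [h3] at c2
    subst h4
    have hv : v1 = v2 := c1.unique c2.symm
    subst hv
    obtain ⟨t, ht, ht1, ht2⟩ := hmax _ _ _ c1
    have n1 := (mem_filter.1 hm1).2.2
    have n2 := (mem_filter.1 hm2).2.2
    simp only [Rm] at n1 n2
    push Not at n1 n2
    have a1 := n1 t ht ht1
    have a2 := n2 t ht ht1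
    tauto
  have hsub : I1 ∪ I2 ⊆ (univ.filter (fun p : V × V => ∃ v, Crit H p.1 v p.2)) := by
    intro p hp
    simp only [hI1, hI2, mem_union, mem_image] at hp
    simp only [mem_filter, mem_univ, true_and]
    rcases hp with ⟨q, hq, rfl⟩ | ⟨q, hq, rfl⟩
    · exact ⟨q.2, hf _ hq⟩
    · exact ⟨q.2, (hf _ hq).symm⟩
  have := card_le_card hsub
  rw [card_union_of_disjoint hdisj, hc1, hc2] at this
  omega

open Classical in
lemma card_cover (H : SimpleGraph V) (hC : CritHyp H) :
    (univ.filter (fun p : V × V => H.Adj p.1 p.2)).card +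
      (univ.filter (fun p : V × V => (∃ w, Crit H p.1 p.2 w) ∧ (∃ w, Crit H p.2 p.1 w))).card ≤
    (univ.filter (fun p : V × V => H.Adj p.1 p.2 ∧ Free H p.1 p.2)).card +
      2 * (univ.filter (fun p : V × V => (∃ w, Crit H p.1 p.2 w))).card := by
  set F := (univ.filter (fun p : V × V => H.Adj p.1 p.2 ∧ Free H p.1 p.2))
  set C := (univ.filter (fun p : V × V => (∃ w, Crit H p.1 p.2 w))) with hCdef
  set C' := (univ.filter (fun p : V × V => (∃ w, Crit H p.2 p.1 w))) with hC'def
  have h1 : (univ.filter (fun p : V × V => H.Adj p.1 p.2)) ⊆ F ∪ (C ∪ C') := by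
    rintro ⟨u, v⟩ hp
    simp only [mem_filter, mem_univ, true_and] at hp
    simp only [F, C, C', mem_union, mem_filter, mem_univ, true_and]
    rcases hC u v hp with h | h | h
    · left; exact ⟨hp, h⟩
    · right; left; exact h
    · right; right; exact h
  have h2 : (univ.filter (fun p : V × V => (∃ w, Crit H p.1 p.2 w) ∧ (∃ w, Crit H p.2 p.1 w)))
      = C ∩ C' := by
    ext p; simp [C, C']
  have h3 : C'.card = C.card := by
    have := card_swap (fun a b => ∃ w, Crit H a b w)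
    convert this
  have h4 := card_le_card h1
  have h5 := card_union_le F (C ∪ C')
  have h6 := card_union_add_card_inter C C'
  rw [h2]
  omega

open Classical in
theorem part1 (ε : ℝ) (hε : 0 < ε) : ∃ n0 : ℕ, ∀ (V : Type) [Fintype V] (H : SimpleGraph V),
    n0 ≤ Fintype.card V → CritHyp H → ∃ H1 : SimpleGraph V, H1 ≤ H ∧
    ((univ.filter (fun p : V × V => H.Adj p.1 p.2 ∧ ¬ H1.Adj p.1 p.2)).card : ℝ) ≤
      ε * (Fintype.card V : ℝ) ^ 2 ∧
    (∀ u v w, Crit H u v w → Free H1 u w) ∧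
    ((univ.filter (fun p : V × V => H.Adj p.1 p.2)).card : ℝ) +
      (univ.filter (fun p : V × V => (∃ w, Crit H p.1 p.2 w) ∧ (∃ w, Crit H p.2 p.1 w))).card ≤
    (univ.filter (fun p : V × V => H.Adj p.1 p.2 ∧ Free H p.1 p.2)).card +
      (univ.filter (fun p : V × V => ∃ v, Crit H p.1 v p.2)).card +
      ε * (Fintype.card V : ℝ) ^ 2 := by
  obtain ⟨n0, hn0⟩ := card_T_small (ε / 4) (by positivity)
  refine ⟨n0, ?_⟩
  intro V _ H hn hC
  obtain ⟨T, hT, hmax⟩ := exists_maxT H
  have hTs := hn0 V H T hn hT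
  refine ⟨cleaned H T, fun x y h => h.1, ?_, ?_, ?_⟩
  · have hsub : (univ.filter (fun p : V × V => H.Adj p.1 p.2 ∧ ¬ (cleaned H T).Adj p.1 p.2)) ⊆
        (univ.filter (fun p : V × V => Rm T p.1 p.2)) ∪
        (univ.filter (fun p : V × V => Rm T p.2 p.1)) := by
      rintro ⟨u, v⟩ hp
      simp only [mem_filter, mem_univ, true_and, mem_union] at hp ⊢
      by_contra hcon
      push Not at hcon
      exact hp.2 ⟨hp.1, hcon.1, hcon.2⟩
    have h1 := card_le_card hsub
    have h2 := card_union_le (univ.filter (fun p : V × V => Rm T p.1 p.2))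
      (univ.filter (fun p : V × V => Rm T p.2 p.1))
    have h3 := card_Rm_le T
    have h4 := card_swap (V := V) (Rm T)
    have h5 : (univ.filter (fun p : V × V => H.Adj p.1 p.2 ∧
        ¬ (cleaned H T).Adj p.1 p.2)).card ≤ 4 * T.card := by omega
    have h6 : ((univ.filter (fun p : V × V => H.Adj p.1 p.2 ∧
        ¬ (cleaned H T).Adj p.1 p.2)).card : ℝ) ≤ 4 * T.card := by exact_mod_cast h5
    linarith
  · intro u v w h z hz
    have hzv : z = v := h.eq_of hz.1.1 hz.2.1
    subst hzv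
    obtain ⟨t, ht, h1, h2⟩ := hmax _ _ _ h
    rcases h2 with h2 | h2 | h2 | h2
    · exact hz.1.2.2 ⟨t, ht, h1, Or.inl h2⟩
    · exact hz.1.2.2 ⟨t, ht, h1, Or.inr h2⟩
    · exact hz.2.2.2 ⟨t, ht, h1, Or.inl h2⟩
    · exact hz.2.2.2 ⟨t, ht, h1, Or.inr h2⟩
  · have h1 := card_S_aux H T hmax
    have h2 := card_cover H hC
    have h3 : (univ.filter (fun p : V × V => (∃ w, Crit H p.1 p.2 w))).card ≤
        (univ.filter (fun p : V × V => (∃ w, Crit H p.1 p.2 w) ∧ ¬ Rm T p.2 p.1)).card +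
        2 * T.card := by
      have hsub : (univ.filter (fun p : V × V => (∃ w, Crit H p.1 p.2 w))) ⊆
          (univ.filter (fun p : V × V => (∃ w, Crit H p.1 p.2 w) ∧ ¬ Rm T p.2 p.1)) ∪
          (univ.filter (fun p : V × V => Rm T p.2 p.1)) := by
        intro p hp
        simp only [mem_filter, mem_univ, true_and, mem_union] at hp ⊢
        by_cases hR : Rm T p.2 p.1
        · right; exact hR
        · left; exact ⟨hp, hR⟩
      have a1 := card_le_card hsub
      have a2 := card_union_le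
        (univ.filter (fun p : V × V => (∃ w, Crit H p.1 p.2 w) ∧ ¬ Rm T p.2 p.1))
        (univ.filter (fun p : V × V => Rm T p.2 p.1))
      have a3 := card_Rm_le T
      have a4 := card_swap (V := V) (Rm T)
      omega
    have h4 : (univ.filter (fun p : V × V => H.Adj p.1 p.2)).card +
      (univ.filter (fun p : V × V => (∃ w, Crit H p.1 p.2 w) ∧ (∃ w, Crit H p.2 p.1 w))).card ≤
      (univ.filter (fun p : V × V => H.Adj p.1 p.2 ∧ Free H p.1 p.2)).card +
      (univ.filter (fun p : V × V => ∃ v, Crit H p.1 v p.2)).card + 4 * T.card := by omega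
    have h5 : ((univ.filter (fun p : V × V => H.Adj p.1 p.2)).card : ℝ) +
      (univ.filter (fun p : V × V => (∃ w, Crit H p.1 p.2 w) ∧ (∃ w, Crit H p.2 p.1 w))).card ≤
      (univ.filter (fun p : V × V => H.Adj p.1 p.2 ∧ Free H p.1 p.2)).card +
      (univ.filter (fun p : V × V => ∃ v, Crit H p.1 v p.2)).card + 4 * T.card := by
      exact_mod_cast h4
    linarith

end

end Pool.Agent.H46
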