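import Pool.Agent.H46.Core

set_option autoImplicit false

open Finset

namespace Pool.Agent.H46

section star

variable {V : Type} [Fintype V]

lemma dg_adj_le_p (K : SimpleGraph V) {x y : V} (h : K.Adj x y) :
    dg K.Adj y univ ≤ dg (fun x z => ¬ Free K x z) x univ := by
  apply dg_mono
  intro z _ hz
  refine ⟨mem_univ _, fun hf => hf y ⟨h, hz.symm⟩⟩

lemma dg_defect (K : SimpleGraph V) {x y : V} (h : K.Adj x y) :
    dg (fun y z => ¬ Free K x z ∧ ¬ K.Adj y z) y univ + dg K.Adj y univ =
      dg (fun x z => ¬ Free K x z) x univ := by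
  classical
  have e1 : dg (fun x z => ¬ Free K x z) x univ =
      (univ.filter (fun z => ¬ Free K x z)).card := dg_eq_card_filter _ _ _
  have e2 : dg (fun y z => ¬ Free K x z ∧ ¬ K.Adj y z) y univ =
      (univ.filter (fun z => ¬ Free K x z ∧ ¬ K.Adj y z)).card := dg_eq_card_filter _ _ _
  have e3 : dg K.Adj y univ = (univ.filter (fun z => ¬ Free K x z ∧ K.Adj y z)).card := by
    rw [dg_eq_card_filter]
    congr 1
    ext z
    simp only [mem_filter, mem_univ, true_and]
    constructor
    · intro hz; exact ⟨fun hf => hf y ⟨h, hz.symm⟩, hz⟩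
    · intro hz; exact hz.2
  rw [e1, e2, e3, ← card_filter_add_card_filter_not
    (s := univ.filter (fun z => ¬ Free K x z)) (fun z => K.Adj y z), filter_filter, filter_filter]
  rw [add_comm]

/-- sum of ratios -/
lemma sum_ratio (K : SimpleGraph V) :
    (cnt K.Adj univ univ : ℝ) ≤
      ∑ x : V, ∑ y : V, (open Classical in if K.Adj x y then
        (dg K.Adj y univ : ℝ) / (dg K.Adj x univ : ℝ) else 0) := by
  classical
  set d : V → ℝ := fun x => (dg K.Adj x univ : ℝ) with hd
  have hpos : ∀ x y, K.Adj x y → 0 < d x := by
    intro x y h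
    simp only [hd]
    exact_mod_cast dg_pos (mem_univ y) h
  have e1 : (cnt K.Adj univ univ : ℝ) = ∑ x : V, ∑ y : V, (if K.Adj x y then (1 : ℝ) else 0) := by
    unfold cnt
    rw [card_filter]
    push_cast
    rw [sum_product]
  have e2 : ∑ x : V, ∑ y : V, (if K.Adj x y then d y / d x else 0) =
      ∑ x : V, ∑ y : V, (if K.Adj x y then d x / d y else 0) := by
    rw [sum_comm]
    congr! 3 with x _ y _
    exact ⟨fun h => h.symm, fun h => h.symm⟩
  have e3 : 2 * (cnt K.Adj univ univ : ℝ) ≤
      ∑ x : V, ∑ y : V, (if K.Adj x y then d y / d x else 0) +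
      ∑ x : V, ∑ y : V, (if K.Adj x y then d x / d y else 0) := by
    rw [e1, mul_sum, ← sum_add_distrib]
    apply sum_le_sum
    intro x _
    rw [mul_sum, ← sum_add_distrib]
    apply sum_le_sum
    intro y _
    by_cases h : K.Adj x y
    · rw [if_pos h, if_pos h, if_pos h]
      have h1 := hpos x y h
      have h2 := hpos y x h.symm
      rw [div_add_div _ _ h1.ne' h2.ne', le_div_iff₀ (by positivity)]
      nlinarith [sq_nonneg (d x - d y)]
    · rw [if_neg h, if_neg h, if_neg h]; simp
  rw [← e2] at e3
  have e4 : (cnt K.Adj univ univ : ℝ) ≤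
      ∑ x : V, ∑ y : V, (if K.Adj x y then d y / d x else 0) := by linarith
  convert e4

/-- total defect -/
noncomputable def defect (K : SimpleGraph V) (x : V) : ℕ :=
  open Classical in
  cnt (fun y z => ¬ Free K x z ∧ ¬ K.Adj y z) (univ.filter (fun y => K.Adj x y)) univ

lemma star (K : SimpleGraph V) :
    (∑ x : V, (defect K x : ℝ)) ≤
      (Fintype.card V : ℝ) * ((cnt (fun x y => ¬ Free K x y) univ univ : ℝ) -
        cnt K.Adj univ univ) := by
  classical
  set d : V → ℝ := fun x => (dg K.Adj x univ : ℝ) with hd
  set p : V → ℝ := fun x => (dg (fun x z => ¬ Free K x z) x univ : ℝ) with hp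
  have hpos : ∀ x y, K.Adj x y → 0 < d x := by
    intro x y h
    simp only [hd]
    exact_mod_cast dg_pos (mem_univ y) h
  have hdn : ∀ x, d x ≤ Fintype.card V := by
    intro x
    simp only [hd]
    exact_mod_cast dg_le_card K.Adj x univ
  have hdp : ∀ x y, K.Adj x y → d y ≤ p x := by
    intro x y h
    simp only [hd, hp]
    exact_mod_cast dg_adj_le_p K h
  have hp0 : ∀ x, 0 ≤ p x := by intro x; simp only [hp]; positivity
  have hdef : ∀ x, (defect K x : ℝ) = ∑ y : V, (if K.Adj x y then p x - d y else 0) := by
    intro x
    unfold defect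
    rw [cnt_eq_sum_left, sum_filter]
    push_cast
    apply sum_congr rfl
    intro y _
    by_cases h : K.Adj x y
    · rw [if_pos h, if_pos h]
      have := dg_defect K h
      have h2 : (dg (fun y z => ¬ Free K x z ∧ ¬ K.Adj y z) y univ : ℝ) + d y = p x := by
        simp only [hd, hp]; exact_mod_cast this
      linarith
    · rw [if_neg h, if_neg h]
  have hx : ∀ x, (defect K x : ℝ) ≤ (Fintype.card V : ℝ) *
      (p x - ∑ y : V, (if K.Adj x y then d y / d x else 0)) := by
    intro x
    rw [hdef]
    have hn0 : (0 : ℝ) ≤ Fintype.card V := by positivity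
    by_cases hx : ∃ y, K.Adj x y
    · obtain ⟨y0, hy0⟩ := hx
      have hdx := hpos x y0 hy0
      have e1 : ∑ y : V, (if K.Adj x y then d y / d x else 0) =
          (∑ y : V, (if K.Adj x y then d y else 0)) / d x := by
        rw [sum_div]
        apply sum_congr rfl
        intro y _
        split_ifs <;> simp
      have e2 : ∑ y : V, (if K.Adj x y then p x - d y else 0) =
          d x * p x - ∑ y : V, (if K.Adj x y then d y else 0) := by
        have : d x * p x = ∑ y : V, (if K.Adj x y then p x else 0) := by
          simp only [hd, dg_eq_card_filter]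
          rw [card_filter]
          push_cast
          rw [sum_mul]
          apply sum_congr rfl
          intro y _
          split_ifs <;> simp
        rw [this, ← sum_sub_distrib]
        apply sum_congr rfl
        intro y _
        split_ifs <;> simp
      have e3 : 0 ≤ ∑ y : V, (if K.Adj x y then p x - d y else 0) := by
        apply sum_nonneg
        intro y _
        split_ifs with h
        · linarith [hdp x y h]
        · exact le_rfl
      set s := ∑ y : V, (if K.Adj x y then d y else 0) with hs
      rw [e1, e2]
      rw [e2] at e3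
      have e4 : d x * p x - s = d x * (p x - s / d x) := by
        field_simp
      rw [e4]
      rw [e4] at e3
      have e5 : 0 ≤ p x - s / d x := by
        by_contra hcon
        push Not at hcon
        have := mul_neg_of_pos_of_neg hdx hcon
        linarith
      exact mul_le_mul_of_nonneg_right (hdn x) e5
    · push Not at hx
      have e1 : ∑ y : V, (if K.Adj x y then p x - d y else 0) = 0 := by
        apply sum_eq_zero; intro y _; rw [if_neg (hx y)]
      have e2 : ∑ y : V, (if K.Adj x y then d y / d x else 0) = 0 := by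
        apply sum_eq_zero; intro y _; rw [if_neg (hx y)]
      rw [e1, e2]
      have := hp0 x
      rw [sub_zero]
      exact mul_nonneg hn0 this
  have hP : (cnt (fun x y => ¬ Free K x y) univ univ : ℝ) = ∑ x : V, p x := by
    rw [cnt_eq_sum_left]
    push_cast
    rfl
  have hr := sum_ratio K
  have hn0 : (0 : ℝ) ≤ Fintype.card V := by positivity
  calc (∑ x : V, (defect K x : ℝ)) ≤ ∑ x : V, (Fintype.card V : ℝ) *
      (p x - ∑ y : V, (if K.Adj x y then d y / d x else 0)) := sum_le_sum fun x _ => hx x
    _ = (Fintype.card V : ℝ) * (∑ x : V, p x - ∑ x : V, ∑ y : V,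
        (if K.Adj x y then d y / d x else 0)) := by
        rw [← mul_sum, sum_sub_distrib]
    _ ≤ _ := by
        apply mul_le_mul_of_nonneg_left _ hn0
        rw [hP]
        apply sub_le_sub_left
        convert hr

lemma adj_le_notFree (K : SimpleGraph V) :
    (cnt K.Adj univ univ : ℝ) ≤ cnt (fun x y => ¬ Free K x y) univ univ := by
  classical
  by_cases hV : Nonempty V
  · have h := star K
    have h1 : 0 ≤ ∑ x : V, (defect K x : ℝ) := sum_nonneg fun x _ => by positivity
    have hn : (0 : ℝ) < Fintype.card V := by exact_mod_cast Fintype.card_pos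
    have h2 := le_trans h1 h
    have h3 := nonneg_of_mul_nonneg_right h2 hn
    linarith
  · rw [not_nonempty_iff] at hV
    simp [cnt]

end star

end Pool.Agent.H46
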