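import Pool.Agent.H46.Part2

set_option autoImplicit false
set_option maxHeartbeats 4000000

open Finset

namespace Pool.Agent.H46

section

open Classical in
/-- ordered triangles at `x` -/
noncomputable def tri {V : Type} [Fintype V] (K : SimpleGraph V) (x : V) : ℕ :=
  cnt K.Adj (univ.filter (fun y => K.Adj x y)) (univ.filter (fun y => K.Adj x y))

theorem no_many_triangles (β : ℝ) (hβ : 0 < β) : ∃ τ : ℝ, 0 < τ ∧
    ∀ (V : Type) [Fintype V] (H K : SimpleGraph V), K ≤ H → 0 < Fintype.card V → CritHyp H →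
    (cnt (fun x y => H.Adj x y ∧ ¬ K.Adj x y) univ univ : ℝ) ≤ τ * (Fintype.card V : ℝ) ^ 2 →
    (∀ u v w, Crit H u v w → Free K u w) →
    ((cnt H.Adj univ univ : ℝ) + cnt (fun u v => Cov H u v ∧ Cov H v u) univ univ ≤
      cnt (fun x y => H.Adj x y ∧ Free H x y) univ univ +
      cnt (fun x y => ∃ v, Crit H x v y) univ univ + τ * (Fintype.card V : ℝ) ^ 2) →
    ((Fintype.card V : ℝ) ^ 2 / 2 - τ * (Fintype.card V : ℝ) ^ 2 ≤ (cnt H.Adj univ univ : ℝ)) →
    (∑ x : V, (tri K x : ℝ)) < β * (Fintype.card V : ℝ) ^ 3 := by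
  classical
  set c0 := β / 2 with hc0
  have hc0pos : 0 < c0 := by positivity
  refine ⟨c0 ^ 3 / 160000, by positivity, ?_⟩
  intro V _ H K hKH hn hC hR hfree hcov hD
  by_contra hcon
  push Not at hcon
  set n : ℝ := (Fintype.card V : ℝ) with hndef
  have hnpos : 0 < n := by rw [hndef]; exact_mod_cast hn
  set τ := c0 ^ 3 / 160000 with hτ
  -- c0 ≤ 1
  have htri_le : ∀ x, (tri K x : ℝ) ≤ n ^ 2 := by
    intro x
    have h1 : tri K x ≤ (univ.filter (fun y => K.Adj x y)).card *
      (univ.filter (fun y => K.Adj x y)).card := cnt_le_mul _ _ _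
    have h2 : (univ.filter (fun y => K.Adj x y)).card ≤ Fintype.card V := card_le_univ _
    have h3 : tri K x ≤ Fintype.card V * Fintype.card V := le_trans h1 (Nat.mul_le_mul h2 h2)
    have h4 : (tri K x : ℝ) ≤ n * n := by rw [hndef]; exact_mod_cast h3
    nlinarith
  have hc01 : c0 ≤ 1 := by
    have h1 : (∑ x : V, (tri K x : ℝ)) ≤ n * n ^ 2 := by
      calc _ ≤ ∑ x : V, n ^ 2 := sum_le_sum fun x _ => htri_le x
        _ = n * n ^ 2 := by simp [hndef]
    have h2 : β * n ^ 3 ≤ 1 * n ^ 3 := by nlinarith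
    have h3 : β ≤ 1 := le_of_mul_le_mul_right h2 (by positivity)
    linarith
  -- splitting
  have hsplit : (cnt (fun x y => ¬ Free K x y) univ univ : ℝ) +
      cnt (fun x y => H.Adj x y ∧ Free H x y) univ univ +
      cnt (fun x y => ∃ v, Crit H x v y) univ univ +
      cnt (fun x y => Free K x y ∧ ¬ (H.Adj x y ∧ Free H x y) ∧ ¬ ∃ v, Crit H x v y) univ univ
      = n ^ 2 := by
    have h1 : cnt (fun _ _ => True) (univ : Finset V) univ = Fintype.card V * Fintype.card V := by
      rw [cnt_eq_mul (by simp)]; simp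
    have h2 := cnt_split (fun _ _ => True) (fun x y => Free K x y) (univ : Finset V) univ
    have h3 := cnt_split (fun x y => Free K x y) (fun x y => H.Adj x y ∧ Free H x y)
      (univ : Finset V) univ
    have h4 := cnt_split (fun x y => Free K x y ∧ ¬ (H.Adj x y ∧ Free H x y))
      (fun x y => ∃ v, Crit H x v y) (univ : Finset V) univ
    have e1 : cnt (fun x y => True ∧ Free K x y) (univ : Finset V) univ =
        cnt (fun x y => Free K x y) univ univ := cnt_congr (by intros; tauto)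
    have e2 : cnt (fun x y => True ∧ ¬ Free K x y) (univ : Finset V) univ =
        cnt (fun x y => ¬ Free K x y) univ univ := cnt_congr (by intros; tauto)
    have e3 : cnt (fun x y => Free K x y ∧ (H.Adj x y ∧ Free H x y)) (univ : Finset V) univ =
        cnt (fun x y => H.Adj x y ∧ Free H x y) univ univ := by
      apply cnt_congr
      intro x _ y _
      constructor
      · intro h; exact h.2
      · intro h; exact ⟨fun z hz => h.2 z ⟨hKH hz.1, hKH hz.2⟩, h⟩
    have e4 : cnt (fun x y => (Free K x y ∧ ¬ (H.Adj x y ∧ Free H x y)) ∧ ∃ v, Crit H x v y)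
        (univ : Finset V) univ = cnt (fun x y => ∃ v, Crit H x v y) univ univ := by
      apply cnt_congr
      intro x _ y _
      constructor
      · intro h; exact h.2
      · rintro ⟨v, hv⟩
        exact ⟨⟨hfree _ _ _ hv, fun h => hv.2.1 h.1⟩, v, hv⟩
    have e5 : cnt (fun x y => (Free K x y ∧ ¬ (H.Adj x y ∧ Free H x y)) ∧ ¬ ∃ v, Crit H x v y)
        (univ : Finset V) univ = cnt (fun x y => Free K x y ∧ ¬ (H.Adj x y ∧ Free H x y) ∧
          ¬ ∃ v, Crit H x v y) univ univ := cnt_congr (by intros; tauto)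
    have h5 : cnt (fun x y => ¬ Free K x y) (univ : Finset V) univ +
      cnt (fun x y => H.Adj x y ∧ Free H x y) univ univ +
      cnt (fun x y => ∃ v, Crit H x v y) univ univ +
      cnt (fun x y => Free K x y ∧ ¬ (H.Adj x y ∧ Free H x y) ∧ ¬ ∃ v, Crit H x v y) univ univ
      = Fintype.card V * Fintype.card V := by omega
    have h6 : ((cnt (fun x y => ¬ Free K x y) (univ : Finset V) univ +
      cnt (fun x y => H.Adj x y ∧ Free H x y) univ univ +
      cnt (fun x y => ∃ v, Crit H x v y) univ univ +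
      cnt (fun x y => Free K x y ∧ ¬ (H.Adj x y ∧ Free H x y) ∧ ¬ ∃ v, Crit H x v y) univ univ
      : ℕ) : ℝ) = ((Fintype.card V * Fintype.card V : ℕ) : ℝ) := by rw [h5]
    push_cast at h6
    rw [← hndef] at h6
    nlinarith
  set P : ℝ := (cnt (fun x y => ¬ Free K x y) univ univ : ℝ) with hP
  set F : ℝ := (cnt (fun x y => H.Adj x y ∧ Free H x y) univ univ : ℝ) with hF
  set CP : ℝ := (cnt (fun x y => ∃ v, Crit H x v y) univ univ : ℝ) with hCP
  set U : ℝ := (cnt (fun x y => Free K x y ∧ ¬ (H.Adj x y ∧ Free H x y) ∧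
    ¬ ∃ v, Crit H x v y) univ univ : ℝ) with hU
  set D : ℝ := (cnt H.Adj univ univ : ℝ) with hDdef
  set D1 : ℝ := (cnt K.Adj univ univ : ℝ) with hD1def
  set Dbl : ℝ := (cnt (fun u v => Cov H u v ∧ Cov H v u) univ univ : ℝ) with hDbl
  set R : ℝ := (cnt (fun x y => H.Adj x y ∧ ¬ K.Adj x y) univ univ : ℝ) with hRdef
  have hD1 : D ≤ D1 + R := by
    have : cnt H.Adj univ univ ≤ cnt K.Adj univ univ +
      cnt (fun x y => H.Adj x y ∧ ¬ K.Adj x y) univ univ := cnt_le_add (by intros; tauto)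
    rw [hDdef, hD1def, hRdef]
    exact_mod_cast this
  have hPD := adj_le_notFree K
  rw [← hP, ← hD1def] at hPD
  have hU0 : 0 ≤ U := by rw [hU]; positivity
  have hDbl0 : 0 ≤ Dbl := by rw [hDbl]; positivity
  have hUD : U + Dbl ≤ 4 * τ * n ^ 2 := by nlinarith
  have hPD1 : P - D1 ≤ 4 * τ * n ^ 2 := by nlinarith
  have hstar := star K
  rw [← hP, ← hD1def, ← hndef] at hstar
  have hdefsum : (∑ x : V, (defect K x : ℝ)) ≤ 4 * τ * n ^ 3 := by
    calc _ ≤ n * (P - D1) := hstar
      _ ≤ n * (4 * τ * n ^ 2) := mul_le_mul_of_nonneg_left hPD1 hnpos.le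
      _ = _ := by ring
  -- choose x0
  set lam : ℝ := 40000 / c0 with hlam
  have hlampos : 0 < lam := by positivity
  have hne : (univ : Finset V).Nonempty := by
    rw [← card_pos, card_univ]; exact hn
  obtain ⟨x0, -, hx0⟩ := exists_le_of_sum_le (s := (univ : Finset V))
    (f := fun x => lam * (defect K x : ℝ) + c0 * n ^ 2) (g := fun x => (tri K x : ℝ)) hne (by
      rw [sum_add_distrib, ← mul_sum]
      have h1 : ∑ x : V, c0 * n ^ 2 = c0 * n ^ 3 := by
        rw [sum_const, card_univ, nsmul_eq_mul, ← hndef]; ring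
      rw [h1]
      have h2 : lam * (∑ x : V, (defect K x : ℝ)) ≤ lam * (4 * τ * n ^ 3) :=
        mul_le_mul_of_nonneg_left hdefsum hlampos.le
      have h3 : lam * (4 * τ * n ^ 3) = c0 ^ 2 * n ^ 3 := by
        rw [hlam, hτ]; field_simp; ring
      have h4 : c0 ^ 2 * n ^ 3 ≤ c0 * n ^ 3 := by
        apply mul_le_mul_of_nonneg_right _ (by positivity)
        nlinarith
      have h5 : β * n ^ 3 = c0 * n ^ 3 + c0 * n ^ 3 := by rw [hc0]; ring
      linarith)
  set C := univ.filter (fun y => K.Adj x0 y ∧ ¬ Free K x0 y) with hCdef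
  set B := univ.filter (fun y => ¬ Free K x0 y) with hBdef
  have hCB : C ⊆ B := by
    intro y hy
    rw [hCdef, mem_filter] at hy
    rw [hBdef, mem_filter]
    exact ⟨hy.1, hy.2.2⟩
  set c : ℝ := (C.card : ℝ) with hc
  have htriC : (tri K x0 : ℝ) ≤ c ^ 2 := by
    have h1 : tri K x0 ≤ cnt (fun _ _ => True) C C := by
      apply cnt_mono
      intro y hy z hz hyz
      rw [mem_filter] at hy hz
      refine ⟨?_, ?_, trivial⟩
      · rw [hCdef, mem_filter]
        exact ⟨mem_univ _, hy.2, fun hf => hf z ⟨hz.2, hyz⟩⟩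
      · rw [hCdef, mem_filter]
        exact ⟨mem_univ _, hz.2, fun hf => hf y ⟨hy.2, hyz.symm⟩⟩
    have h2 := cnt_le_mul (fun _ _ => True) C C
    have h3 : (tri K x0 : ℝ) ≤ c * c := by rw [hc]; exact_mod_cast le_trans h1 h2
    nlinarith
  set f : ℝ := (defect K x0 : ℝ) with hf
  have hf0 : 0 ≤ f := by rw [hf]; positivity
  have hx0' : lam * f + c0 * n ^ 2 ≤ c ^ 2 := le_trans hx0 htriC
  have hc_nonneg : 0 ≤ c := by rw [hc]; positivity
  have hcn : c0 * n ≤ c := by
    have h1 : (c0 * n) ^ 2 ≤ c ^ 2 := by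
      have : 0 ≤ lam * f := by positivity
      have h2 : c0 ^ 2 * n ^ 2 ≤ c0 * n ^ 2 :=
        mul_le_mul_of_nonneg_right (by nlinarith) (by positivity)
      nlinarith
    exact le_of_sq_le_sq h1 hc_nonneg
  have hcpos : 0 < c := lt_of_lt_of_le (by positivity) hcn
  have hnc : n ≤ c / c0 := by rw [le_div_iff₀ hc0pos]; linarith
  have hn2 : n ^ 2 ≤ c ^ 2 / c0 ^ 2 := by
    calc n ^ 2 ≤ (c / c0) ^ 2 := pow_le_pow_left₀ hnpos.le hnc 2
      _ = _ := by rw [div_pow]
  have hn3 : n ^ 3 ≤ c ^ 3 / c0 ^ 3 := by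
    calc n ^ 3 ≤ (c / c0) ^ 3 := pow_le_pow_left₀ hnpos.le hnc 3
      _ = _ := by rw [div_pow]
  have hτn2 : τ * n ^ 2 ≤ c0 * c ^ 2 / 160000 := by
    calc τ * n ^ 2 ≤ τ * (c ^ 2 / c0 ^ 2) := mul_le_mul_of_nonneg_left hn2 (by positivity)
      _ = _ := by rw [hτ]; field_simp
  have hτn3 : τ * n ^ 3 ≤ c ^ 3 / 160000 := by
    calc τ * n ^ 3 ≤ τ * (c ^ 3 / c0 ^ 3) := mul_le_mul_of_nonneg_left hn3 (by positivity)
      _ = _ := by rw [hτ]; field_simp
  have hc0c : c0 * c ^ 2 ≤ c ^ 2 := by nlinarith [sq_nonneg c]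
  have hfc : f ≤ c0 * c ^ 2 / 40000 := by
    have h1 : lam * f ≤ c ^ 2 := by
      have : 0 ≤ c0 * n ^ 2 := by positivity
      linarith
    rw [hlam, div_mul_eq_mul_div, div_le_iff₀ hc0pos] at h1
    linarith
  -- apply core
  apply core H hC C B hCB
  · rw [← card_pos]
    rw [hc] at hcpos
    exact_mod_cast hcpos
  · have h1 : cnt (fun u w => ¬ H.Adj u w) C B ≤ defect K x0 := by
      unfold defect
      apply cnt_mono
      intro y hy z hz hyz
      rw [hCdef, mem_filter] at hy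
      rw [hBdef, mem_filter] at hz
      refine ⟨?_, mem_univ _, hz.2, fun h => hyz (hKH h)⟩
      simpa using hy.2.1
    have h2 : (cnt (fun u w => ¬ H.Adj u w) C B : ℝ) ≤ f := by rw [hf]; exact_mod_cast h1
    rw [← hc]
    linarith
  · -- non critical pairs
    have hCN : ∀ u ∈ C, K.Adj x0 u := by
      intro u hu; rw [hCdef, mem_filter] at hu; exact hu.2.1
    have hBc : ∀ w ∈ Bᶜ, Free K x0 w := by
      intro w hw
      rw [mem_compl, hBdef, mem_filter] at hw
      by_contra hcon'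
      exact hw ⟨mem_univ _, hcon'⟩
    have h1 : cnt (fun u w => ¬ ∃ v, Crit H u v w) C Bᶜ ≤
        cnt (fun u w => ¬ Free K u w) C Bᶜ +
        (cnt (fun x y => Free K x y ∧ ¬ (H.Adj x y ∧ Free H x y) ∧
          ¬ ∃ v, Crit H x v y) univ univ +
        cnt (fun x y => H.Adj x y ∧ ¬ K.Adj x y) univ univ) := by
      have a1 : cnt (fun u w => ¬ ∃ v, Crit H u v w) C Bᶜ ≤
        cnt (fun u w => ¬ Free K u w) C Bᶜ +
        cnt (fun u w => (Free K u w ∧ ¬ (H.Adj u w ∧ Free H u w) ∧
          ¬ ∃ v, Crit H u v w) ∨ (Free K u w ∧ H.Adj u w ∧ Free H u w)) C Bᶜ :=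
        cnt_le_add (by intros; tauto)
      have a2 : cnt (fun u w => (Free K u w ∧ ¬ (H.Adj u w ∧ Free H u w) ∧
          ¬ ∃ v, Crit H u v w) ∨ (Free K u w ∧ H.Adj u w ∧ Free H u w)) C Bᶜ ≤
          cnt (fun u w => (Free K u w ∧ ¬ (H.Adj u w ∧ Free H u w) ∧
          ¬ ∃ v, Crit H u v w)) C Bᶜ +
          cnt (fun u w => (Free K u w ∧ H.Adj u w ∧ Free H u w)) C Bᶜ :=
        cnt_le_add (by intros; tauto)
      have a3 : cnt (fun u w => (Free K u w ∧ ¬ (H.Adj u w ∧ Free H u w) ∧
          ¬ ∃ v, Crit H u v w)) C Bᶜ ≤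
          cnt (fun x y => Free K x y ∧ ¬ (H.Adj x y ∧ Free H x y) ∧
          ¬ ∃ v, Crit H x v y) univ univ :=
        cnt_mono fun x _ y _ h => ⟨mem_univ _, mem_univ _, h⟩
      have a4 : cnt (fun u w => (Free K u w ∧ H.Adj u w ∧ Free H u w)) C Bᶜ ≤
          cnt (fun x y => H.Adj x y ∧ ¬ K.Adj x y) univ univ := by
        apply cnt_mono
        intro x hx y hy h
        refine ⟨mem_univ _, mem_univ _, h.2.1, fun hK => ?_⟩
        exact hBc y hy x ⟨hCN x hx, hK.symm⟩
      omega
    have h2 : (cnt (fun u w => ¬ ∃ v, Crit H u v w) C Bᶜ : ℝ) ≤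
        cnt (fun u w => ¬ Free K u w) C Bᶜ + (U + R) := by
      rw [hU, hRdef]; exact_mod_cast h1
    -- the main count
    have h3 : (cnt (fun u w => ¬ Free K u w) C Bᶜ : ℝ) * c ≤ n * f + 4 * τ * n ^ 3 := by
      have b1 : ∀ u ∈ C, (dg (fun u w => ¬ Free K u w) u Bᶜ : ℝ) * c ≤
          n * (dg (fun u w => ¬ K.Adj u w) u C : ℝ) + (defect K u : ℝ) := by
        intro u hu
        have c1 : (dg (fun u w => ¬ Free K u w) u Bᶜ : ℝ) ≤ n := by
          rw [hndef]
          exact_mod_cast le_trans (dg_le_card _ _ _) (card_le_univ _)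
        have c2 : c = (dg K.Adj u C : ℝ) + (dg (fun u w => ¬ K.Adj u w) u C : ℝ) := by
          rw [hc, ← dg_compl K.Adj u C]; push_cast; rfl
        have c3 : (dg (fun u w => ¬ Free K u w) u Bᶜ : ℝ) * (dg K.Adj u C : ℝ) ≤
            (defect K u : ℝ) := by
          have d1 : (dg K.Adj u C) * (dg (fun u w => ¬ Free K u w) u Bᶜ) ≤ defect K u := by
            unfold defect
            rw [cnt_eq_sum_left]
            calc (dg K.Adj u C) * (dg (fun u w => ¬ Free K u w) u Bᶜ)
                = ∑ y ∈ C.filter (fun y => K.Adj u y), dg (fun u w => ¬ Free K u w) u Bᶜ := by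
                  rw [sum_const, smul_eq_mul, dg_eq_card_filter]
              _ ≤ ∑ y ∈ C.filter (fun y => K.Adj u y),
                  dg (fun y z => ¬ Free K u z ∧ ¬ K.Adj y z) y univ := by
                  apply sum_le_sum
                  intro y hy
                  rw [mem_filter] at hy
                  apply dg_mono
                  intro z hz hfz
                  refine ⟨mem_univ _, hfz, fun hyz => ?_⟩
                  exact hBc z hz y ⟨hCN y hy.1, hyz.symm⟩
              _ ≤ _ := by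
                  apply sum_le_sum_of_subset
                  intro y hy
                  rw [mem_filter] at hy ⊢
                  exact ⟨mem_univ _, hy.2⟩
          have d2 : ((dg K.Adj u C : ℝ)) * (dg (fun u w => ¬ Free K u w) u Bᶜ : ℝ) ≤
            (defect K u : ℝ) := by exact_mod_cast d1
          linarith
        have c4 : (dg (fun u w => ¬ Free K u w) u Bᶜ : ℝ) *
            (dg (fun u w => ¬ K.Adj u w) u C : ℝ) ≤
            n * (dg (fun u w => ¬ K.Adj u w) u C : ℝ) :=
          mul_le_mul_of_nonneg_right c1 (by positivity)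
        calc (dg (fun u w => ¬ Free K u w) u Bᶜ : ℝ) * c
            = (dg (fun u w => ¬ Free K u w) u Bᶜ : ℝ) * (dg K.Adj u C : ℝ) +
              (dg (fun u w => ¬ Free K u w) u Bᶜ : ℝ) *
              (dg (fun u w => ¬ K.Adj u w) u C : ℝ) := by rw [c2]; ring
          _ ≤ _ := by linarith
      have b2 : (cnt (fun u w => ¬ Free K u w) C Bᶜ : ℝ) * c ≤
          n * (cnt (fun u w => ¬ K.Adj u w) C C : ℝ) + ∑ u ∈ C, (defect K u : ℝ) := by
        rw [cnt_eq_sum_left, cnt_eq_sum_left]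
        push_cast
        rw [sum_mul, mul_sum, ← sum_add_distrib]
        exact sum_le_sum b1
      have b3 : (cnt (fun u w => ¬ K.Adj u w) C C : ℝ) ≤ f := by
        have : cnt (fun u w => ¬ K.Adj u w) C C ≤ defect K x0 := by
          unfold defect
          apply cnt_mono
          intro y hy z hz hyz
          rw [hCdef, mem_filter] at hy hz
          refine ⟨by simpa using hy.2.1, mem_univ _, hz.2.2, hyz⟩
        rw [hf]; exact_mod_cast this
      have b4 : ∑ u ∈ C, (defect K u : ℝ) ≤ ∑ u : V, (defect K u : ℝ) :=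
        sum_le_sum_of_subset_of_nonneg (subset_univ _) (fun _ _ _ => by positivity)
      have b5 : n * (cnt (fun u w => ¬ K.Adj u w) C C : ℝ) ≤ n * f :=
        mul_le_mul_of_nonneg_left b3 hnpos.le
      linarith
    have h4 : n * f ≤ c ^ 3 / 40000 := by
      calc n * f ≤ (c / c0) * (c0 * c ^ 2 / 40000) :=
            mul_le_mul hnc hfc hf0 (by positivity)
        _ = _ := by field_simp
    have h5 : (cnt (fun u w => ¬ Free K u w) C Bᶜ : ℝ) * c ≤ (c ^ 2 / 20000) * c := by
      calc _ ≤ n * f + 4 * τ * n ^ 3 := h3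
        _ ≤ c ^ 3 / 40000 + 4 * (c ^ 3 / 160000) := by linarith
        _ = _ := by ring
    have h6 : (cnt (fun u w => ¬ Free K u w) C Bᶜ : ℝ) ≤ c ^ 2 / 20000 :=
      le_of_mul_le_mul_right h5 hcpos
    rw [← hc]
    linarith
  · have h1 : cnt (fun u v => Cov H u v ∧ Cov H v u) C C ≤
        cnt (fun u v => Cov H u v ∧ Cov H v u) univ univ :=
      cnt_mono fun x _ y _ h => ⟨mem_univ _, mem_univ _, h⟩
    have h2 : (cnt (fun u v => Cov H u v ∧ Cov H v u) C C : ℝ) ≤ Dbl := by
      rw [hDbl]; exact_mod_cast h1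
    rw [← hc]
    linarith

end

end Pool.Agent.H46
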