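import Pool.Agent.H46.Stab

set_option autoImplicit false
set_option maxHeartbeats 4000000

open Finset

namespace Pool.Agent.H46

/-- all the structural information obtained after cleaning -/
structure Setup {V : Type} [Fintype V] (H : SimpleGraph V) (A B Z : Finset V) (n : ℝ) : Prop where
  hn : n = (Fintype.card V : ℝ)
  hbig : (10 : ℝ) ^ 8 ≤ n
  crit : CritHyp H
  dAB : Disjoint A B
  dAZ : Disjoint A Z
  dBZ : Disjoint B Z
  cover : ∀ v, v ∈ A ∨ v ∈ B ∨ v ∈ Z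
  ownA : ∀ v ∈ A, (dg H.Adj v A : ℝ) ≤ n / 10 ^ 5
  ownB : ∀ v ∈ B, (dg H.Adj v B : ℝ) ≤ n / 10 ^ 5
  comA : ∀ u ∈ A, ∀ w ∈ A, u ≠ w → 0.35 * n ≤ (dg (fun u z => H.Adj u z ∧ H.Adj w z) u B : ℝ)
  comB : ∀ u ∈ B, ∀ w ∈ B, u ≠ w → 0.35 * n ≤ (dg (fun u z => H.Adj u z ∧ H.Adj w z) u A : ℝ)
  degZ : ∀ w ∈ Z, (dg H.Adj w univ : ℝ) ≤ 0.45 * n
  degAB : ∀ v, v ∉ Z → 0.45 * n ≤ (dg H.Adj v univ : ℝ)
  smallZ : (Z.card : ℝ) ≤ n / 10 ^ 4
  cardA : (A.card : ℝ) ≤ n / 2 + n / 10 ^ 5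
  cardB : (B.card : ℝ) ≤ n / 2 + n / 10 ^ 5
  edges : n ^ 2 / 2 - n ≤ (cnt H.Adj univ univ : ℝ)

variable {V : Type} [Fintype V] {H : SimpleGraph V} {A B Z : Finset V} {n : ℝ}

lemma Setup.swap (h : Setup H A B Z n) : Setup H B A Z n where
  hn := h.hn
  hbig := h.hbig
  crit := h.crit
  dAB := h.dAB.symm
  dAZ := h.dBZ
  dBZ := h.dAZ
  cover := fun v => by rcases h.cover v with h | h | h <;> tauto
  ownA := h.ownB
  ownB := h.ownA
  comA := h.comB
  comB := h.comA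
  degZ := h.degZ
  degAB := h.degAB
  smallZ := h.smallZ
  cardA := h.cardB
  cardB := h.cardA
  edges := h.edges

lemma cnt_singleton_left (r : V → V → Prop) (v : V) (X : Finset V) :
    cnt r {v} X = dg r v X := by
  rw [cnt_eq_sum_left, sum_singleton]

lemma cnt_insert [DecidableEq V] {r : V → V → Prop} (hr : ∀ x y, r x y → r y x) {v : V}
    (hv : ¬ r v v) {X : Finset V} (hvX : v ∉ X) :
    cnt r (insert v X) (insert v X) = cnt r X X + 2 * dg r v X := by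
  have hd : Disjoint ({v} : Finset V) X := by simpa using hvX
  rw [insert_eq, cnt_union_left _ _ hd, cnt_union_right _ _ hd, cnt_union_right _ _ hd,
    cnt_symm hr X {v}, cnt_singleton_left, cnt_singleton_left]
  have : dg r v {v} = 0 := dg_eq_zero (by simpa using hv)
  omega

open Classical in
/-- a partition minimizing the number of inner edges -/
lemma exists_mincut (H : SimpleGraph V) : ∃ A : Finset V,
    (∀ A' : Finset V, cnt H.Adj A A + cnt H.Adj Aᶜ Aᶜ ≤ cnt H.Adj A' A' + cnt H.Adj A'ᶜ A'ᶜ) ∧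
    (∀ v ∈ A, dg H.Adj v A ≤ dg H.Adj v Aᶜ) ∧ (∀ v ∈ Aᶜ, dg H.Adj v Aᶜ ≤ dg H.Adj v A) := by
  obtain ⟨A, -, hA⟩ := (univ : Finset (Finset V)).exists_min_image
    (fun A => cnt H.Adj A A + cnt H.Adj Aᶜ Aᶜ) univ_nonempty
  have hmin : ∀ A' : Finset V, cnt H.Adj A A + cnt H.Adj Aᶜ Aᶜ ≤
      cnt H.Adj A' A' + cnt H.Adj A'ᶜ A'ᶜ := fun A' => hA A' (mem_univ _)
  have key : ∀ A : Finset V, (∀ A' : Finset V, cnt H.Adj A A + cnt H.Adj Aᶜ Aᶜ ≤
      cnt H.Adj A' A' + cnt H.Adj A'ᶜ A'ᶜ) → ∀ v ∈ A, dg H.Adj v A ≤ dg H.Adj v Aᶜ := by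
    intro A hmin v hv
    have h1 := hmin (A.erase v)
    have hc : (A.erase v)ᶜ = insert v Aᶜ := compl_erase
    rw [hc] at h1
    have hloop : ¬ H.Adj v v := H.loopless.irrefl v
    have h2 := cnt_insert (r := H.Adj) (fun _ _ h => h.symm) hloop (v := v) (X := Aᶜ)
      (by simpa using hv)
    have h3 := cnt_insert (r := H.Adj) (fun _ _ h => h.symm) hloop (v := v) (X := A.erase v)
      (by simp)
    rw [insert_erase hv] at h3
    have h4 : dg H.Adj v A ≤ dg H.Adj v (A.erase v) := by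
      apply dg_mono
      intro y hy hvy
      refine ⟨mem_erase.2 ⟨?_, hy⟩, hvy⟩
      rintro rfl
      exact hloop hvy
    omega
  refine ⟨A, hmin, key A hmin, ?_⟩
  have := key Aᶜ (by
    intro A'
    have := hmin A'ᶜ
    rw [compl_compl] at this ⊢
    omega)
  intro v hv
  have h5 := this v hv
  rwa [compl_compl] at h5

end Pool.Agent.H46
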