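import Pool.Agent.H46.Setup

set_option autoImplicit false
set_option maxHeartbeats 4000000

open Finset

namespace Pool.Agent.H46

section
variable {V : Type} {H : SimpleGraph V}

lemma dg_inter (r s : V → V → Prop) (x x' : V) (Y : Finset V) :
    dg r x Y + dg s x' Y ≤ Y.card + dg (fun _ z => r x z ∧ s x' z) x Y := by
  classical
  rw [dg_eq_card_filter, dg_eq_card_filter, dg_eq_card_filter]
  have h := card_union_add_card_inter (Y.filter (fun y => r x y)) (Y.filter (fun y => s x' y))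
  have h1 : ((Y.filter (fun y => r x y)) ∪ (Y.filter (fun y => s x' y))).card ≤ Y.card :=
    card_le_card (union_subset (filter_subset _ _) (filter_subset _ _))
  have h2 : ((Y.filter (fun y => r x y)) ∩ (Y.filter (fun y => s x' y))).card =
      (Y.filter (fun z => r x z ∧ s x' z)).card := by
    rw [← filter_and]
  omega

lemma crit_common_le_one {u v w : V} (h : Crit H u v w) (Y : Finset V) :
    dg (fun u z => H.Adj u z ∧ H.Adj w z) u Y ≤ 1 := by
  by_contra hcon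
  push Not at hcon
  obtain ⟨y, _, y', _, hne, h1, h2⟩ := exists_two_of_dg (Nat.succ_le_of_lt hcon)
  exact hne ((h.eq_of h1.1 h1.2).trans (h.eq_of h2.1 h2.2).symm)

variable [Fintype V]

lemma same_part_crit {X Y : Finset V} {n : ℝ} (hn : n = (Fintype.card V : ℝ))
    (hbig : (10 : ℝ) ^ 12 ≤ n)
    (hM : (cnt (fun x y => ¬ H.Adj x y) X Y : ℝ) ≤ n ^ 2 / 10 ^ 12)
    (hY : 0.49 * n ≤ (Y.card : ℝ)) :
    (cnt (fun u w => ∃ v, Crit H u v w) X X : ℝ) ≤ 10 * n ^ 2 / 10 ^ 12 := by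
  classical
  have hnpos : 0 < n := by linarith
  set low := X.filter (fun v => n / 5 ≤ (dg (fun x y => ¬ H.Adj x y) v Y : ℝ)) with hlow
  have h1 : (low.card : ℝ) * (n / 5) ≤ n ^ 2 / 10 ^ 12 :=
    le_trans (markov (filter_subset _ _) (fun x hx => (mem_filter.1 hx).2)) hM
  have h2 : (low.card : ℝ) ≤ 5 * n / 10 ^ 12 := by
    have h3 : (low.card : ℝ) * (n / 5) ≤ (5 * n / 10 ^ 12) * (n / 5) := by
      calc _ ≤ n ^ 2 / 10 ^ 12 := h1
        _ = _ := by ring
    exact le_of_mul_le_mul_right h3 (by positivity)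
  have h4 : cnt (fun u w => ∃ v, Crit H u v w) X X ≤ cnt (fun u _ => u ∈ low) X X +
      cnt (fun _ w => w ∈ low) X X := by
    apply cnt_le_add
    rintro u hu w hw ⟨v, hv⟩
    by_contra hcon
    push Not at hcon
    have a1 : (dg (fun x y => ¬ H.Adj x y) u Y : ℝ) < n / 5 := by
      by_contra hc; push Not at hc
      exact hcon.1 (mem_filter.2 ⟨hu, hc⟩)
    have a2 : (dg (fun x y => ¬ H.Adj x y) w Y : ℝ) < n / 5 := by
      by_contra hc; push Not at hc
      exact hcon.2 (mem_filter.2 ⟨hw, hc⟩)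
    have b1 := dg_compl H.Adj u Y
    have b2 := dg_compl H.Adj w Y
    have b3 := dg_inter H.Adj H.Adj u w Y
    have b4 := crit_common_le_one hv Y
    have b5 : Y.card ≤ dg (fun x y => ¬ H.Adj x y) u Y + dg (fun x y => ¬ H.Adj x y) w Y + 1 := by
      have : dg (fun _ z => H.Adj u z ∧ H.Adj w z) u Y =
        dg (fun u z => H.Adj u z ∧ H.Adj w z) u Y := rfl
      omega
    have b6 : (Y.card : ℝ) ≤ dg (fun x y => ¬ H.Adj x y) u Y +
      dg (fun x y => ¬ H.Adj x y) w Y + 1 := by exact_mod_cast b5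
    linarith
  have h5 : cnt (fun u _ => u ∈ low) X X ≤ low.card * X.card := by
    refine le_trans (cnt_mono (r' := fun _ _ => True) (X' := low) (Y' := X) ?_) (cnt_le_mul _ _ _)
    intro x hx y hy h; exact ⟨h, hy, trivial⟩
  have h6 : cnt (fun _ w => w ∈ low) X X ≤ X.card * low.card := by
    refine le_trans (cnt_mono (r' := fun _ _ => True) (X' := X) (Y' := low) ?_) (cnt_le_mul _ _ _)
    intro x hx y hy h; exact ⟨hx, h, trivial⟩
  have h7 : (X.card : ℝ) ≤ n := by rw [hn]; exact_mod_cast card_le_univ X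
  have h8 : cnt (fun u w => ∃ v, Crit H u v w) X X ≤ low.card * X.card + X.card * low.card := by
    omega
  have h9 : (cnt (fun u w => ∃ v, Crit H u v w) X X : ℝ) ≤ low.card * X.card +
    X.card * low.card := by exact_mod_cast h8
  have h10 : (low.card : ℝ) * X.card ≤ (5 * n / 10 ^ 12) * n :=
    mul_le_mul h2 h7 (by positivity) (by positivity)
  calc _ ≤ (low.card : ℝ) * X.card + X.card * low.card := h9
    _ = 2 * ((low.card : ℝ) * X.card) := by ring
    _ ≤ 2 * ((5 * n / 10 ^ 12) * n) := by linarith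
    _ = _ := by ring

lemma own_small {X Y : Finset V} {n : ℝ} (hn : n = (Fintype.card V : ℝ))
    (hbig : (10 : ℝ) ^ 12 ≤ n) (hC : CritHyp H)
    (hM : (cnt (fun x y => ¬ H.Adj x y) X Y : ℝ) ≤ n ^ 2 / 10 ^ 12)
    (hCP : (cnt (fun u w => ∃ v, Crit H u v w) univ univ : ℝ) ≤ 22 * n ^ 2 / 10 ^ 12)
    {v : V} (hv : dg H.Adj v X ≤ dg H.Adj v Y) : (dg H.Adj v X : ℝ) ≤ n / 10 ^ 5 := by
  classical
  have hnpos : 0 < n := by linarith
  by_contra hcon
  push Not at hcon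
  have hv' : (dg H.Adj v X : ℝ) ≤ dg H.Adj v Y := by exact_mod_cast hv
  set N1 := X.filter (fun y => H.Adj v y) with hN1
  set N2 := Y.filter (fun y => H.Adj v y) with hN2
  have e1 : (N1.card : ℝ) = dg H.Adj v X := by rw [dg_eq_card_filter]
  have e2 : (N2.card : ℝ) = dg H.Adj v Y := by rw [dg_eq_card_filter]
  have h1 := cnt_compl H.Adj N1 N2
  have h2 : cnt (fun x y => ¬ H.Adj x y) N1 N2 ≤ cnt (fun x y => ¬ H.Adj x y) X Y :=
    cnt_mono fun x hx y hy h => ⟨(mem_filter.1 hx).1, (mem_filter.1 hy).1, h⟩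
  have h3 : cnt H.Adj N1 N2 ≤ cnt (fun x y => ∃ w, Crit H x y w) N1 N2 +
      cnt (fun x y => ∃ w, Crit H y x w) N1 N2 := by
    apply cnt_le_add
    intro x hx y hy hxy
    rcases hC x y hxy with hf | hf | hf
    · exfalso
      exact hf v ⟨(mem_filter.1 hx).2.symm, (mem_filter.1 hy).2.symm⟩
    · left; exact hf
    · right; exact hf
  have h4 : cnt (fun x y => ∃ w, Crit H x y w) N1 N2 ≤
      cnt (fun u w => ∃ v, Crit H u v w) univ univ := by
    apply cnt_le_of_surj (fun p => (p.1, mid H p.1 p.2))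
    rintro x hx y hy ⟨w, hw⟩
    exact ⟨x, mem_univ _, w, mem_univ _, ⟨y, hw⟩, by simp [mid_eq hw]⟩
  have h5 : cnt (fun x y => ∃ w, Crit H y x w) N1 N2 ≤
      cnt (fun u w => ∃ v, Crit H u v w) univ univ := by
    apply cnt_le_of_surj (fun p => (mid H p.1 p.2, p.1))
    rintro x hx y hy ⟨w, hw⟩
    exact ⟨y, mem_univ _, w, mem_univ _, ⟨x, hw⟩, by simp [mid_eq hw]⟩
  have h6 : N1.card * N2.card ≤ cnt (fun x y => ¬ H.Adj x y) X Y +
      2 * cnt (fun u w => ∃ v, Crit H u v w) univ univ := by omega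
  have h7 : (N1.card : ℝ) * N2.card ≤ cnt (fun x y => ¬ H.Adj x y) X Y +
      2 * cnt (fun u w => ∃ v, Crit H u v w) univ univ := by exact_mod_cast h6
  have h8 : (n / 10 ^ 5) * (n / 10 ^ 5) ≤ (N1.card : ℝ) * N2.card := by
    apply mul_le_mul
    · rw [e1]; exact hcon.le
    · rw [e2]; linarith
    · positivity
    · positivity
  have h9 : 0 < n ^ 2 := by positivity
  have h10 : (n / 10 ^ 5) * (n / 10 ^ 5) = 100 * n ^ 2 / 10 ^ 12 := by ring
  rw [h10] at h8
  linarith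

lemma Z_part_small {X Y Z : Finset V} {n : ℝ} (hnpos : 0 < n)
    (hM : (cnt (fun x y => ¬ H.Adj x y) X Y : ℝ) ≤ n ^ 2 / 10 ^ 12)
    (hY : 0.49 * n ≤ (Y.card : ℝ)) (hZX : Z ⊆ X)
    (hZ : ∀ v ∈ Z, (dg H.Adj v univ : ℝ) ≤ 0.45 * n) : (Z.card : ℝ) ≤ 25 * n / 10 ^ 12 := by
  have h1 : (Z.card : ℝ) * (0.04 * n) ≤ n ^ 2 / 10 ^ 12 := by
    refine le_trans (markov hZX ?_) hM
    intro v hv
    have b1 := dg_compl H.Adj v Y
    have b2 : dg H.Adj v Y ≤ dg H.Adj v univ := dg_mono fun y _ h => ⟨mem_univ _, h⟩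
    have b3 := hZ v hv
    have b4 : (dg H.Adj v Y : ℝ) + dg (fun x y => ¬ H.Adj x y) v Y = Y.card := by
      exact_mod_cast b1
    have b5 : (dg H.Adj v Y : ℝ) ≤ dg H.Adj v univ := by exact_mod_cast b2
    linarith
  have h3 : (Z.card : ℝ) * (0.04 * n) ≤ (25 * n / 10 ^ 12) * (0.04 * n) := by
    calc _ ≤ n ^ 2 / 10 ^ 12 := h1
      _ = _ := by ring
  exact le_of_mul_le_mul_right h3 (by positivity)

lemma com_large {X Y Y' Z : Finset V} {n : ℝ} (hnpos : 0 < n)
    (hY : (Y.card : ℝ) ≤ n / 2 + n / 10 ^ 6) (hY' : ∀ y ∈ Y, y ∉ Z → y ∈ Y')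
    (hZ : (Z.card : ℝ) ≤ n / 10 ^ 4) {u w : V}
    (hu : 0.45 * n ≤ (dg H.Adj u univ : ℝ)) (hw : 0.45 * n ≤ (dg H.Adj w univ : ℝ))
    (hu1 : (dg H.Adj u X : ℝ) ≤ n / 10 ^ 5) (hw1 : (dg H.Adj w X : ℝ) ≤ n / 10 ^ 5)
    (hXY : ∀ z, z ∈ X ∨ z ∈ Y) :
    0.35 * n ≤ (dg (fun u z => H.Adj u z ∧ H.Adj w z) u Y' : ℝ) := by
  classical
  have key : ∀ v, dg H.Adj v univ ≤ dg H.Adj v X + dg H.Adj v Y := by
    intro v
    rw [dg_eq_card_filter, dg_eq_card_filter, dg_eq_card_filter]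
    refine le_trans (card_le_card ?_) (card_union_le _ _)
    intro z hz
    rw [mem_filter] at hz
    rw [mem_union, mem_filter, mem_filter]
    rcases hXY z with h | h
    · left; exact ⟨h, hz.2⟩
    · right; exact ⟨h, hz.2⟩
  have k1 : (dg H.Adj u univ : ℝ) ≤ dg H.Adj u X + dg H.Adj u Y := by exact_mod_cast key u
  have k2 : (dg H.Adj w univ : ℝ) ≤ dg H.Adj w X + dg H.Adj w Y := by exact_mod_cast key w
  have k3 := dg_inter H.Adj H.Adj u w Y
  have k3' : (dg H.Adj u Y : ℝ) + dg H.Adj w Y ≤ Y.card +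
    dg (fun u z => H.Adj u z ∧ H.Adj w z) u Y := by exact_mod_cast k3
  have k4 : dg (fun u z => H.Adj u z ∧ H.Adj w z) u Y ≤
      dg (fun u z => H.Adj u z ∧ H.Adj w z) u Y' + Z.card := by
    rw [dg_eq_card_filter, dg_eq_card_filter]
    refine le_trans (card_le_card ?_) (card_union_le _ _)
    intro z hz
    rw [mem_filter] at hz
    rw [mem_union, mem_filter]
    by_cases hzZ : z ∈ Z
    · right; exact hzZ
    · left; exact ⟨hY' z hz.1 hzZ, hz.2⟩
  have k4' : (dg (fun u z => H.Adj u z ∧ H.Adj w z) u Y : ℝ) ≤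
      dg (fun u z => H.Adj u z ∧ H.Adj w z) u Y' + Z.card := by exact_mod_cast k4
  linarith

theorem exists_setup : ∃ n0 : ℕ, ∀ (V : Type) [Fintype V] (H : SimpleGraph V),
    n0 ≤ Fintype.card V → CritHyp H →
    ((Fintype.card V : ℝ) ^ 2 / 2 - (Fintype.card V : ℝ) ≤ (cnt H.Adj univ univ : ℝ)) →
    ∃ A B Z : Finset V, Setup H A B Z (Fintype.card V : ℝ) := by
  classical
  obtain ⟨n1, hn1⟩ := stability (1 / 10 ^ 12) (by positivity)
  refine ⟨max n1 (10 ^ 12), ?_⟩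
  intro V _ H hn hC hD
  have hnn1 : n1 ≤ Fintype.card V := le_trans (le_max_left _ _) hn
  have hbig : (10 : ℝ) ^ 12 ≤ (Fintype.card V : ℝ) := by
    have : 10 ^ 12 ≤ Fintype.card V := le_trans (le_max_right _ _) hn
    exact_mod_cast this
  set n : ℝ := (Fintype.card V : ℝ) with hndef
  have hnpos : 0 < n := by linarith
  obtain ⟨A', hA'⟩ := hn1 V H hnn1 hC hD
  obtain ⟨A0, hmin, hcutA, hcutB⟩ := exists_mincut H
  set B0 := A0ᶜ with hB0
  have hinn : (cnt H.Adj A0 A0 : ℝ) + cnt H.Adj B0 B0 ≤ n ^ 2 / 10 ^ 12 := by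
    have h1 := hmin A'
    have h2 : (cnt H.Adj A0 A0 : ℝ) + cnt H.Adj B0 B0 ≤ cnt H.Adj A' A' + cnt H.Adj A'ᶜ A'ᶜ := by
      rw [hB0]; exact_mod_cast h1
    rw [← hndef] at hA'
    have hA'' : (cnt H.Adj A' A' : ℝ) + cnt H.Adj A'ᶜ A'ᶜ ≤ 1 / 10 ^ 12 * n ^ 2 := by
      convert hA'
    calc _ ≤ _ := h2
      _ ≤ _ := hA''
      _ = _ := by ring
  have hdisj : Disjoint A0 B0 := disjoint_compl_right
  have hun : A0 ∪ B0 = univ := union_compl A0
  have hcards : (A0.card : ℝ) + B0.card = n := by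
    rw [hndef]; exact_mod_cast card_add_card_compl A0
  set a : ℝ := (A0.card : ℝ) with ha
  set b : ℝ := (B0.card : ℝ) with hb
  have hsplit : cnt H.Adj univ univ = cnt H.Adj A0 A0 + cnt H.Adj B0 B0 + 2 * cnt H.Adj A0 B0 := by
    have h1 : cnt H.Adj univ univ = cnt H.Adj A0 univ + cnt H.Adj B0 univ := by
      conv_lhs => rw [← hun]
      rw [cnt_union_left _ _ hdisj, hun]
    have h2 : cnt H.Adj A0 univ = cnt H.Adj A0 A0 + cnt H.Adj A0 B0 := by
      rw [← cnt_union_right _ _ hdisj, hun]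
    have h3 : cnt H.Adj B0 univ = cnt H.Adj B0 A0 + cnt H.Adj B0 B0 := by
      rw [← cnt_union_right _ _ hdisj, hun]
    have h5 : cnt H.Adj A0 B0 = cnt H.Adj B0 A0 := cnt_symm (fun _ _ h => h.symm) _ _
    omega
  have hcompl := cnt_compl H.Adj A0 B0
  set M : ℝ := (cnt (fun x y => ¬ H.Adj x y) A0 B0 : ℝ) with hMdef
  have hM0 : 0 ≤ M := by rw [hMdef]; positivity
  have hsplit' : (cnt H.Adj univ univ : ℝ) = cnt H.Adj A0 A0 + cnt H.Adj B0 B0 +
    2 * cnt H.Adj A0 B0 := by exact_mod_cast hsplit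
  have hcompl' : (cnt H.Adj A0 B0 : ℝ) + M = a * b := by
    rw [hMdef, ha, hb]; exact_mod_cast hcompl
  have hnn : n ≤ n ^ 2 / 10 ^ 12 := by
    rw [le_div_iff₀ (by positivity)]
    nlinarith
  have hquad : 2 * M + (a - b) ^ 2 / 2 ≤ 2 * (n ^ 2 / 10 ^ 12) := by
    have h1 : 2 * (a * b) = n ^ 2 / 2 - (a - b) ^ 2 / 2 := by rw [← hcards]; ring
    linarith
  have hM : M ≤ n ^ 2 / 10 ^ 12 := by nlinarith [sq_nonneg (a - b)]
  have hab : (a - b) ^ 2 ≤ (2 * n / 10 ^ 6) ^ 2 := by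
    have : (2 * n / 10 ^ 6) ^ 2 = 4 * (n ^ 2 / 10 ^ 12) := by ring
    rw [this]
    linarith
  have hab' := abs_le_of_sq_le_sq' hab (by positivity)
  have haub : a ≤ n / 2 + n / 10 ^ 6 := by linarith [hab'.2]
  have hbub : b ≤ n / 2 + n / 10 ^ 6 := by linarith [hab'.1]
  have halb : 0.49 * n ≤ a := by linarith
  have hblb : 0.49 * n ≤ b := by linarith
  have hMsw : (cnt (fun x y => ¬ H.Adj x y) B0 A0 : ℝ) ≤ n ^ 2 / 10 ^ 12 := by
    have : cnt (fun x y => ¬ H.Adj x y) B0 A0 = cnt (fun x y => ¬ H.Adj x y) A0 B0 :=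
      cnt_symm (fun _ _ h h' => h h'.symm) _ _
    rw [this]; exact hM
  have hCPA := same_part_crit (H := H) hndef hbig hM hblb
  have hCPB := same_part_crit (H := H) hndef hbig hMsw halb
  have hCP : (cnt (fun u w => ∃ v, Crit H u v w) univ univ : ℝ) ≤ 22 * n ^ 2 / 10 ^ 12 := by
    have h1 : cnt (fun u w => ∃ v, Crit H u v w) univ univ =
        cnt (fun u w => ∃ v, Crit H u v w) A0 univ + cnt (fun u w => ∃ v, Crit H u v w) B0 univ := by
      conv_lhs => rw [← hun]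
      rw [cnt_union_left _ _ hdisj, hun]
    have h2 : cnt (fun u w => ∃ v, Crit H u v w) A0 univ =
        cnt (fun u w => ∃ v, Crit H u v w) A0 A0 + cnt (fun u w => ∃ v, Crit H u v w) A0 B0 := by
      rw [← cnt_union_right _ _ hdisj, hun]
    have h3 : cnt (fun u w => ∃ v, Crit H u v w) B0 univ =
        cnt (fun u w => ∃ v, Crit H u v w) B0 A0 + cnt (fun u w => ∃ v, Crit H u v w) B0 B0 := by
      rw [← cnt_union_right _ _ hdisj, hun]
    have h4 : cnt (fun u w => ∃ v, Crit H u v w) A0 B0 ≤ cnt (fun x y => ¬ H.Adj x y) A0 B0 :=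
      cnt_mono fun x hx y hy ⟨v, h⟩ => ⟨hx, hy, h.2.1⟩
    have h5 : cnt (fun u w => ∃ v, Crit H u v w) B0 A0 ≤ cnt (fun x y => ¬ H.Adj x y) B0 A0 :=
      cnt_mono fun x hx y hy ⟨v, h⟩ => ⟨hx, hy, h.2.1⟩
    have h6 : cnt (fun u w => ∃ v, Crit H u v w) univ univ ≤
      cnt (fun u w => ∃ v, Crit H u v w) A0 A0 + cnt (fun u w => ∃ v, Crit H u v w) B0 B0 +
      cnt (fun x y => ¬ H.Adj x y) A0 B0 + cnt (fun x y => ¬ H.Adj x y) B0 A0 := by omega
    have h7 : (cnt (fun u w => ∃ v, Crit H u v w) univ univ : ℝ) ≤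
      cnt (fun u w => ∃ v, Crit H u v w) A0 A0 + cnt (fun u w => ∃ v, Crit H u v w) B0 B0 +
      cnt (fun x y => ¬ H.Adj x y) A0 B0 + cnt (fun x y => ¬ H.Adj x y) B0 A0 := by
      exact_mod_cast h6
    have h8 : (cnt (fun x y => ¬ H.Adj x y) A0 B0 : ℝ) ≤ n ^ 2 / 10 ^ 12 := hM
    linarith
  have hownA : ∀ v ∈ A0, (dg H.Adj v A0 : ℝ) ≤ n / 10 ^ 5 := fun v hv =>
    own_small hndef hbig hC hM hCP (hcutA v hv)
  have hownB : ∀ v ∈ B0, (dg H.Adj v B0 : ℝ) ≤ n / 10 ^ 5 := fun v hv =>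
    own_small hndef hbig hC hMsw hCP (hcutB v hv)
  set Z := univ.filter (fun v => (dg H.Adj v univ : ℝ) < 0.45 * n) with hZ
  have hZmem : ∀ v, v ∈ Z ↔ (dg H.Adj v univ : ℝ) < 0.45 * n := by
    intro v; rw [hZ, mem_filter]; simp
  have hZsmall : (Z.card : ℝ) ≤ n / 10 ^ 4 := by
    have h1 := Z_part_small (H := H) (Z := A0 ∩ Z) hnpos hM hblb inter_subset_left
      (fun v hv => ((hZmem v).1 (mem_inter.1 hv).2).le)
    have h2 := Z_part_small (H := H) (Z := B0 ∩ Z) hnpos hMsw halb inter_subset_left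
      (fun v hv => ((hZmem v).1 (mem_inter.1 hv).2).le)
    have h3 : Z.card ≤ (A0 ∩ Z).card + (B0 ∩ Z).card := by
      refine le_trans (card_le_card ?_) (card_union_le _ _)
      intro v hv
      rw [mem_union, mem_inter, mem_inter]
      by_cases hvA : v ∈ A0
      · left; exact ⟨hvA, hv⟩
      · right; exact ⟨by rw [hB0, mem_compl]; exact hvA, hv⟩
    have h4 : (Z.card : ℝ) ≤ (A0 ∩ Z).card + (B0 ∩ Z).card := by exact_mod_cast h3
    linarith
  refine ⟨A0 \ Z, B0 \ Z, Z, ?_⟩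
  refine
    { hn := hndef
      hbig := by
        have : (10 : ℝ) ^ 8 ≤ 10 ^ 12 := by norm_num
        linarith
      crit := hC
      dAB := disjoint_of_subset_left sdiff_subset (disjoint_of_subset_right sdiff_subset hdisj)
      dAZ := sdiff_disjoint
      dBZ := sdiff_disjoint
      cover := ?_
      ownA := ?_
      ownB := ?_
      comA := ?_
      comB := ?_
      degZ := fun v hv => ((hZmem v).1 hv).le
      degAB := ?_
      smallZ := hZsmall
      cardA := ?_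
      cardB := ?_
      edges := hD }
  · intro v
    by_cases hvZ : v ∈ Z
    · right; right; exact hvZ
    by_cases hvA : v ∈ A0
    · left; exact mem_sdiff.2 ⟨hvA, hvZ⟩
    · right; left; exact mem_sdiff.2 ⟨by rw [hB0, mem_compl]; exact hvA, hvZ⟩
  · intro v hv
    have h1 := hownA v (mem_sdiff.1 hv).1
    have h2 : dg H.Adj v (A0 \ Z) ≤ dg H.Adj v A0 :=
      dg_mono fun y hy h => ⟨(mem_sdiff.1 hy).1, h⟩
    have h3 : (dg H.Adj v (A0 \ Z) : ℝ) ≤ dg H.Adj v A0 := by exact_mod_cast h2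
    linarith
  · intro v hv
    have h1 := hownB v (mem_sdiff.1 hv).1
    have h2 : dg H.Adj v (B0 \ Z) ≤ dg H.Adj v B0 :=
      dg_mono fun y hy h => ⟨(mem_sdiff.1 hy).1, h⟩
    have h3 : (dg H.Adj v (B0 \ Z) : ℝ) ≤ dg H.Adj v B0 := by exact_mod_cast h2
    linarith
  · intro u hu w hw _
    rw [mem_sdiff] at hu hw
    refine com_large (X := A0) (Y := B0) (Z := Z) hnpos hbub
      (fun y hy hyZ => mem_sdiff.2 ⟨hy, hyZ⟩) hZsmall ?_ ?_ (hownA u hu.1) (hownA w hw.1) ?_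
    · have := hu.2; rw [hZmem] at this; push Not at this; exact this
    · have := hw.2; rw [hZmem] at this; push Not at this; exact this
    · intro z
      by_cases hz : z ∈ A0
      · left; exact hz
      · right; rw [hB0, mem_compl]; exact hz
  · intro u hu w hw _
    rw [mem_sdiff] at hu hw
    refine com_large (X := B0) (Y := A0) (Z := Z) hnpos haub
      (fun y hy hyZ => mem_sdiff.2 ⟨hy, hyZ⟩) hZsmall ?_ ?_ (hownB u hu.1) (hownB w hw.1) ?_
    · have := hu.2; rw [hZmem] at this; push Not at this; exact this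
    · have := hw.2; rw [hZmem] at this; push Not at this; exact this
    · intro z
      by_cases hz : z ∈ A0
      · right; exact hz
      · left; rw [hB0, mem_compl]; exact hz
  · intro v hv
    rw [hZmem] at hv; push Not at hv; exact hv
  · have h1 : (A0 \ Z).card ≤ A0.card := card_le_card sdiff_subset
    have h2 : ((A0 \ Z).card : ℝ) ≤ a := by rw [ha]; exact_mod_cast h1
    linarith
  · have h1 : (B0 \ Z).card ≤ B0.card := card_le_card sdiff_subset
    have h2 : ((B0 \ Z).card : ℝ) ≤ b := by rw [hb]; exact_mod_cast h1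
    linarith

end

end Pool.Agent.H46
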