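import Pool.Agent.H46.Part1
import Pool.Agent.H46.Part2b

set_option autoImplicit false
set_option maxHeartbeats 4000000

open Finset

namespace Pool.Agent.H46

section
variable {V : Type} [Fintype V]

lemma cnt_eq_twice (K : SimpleGraph V) [DecidableRel K.Adj] [DecidableEq V] :
    cnt K.Adj univ univ = 2 * K.edgeFinset.card := by
  rw [← K.sum_degrees_eq_twice_card_edges, cnt_eq_sum_left]
  apply sum_congr rfl
  intro x _
  rw [dg_eq_card_filter, ← SimpleGraph.card_neighborFinset_eq_degree,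
    SimpleGraph.neighborFinset_eq_filter]

open Classical in
lemma card_cliqueFinset_le_tri (K : SimpleGraph V) :
    (K.cliqueFinset 3).card ≤ ∑ x : V, tri K x := by
  have h1 : ∑ x : V, tri K x =
      (univ.filter (fun t : V × V × V => K.Adj t.1 t.2.1 ∧ K.Adj t.1 t.2.2 ∧
        K.Adj t.2.1 t.2.2)).card := by
    rw [card_filter]
    rw [← univ_product_univ, sum_product]
    apply sum_congr rfl
    intro x _
    unfold tri cnt
    rw [card_filter, ← filter_product, sum_filter, ← univ_product_univ]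
    apply sum_congr rfl
    intro y _
    by_cases h1 : K.Adj x y.1 <;> by_cases h2 : K.Adj x y.2 <;> by_cases h3 : K.Adj y.1 y.2 <;>
      simp [h1, h2, h3]
  rw [h1]
  refine le_trans (card_le_card (t := (univ.filter (fun t : V × V × V => K.Adj t.1 t.2.1 ∧
    K.Adj t.1 t.2.2 ∧ K.Adj t.2.1 t.2.2)).image (fun t => {t.1, t.2.1, t.2.2})) ?_) card_image_le
  intro s hs
  rw [SimpleGraph.mem_cliqueFinset_iff, SimpleGraph.is3Clique_iff] at hs
  obtain ⟨a, b, c, hab, hac, hbc, rfl⟩ := hs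
  rw [mem_image]
  exact ⟨(a, b, c), by simp [hab, hac, hbc], rfl⟩

/-- stability of Mantel's theorem for triangle-free graphs -/
lemma mantel_stab (K : SimpleGraph V) (hK : K.CliqueFree 3) (hne : Nonempty V) :
    ∃ A : Finset V, (∀ x ∈ A, ∀ y ∈ A, ¬ K.Adj x y) ∧
      (open Classical in 2 * cnt K.Adj univ univ + 2 * cnt K.Adj Aᶜ Aᶜ ≤
        (Fintype.card V) ^ 2) := by
  classical
  obtain ⟨x, -, hx⟩ := (univ : Finset V).exists_max_image (fun v => dg K.Adj v univ)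
    univ_nonempty
  set A := univ.filter (fun y => K.Adj x y) with hA
  have hind : ∀ y ∈ A, ∀ z ∈ A, ¬ K.Adj y z := by
    intro y hy z hz hyz
    rw [hA, mem_filter] at hy hz
    have : K.IsNClique 3 {x, y, z} := by
      rw [SimpleGraph.is3Clique_triple_iff]
      exact ⟨hy.2, hz.2, hyz⟩
    exact hK _ this
  refine ⟨A, hind, ?_⟩
  have hAcard : A.card = dg K.Adj x univ := by rw [dg_eq_card_filter]
  have hdisj : Disjoint A Aᶜ := disjoint_compl_right
  have hun : A ∪ Aᶜ = univ := union_compl A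
  have h1 : cnt K.Adj univ univ = cnt K.Adj A univ + cnt K.Adj Aᶜ univ := by
    conv_lhs => rw [← hun]
    rw [cnt_union_left _ _ hdisj, hun]
  have h2 : cnt K.Adj A univ = cnt K.Adj A A + cnt K.Adj A Aᶜ := by
    rw [← cnt_union_right _ _ hdisj, hun]
  have h3 : cnt K.Adj Aᶜ univ = cnt K.Adj Aᶜ A + cnt K.Adj Aᶜ Aᶜ := by
    rw [← cnt_union_right _ _ hdisj, hun]
  have h4 : cnt K.Adj A A = 0 := cnt_eq_zero hind
  have h5 : cnt K.Adj A Aᶜ = cnt K.Adj Aᶜ A := cnt_symm (fun _ _ h => h.symm) _ _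
  have h6 : cnt K.Adj Aᶜ univ ≤ Aᶜ.card * A.card := by
    rw [cnt_eq_sum_left, ← smul_eq_mul, ← sum_const]
    apply sum_le_sum
    intro y _
    rw [hAcard]
    exact hx y (mem_univ _)
  have h7 : A.card + Aᶜ.card = Fintype.card V := card_add_card_compl A
  have h8 : 4 * (Aᶜ.card * A.card) ≤ (Fintype.card V) ^ 2 := by
    rw [← h7]
    have h9 : (4 * (Aᶜ.card * A.card) : ℤ) ≤ (A.card + Aᶜ.card) ^ 2 := by
      nlinarith [sq_nonneg ((A.card : ℤ) - Aᶜ.card)]
    exact_mod_cast h9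
  have h10 : 2 * cnt K.Adj univ univ + 2 * cnt K.Adj Aᶜ Aᶜ = 4 * cnt K.Adj Aᶜ univ := by omega
  have h11 : 2 * cnt K.Adj univ univ + 2 * cnt K.Adj Aᶜ Aᶜ ≤ (Fintype.card V) ^ 2 := by
    rw [h10]
    calc 4 * cnt K.Adj Aᶜ univ ≤ 4 * (Aᶜ.card * A.card) := Nat.mul_le_mul_left _ h6
      _ ≤ _ := h8
  convert h11

theorem stability (ε : ℝ) (hε : 0 < ε) : ∃ n0 : ℕ, ∀ (V : Type) [Fintype V] (H : SimpleGraph V),
    n0 ≤ Fintype.card V → CritHyp H →
    ((Fintype.card V : ℝ) ^ 2 / 2 - (Fintype.card V : ℝ) ≤ (cnt H.Adj univ univ : ℝ)) →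
    ∃ A : Finset V, (open Classical in (cnt H.Adj A A : ℝ) + cnt H.Adj Aᶜ Aᶜ ≤
      ε * (Fintype.card V : ℝ) ^ 2) := by
  classical
  set ε' := ε / 32 with hε'
  have hε'pos : 0 < ε' := by positivity
  set β := SimpleGraph.triangleRemovalBound ε' with hβ
  have hβpos : 0 < β := SimpleGraph.triangleRemovalBound_pos hε'pos
  obtain ⟨τ, hτ, hmain⟩ := no_many_triangles β hβpos
  set τ' := min τ (ε / 8) with hτ'
  have hτ'pos : 0 < τ' := lt_min hτ (by positivity)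
  obtain ⟨n1, hn1⟩ := part1 τ' hτ'pos
  obtain ⟨n2, hn2⟩ := exists_nat_gt (1 / τ')
  refine ⟨max (n1 + 1) (n2 + 1), ?_⟩
  intro V _ H hn hC hD
  have hnn1 : n1 ≤ Fintype.card V := by
    have := le_trans (le_max_left _ _) hn
    omega
  have hnn2 : n2 ≤ Fintype.card V := by
    have := le_trans (le_max_right _ _) hn
    omega
  have hVpos : 0 < Fintype.card V := by
    have := le_trans (le_max_left _ _) hn
    omega
  have hVne : Nonempty V := Fintype.card_pos_iff.1 hVpos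
  set n : ℝ := (Fintype.card V : ℝ) with hndef
  have hnpos : 0 < n := by rw [hndef]; exact_mod_cast hVpos
  have hnτ : n ≤ τ' * n ^ 2 := by
    have h1 : 1 / τ' < n := lt_of_lt_of_le hn2 (by rw [hndef]; exact_mod_cast hnn2)
    rw [div_lt_iff₀ hτ'pos] at h1
    nlinarith
  obtain ⟨K, hKH, hR, hfree, hcov⟩ := hn1 V H hnn1 hC
  rw [← hndef] at hR hcov
  have hτle : τ' ≤ τ := min_le_left _ _
  have hτle2 : τ' ≤ ε / 8 := min_le_right _ _
  have hn2pos : 0 < n ^ 2 := by positivity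
  have hR' : (cnt (fun x y => H.Adj x y ∧ ¬ K.Adj x y) univ univ : ℝ) ≤ τ' * n ^ 2 := by
    unfold cnt
    rw [univ_product_univ]
    convert hR
  have hcov' : ((cnt H.Adj univ univ : ℝ) + cnt (fun u v => Cov H u v ∧ Cov H v u) univ univ ≤
      cnt (fun x y => H.Adj x y ∧ Free H x y) univ univ +
      cnt (fun x y => ∃ v, Crit H x v y) univ univ + τ' * n ^ 2) := by
    unfold cnt Cov
    rw [univ_product_univ]
    convert hcov
  have hττ : τ' * n ^ 2 ≤ τ * n ^ 2 := mul_le_mul_of_nonneg_right hτle hn2pos.le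
  have htri := hmain V H K hKH hVpos hC (by rw [← hndef]; linarith) hfree
    (by rw [← hndef]; linarith) (by rw [← hndef]; linarith)
  rw [← hndef] at htri
  have hnotfar : ¬ K.FarFromTriangleFree ε' := by
    intro hfar
    have h1 := hfar.le_card_cliqueFinset
    have h2 := card_cliqueFinset_le_tri K
    have h3 : ((K.cliqueFinset 3).card : ℝ) ≤ ∑ x : V, (tri K x : ℝ) := by exact_mod_cast h2
    rw [← hndef, ← hβ] at h1
    linarith
  rw [SimpleGraph.farFromTriangleFree_iff] at hnotfar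
  push Not at hnotfar
  obtain ⟨K2, _, hK2K, hK2free, hlt⟩ := hnotfar
  obtain ⟨A, hAind, hA⟩ := mantel_stab K2 hK2free hVne
  refine ⟨A, ?_⟩
  have e1 := cnt_eq_twice K
  have e2 := cnt_eq_twice K2
  have e1' : (cnt K.Adj univ univ : ℝ) = 2 * K.edgeFinset.card := by rw [e1]; push_cast; rfl
  have e2' : (cnt K2.Adj univ univ : ℝ) = 2 * K2.edgeFinset.card := by rw [e2]; push_cast; rfl
  have hlt' : (K.edgeFinset.card : ℝ) - K2.edgeFinset.card < ε' * n ^ 2 := by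
    have : ((Fintype.card V ^ 2 : ℕ) : ℝ) = n ^ 2 := by rw [hndef]; push_cast; rfl
    rw [this] at hlt
    convert hlt
  have e3 : cnt H.Adj univ univ ≤ cnt K.Adj univ univ +
      cnt (fun x y => H.Adj x y ∧ ¬ K.Adj x y) univ univ := cnt_le_add (by intros; tauto)
  have e3' : (cnt H.Adj univ univ : ℝ) ≤ cnt K.Adj univ univ +
      cnt (fun x y => H.Adj x y ∧ ¬ K.Adj x y) univ univ := by exact_mod_cast e3
  -- difference H - K2
  have e4 : cnt K.Adj univ univ =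
      cnt (fun x y => K.Adj x y ∧ K2.Adj x y) univ univ +
      cnt (fun x y => K.Adj x y ∧ ¬ K2.Adj x y) univ univ := cnt_split _ _ _ _
  have e5 : cnt (fun x y => K.Adj x y ∧ K2.Adj x y) univ univ = cnt K2.Adj univ univ :=
    cnt_congr fun x _ y _ => ⟨fun h => h.2, fun h => ⟨hK2K h, h⟩⟩
  have e6 : (cnt (fun x y => K.Adj x y ∧ ¬ K2.Adj x y) univ univ : ℝ) =
      cnt K.Adj univ univ - cnt K2.Adj univ univ := by
    have : (cnt K.Adj univ univ : ℝ) = cnt K2.Adj univ univ +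
      cnt (fun x y => K.Adj x y ∧ ¬ K2.Adj x y) univ univ := by
      rw [e5] at e4; exact_mod_cast e4
    linarith
  have e7 : cnt H.Adj A A + cnt H.Adj Aᶜ Aᶜ ≤ cnt K2.Adj Aᶜ Aᶜ +
      (cnt (fun x y => K.Adj x y ∧ ¬ K2.Adj x y) univ univ +
      cnt (fun x y => H.Adj x y ∧ ¬ K.Adj x y) univ univ) := by
    have a1 : cnt H.Adj A A ≤ cnt (fun x y => H.Adj x y ∧ ¬ K2.Adj x y) A A :=
      cnt_mono fun x hx y hy h => ⟨hx, hy, h, hAind x hx y hy⟩
    have a2 : cnt H.Adj Aᶜ Aᶜ ≤ cnt K2.Adj Aᶜ Aᶜ +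
      cnt (fun x y => H.Adj x y ∧ ¬ K2.Adj x y) Aᶜ Aᶜ := cnt_le_add (by intros; tauto)
    have hdisj : Disjoint A Aᶜ := disjoint_compl_right
    have hun : A ∪ Aᶜ = univ := union_compl A
    have a3 : cnt (fun x y => H.Adj x y ∧ ¬ K2.Adj x y) A A +
        cnt (fun x y => H.Adj x y ∧ ¬ K2.Adj x y) Aᶜ Aᶜ ≤
        cnt (fun x y => H.Adj x y ∧ ¬ K2.Adj x y) univ univ := by
      have b1 : cnt (fun x y => H.Adj x y ∧ ¬ K2.Adj x y) A A ≤
        cnt (fun x y => H.Adj x y ∧ ¬ K2.Adj x y) A univ :=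
        cnt_mono fun x hx y hy h => ⟨hx, mem_univ _, h⟩
      have b2 : cnt (fun x y => H.Adj x y ∧ ¬ K2.Adj x y) Aᶜ Aᶜ ≤
        cnt (fun x y => H.Adj x y ∧ ¬ K2.Adj x y) Aᶜ univ :=
        cnt_mono fun x hx y hy h => ⟨hx, mem_univ _, h⟩
      have b3 : cnt (fun x y => H.Adj x y ∧ ¬ K2.Adj x y) univ univ =
        cnt (fun x y => H.Adj x y ∧ ¬ K2.Adj x y) A univ +
        cnt (fun x y => H.Adj x y ∧ ¬ K2.Adj x y) Aᶜ univ := by
        conv_lhs => rw [← hun]
        rw [cnt_union_left _ _ hdisj, hun]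
      omega
    have a4 : cnt (fun x y => H.Adj x y ∧ ¬ K2.Adj x y) univ univ ≤
        cnt (fun x y => K.Adj x y ∧ ¬ K2.Adj x y) univ univ +
        cnt (fun x y => H.Adj x y ∧ ¬ K.Adj x y) univ univ := cnt_le_add (by intros; tauto)
    omega
  have e8 : (cnt H.Adj A A : ℝ) + cnt H.Adj Aᶜ Aᶜ ≤ cnt K2.Adj Aᶜ Aᶜ +
      (cnt (fun x y => K.Adj x y ∧ ¬ K2.Adj x y) univ univ +
      cnt (fun x y => H.Adj x y ∧ ¬ K.Adj x y) univ univ) := by exact_mod_cast e7
  have e9 : 2 * (cnt K2.Adj univ univ : ℝ) + 2 * cnt K2.Adj Aᶜ Aᶜ ≤ n ^ 2 := by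
    rw [hndef]; exact_mod_cast hA
  have hτ2 : τ' * n ^ 2 ≤ ε / 8 * n ^ 2 := mul_le_mul_of_nonneg_right hτle2 hn2pos.le
  have hε2 : ε' * n ^ 2 = ε * n ^ 2 / 32 := by rw [hε']; ring
  have hpos2 : 0 < ε * n ^ 2 := by positivity
  have hgoal : (cnt H.Adj A A : ℝ) + cnt H.Adj Aᶜ Aᶜ ≤ ε * n ^ 2 := by
    linarith
  convert hgoal

end

end Pool.Agent.H46
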